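import Pool.Agent.H21.QT.Tu

/-!
[H21 QT TV]  Supersaturation for five independent vertices, second part.

Proof.
* `turan_super`: choose `k` with `(1/8 - 1/(2k))·2 ≥ 1/4 - ε/2`, i.e. `k ≥ 2/ε`, `k ≥ 5`.  `n = |H|`.  Let `M` be the number of the good pairs in the
  statement.  Call an injective `a : Fin k → ℕ` with values in `H` nice if for all `5` distinct indices the five values are not
  independent.  Not nice injective tuples: for each of the at most `k^5` choices of the indices at most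
  `C n^(5-δ) n^(k-5)` tuples.  For a nice tuple `turan5` (with `Q' i j = Q (a i) (a j)`) gives `≥ k^2/8 - k/2` pairs `{i,j}` of
  indices with `Q (a i) (a j)`.  Count the pairs (injective `a`, `{i,j}`), `Q (a i) (a j)`: at least
  `(n^k - k^2 n^(k-1) - k^5 C n^(k-δ)) (k^2/8 - k/2)` and at most `C(k,2) · 2 M n^(k-2)`.  So
  `M ≥ (1 - k^2/n - k^5 C n^(-δ)) (k^2/8 - k/2)/(k(k-1)) n^2 ≥ (1/4 - ε) n^2/2` for `n` large.
-/

namespace Pool.Agent.H21.QT

open Finset

open Classical in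
/-- double counting of inclusions -/
theorem tv_dc (A : Finset (Finset ℕ)) (H : Finset ℕ) (k t : ℕ) (ht : t ≤ k)
    (hA : ∀ I ∈ A, I ⊆ H ∧ I.card = t) :
    ∑ T ∈ powersetCard k H, (A.filter (fun I => I ⊆ T)).card =
      A.card * (H.card - t).choose (k - t) := by
  simp_rw [card_filter]
  rw [sum_comm]
  have h : ∀ I ∈ A, ∑ T ∈ powersetCard k H, (if I ⊆ T then 1 else 0) =
      (H.card - t).choose (k - t) := by
    intro I hI
    have h1 := card_filter_powersetCard_subset I H k (hA I hI).1 (by rw [(hA I hI).2]; exact ht)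
    rw [card_filter, (hA I hI).2] at h1
    exact h1
  rw [sum_congr rfl h, sum_const, smul_eq_mul]

theorem tv_c (k : ℕ) (hk : 5 ≤ k) : 0 ≤ (k : ℝ) ^ 2 / 8 - k / 2 := by
  have hk5 : (5 : ℝ) ≤ k := by exact_mod_cast hk
  have h : (k : ℝ) ^ 2 / 8 - k / 2 = (k : ℝ) * ((k : ℝ) - 4) / 8 := by ring
  rw [h]
  exact div_nonneg (mul_nonneg (by linarith) (by linarith)) (by norm_num)

theorem tv_cube (x : ℝ) (hx : 10 ≤ x) : x ^ 3 / 48 ≤ (x - 2) * (x - 3) * (x - 4) / 6 := by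
  have a1 : x / 2 ≤ x - 2 := by linarith
  have a2 : x / 2 ≤ x - 3 := by linarith
  have a3 : x / 2 ≤ x - 4 := by linarith
  have a4 : x / 2 * (x / 2) ≤ (x - 2) * (x - 3) := mul_le_mul a1 a2 (by linarith) (by linarith)
  have a5 : x / 2 * (x / 2) * (x / 2) ≤ (x - 2) * (x - 3) * (x - 4) :=
    mul_le_mul a4 a3 (by linarith) (mul_nonneg (by linarith) (by linarith))
  have a6 : x ^ 3 / 48 = x / 2 * (x / 2) * (x / 2) / 6 := by ring
  rw [a6]
  exact div_le_div_of_nonneg_right a5 (by norm_num)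

theorem tv_sq (x : ℝ) (hx : 10 ≤ x) : x ^ 2 / 4 ≤ x * (x - 1) / 2 := by
  have h : x * (x - 1) / 2 - x ^ 2 / 4 = x * (x - 2) / 4 := by ring
  have h2 : 0 ≤ x * (x - 2) / 4 := div_nonneg (mul_nonneg (by linarith) (by linarith)) (by norm_num)
  linarith

/-- no pair of `I` is related -/
def TvInd (Q : ℕ → ℕ → Prop) (I : Finset ℕ) : Prop := ∀ x ∈ I, ∀ y ∈ I, x ≠ y → ¬ Q x y

open Classical in
theorem tv_bad (H : Finset ℕ) (Q : ℕ → ℕ → Prop) :
    ((powersetCard 5 H).filter (fun I => TvInd Q I)).card ≤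
      ((Fintype.piFinset (fun _ : Fin 5 => H)).filter
        (fun a => Function.Injective a ∧ ∀ i j, i ≠ j → ¬ Q (a i) (a j))).card := by
  apply Finset.card_le_card_of_injOn
    (fun I => if h : I.card = 5 then (fun i => I.orderEmbOfFin h i) else fun _ => 0)
  · intro I hI
    rw [mem_coe, mem_filter, mem_powersetCard] at hI
    obtain ⟨⟨hIH, hc⟩, hI⟩ := hI
    simp only [dif_pos hc]
    rw [mem_coe, mem_filter, Fintype.mem_piFinset]
    refine ⟨fun i => hIH (orderEmbOfFin_mem I hc i), (I.orderEmbOfFin hc).injective, ?_⟩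
    intro i j hij
    exact hI _ (orderEmbOfFin_mem I hc i) _ (orderEmbOfFin_mem I hc j)
      (fun h => hij ((I.orderEmbOfFin hc).injective h))
  · intro I hI J hJ hIJ
    rw [mem_coe, mem_filter, mem_powersetCard] at hI hJ
    have h1 : I.card = 5 := hI.1.2
    have h2 : J.card = 5 := hJ.1.2
    simp only [dif_pos h1, dif_pos h2] at hIJ
    have h3 : (I : Set ℕ) = J := by
      rw [← range_orderEmbOfFin I h1, ← range_orderEmbOfFin J h2]
      ext x
      constructor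
      · rintro ⟨i, rfl⟩
        exact ⟨i, (congrFun hIJ i).symm⟩
      · rintro ⟨i, rfl⟩
        exact ⟨i, congrFun hIJ i⟩
    exact_mod_cast h3

open Classical in
theorem tv_pairs (k : ℕ) (T : Finset ℕ) (hT : T.card = k) (Q : ℕ → ℕ → Prop)
    (hQ : ∀ x y, Q x y → Q y x)
    (h5 : ∀ I ⊆ T, I.card = 5 → ∃ x ∈ I, ∃ y ∈ I, x ≠ y ∧ Q x y) :
    (k : ℝ) ^ 2 / 8 - k / 2 ≤
      (((powersetCard 2 T).filter (fun B => ∃ x ∈ B, ∃ y ∈ B, x ≠ y ∧ Q x y)).card : ℝ) := by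
  have h := turan5 k (fun i j => Q (T.orderEmbOfFin hT i) (T.orderEmbOfFin hT j))
    (fun _ _ => hQ _ _) (by
      intro f hf
      obtain ⟨x, hx, y, hy, hxy, hq⟩ := h5 (univ.image (fun i => T.orderEmbOfFin hT (f i))) (by
          intro x hx
          rw [mem_image] at hx
          obtain ⟨i, -, rfl⟩ := hx
          exact orderEmbOfFin_mem T hT _) (by
          rw [card_image_of_injective _ (fun i j hij => hf ((T.orderEmbOfFin hT).injective hij)),
            card_univ, Fintype.card_fin])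
      rw [mem_image] at hx hy
      obtain ⟨i, -, rfl⟩ := hx
      obtain ⟨j, -, rfl⟩ := hy
      exact ⟨i, j, fun h => hxy (by rw [h]), hq⟩)
  refine h.trans ?_
  rw [Nat.cast_le]
  apply Finset.card_le_card_of_injOn (fun B => B.map (T.orderEmbOfFin hT).toEmbedding)
  · intro B hB
    rw [mem_coe, mem_filter, mem_powersetCard] at hB
    obtain ⟨⟨-, hc⟩, x, hx, y, hy, hxy, hq⟩ := hB
    rw [mem_coe, mem_filter, mem_powersetCard]
    refine ⟨⟨?_, by rw [card_map, hc]⟩, T.orderEmbOfFin hT x, mem_map_of_mem _ hx,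
      T.orderEmbOfFin hT y, mem_map_of_mem _ hy, fun h => hxy ((T.orderEmbOfFin hT).injective h), hq⟩
    intro z hz
    rw [mem_map] at hz
    obtain ⟨i, -, rfl⟩ := hz
    exact orderEmbOfFin_mem T hT i
  · intro B _ B' _ h
    exact map_injective _ h

open Classical in
theorem tv_count (k : ℕ) (hk : 5 ≤ k) (H : Finset ℕ) (Q : ℕ → ℕ → Prop)
    (hQ : ∀ x y, Q x y → Q y x) :
    ((H.card.choose k : ℝ) -
      (((powersetCard 5 H).filter (fun I => TvInd Q I)).card : ℝ) *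
        ((H.card - 5).choose (k - 5) : ℝ)) * ((k : ℝ) ^ 2 / 8 - k / 2) ≤
      (((powersetCard 2 H).filter (fun B => ∃ x ∈ B, ∃ y ∈ B, x ≠ y ∧ Q x y)).card : ℝ) *
        ((H.card - 2).choose (k - 2) : ℝ) := by
  set A5 := (powersetCard 5 H).filter (fun I => TvInd Q I) with hA5
  set A2 := (powersetCard 2 H).filter (fun B => ∃ x ∈ B, ∃ y ∈ B, x ≠ y ∧ Q x y) with hA2
  have h5 := tv_dc A5 H k 5 hk (by
    intro I hI
    rw [hA5, mem_filter, mem_powersetCard] at hI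
    exact hI.1)
  have h2 := tv_dc A2 H k 2 (by omega) (by
    intro I hI
    rw [hA2, mem_filter, mem_powersetCard] at hI
    exact hI.1)
  have hc : 0 ≤ (k : ℝ) ^ 2 / 8 - k / 2 := tv_c k hk
  have key : ∀ T ∈ powersetCard k H,
      (1 - ((A5.filter (fun I => I ⊆ T)).card : ℝ)) * ((k : ℝ) ^ 2 / 8 - k / 2) ≤
        ((A2.filter (fun B => B ⊆ T)).card : ℝ) := by
    intro T hT
    rw [mem_powersetCard] at hT
    by_cases h0 : (A5.filter (fun I => I ⊆ T)).card = 0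
    · rw [h0]
      have h1 := tv_pairs k T hT.2 Q hQ (by
        intro I hI hc5
        by_contra hcon
        have h3 : I ∈ A5.filter (fun I => I ⊆ T) := by
          rw [mem_filter, hA5, mem_filter, mem_powersetCard]
          refine ⟨⟨⟨hI.trans hT.1, hc5⟩, ?_⟩, hI⟩
          intro x hx y hy hxy hq
          exact hcon ⟨x, hx, y, hy, hxy, hq⟩
        rw [card_eq_zero] at h0
        rw [h0] at h3
        exact absurd h3 (notMem_empty _))
      have h4 : (powersetCard 2 T).filter (fun B => ∃ x ∈ B, ∃ y ∈ B, x ≠ y ∧ Q x y) =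
          A2.filter (fun B => B ⊆ T) := by
        ext B
        rw [hA2, mem_filter, mem_filter, mem_filter, mem_powersetCard, mem_powersetCard]
        constructor
        · rintro ⟨⟨h5, h6⟩, h7⟩
          exact ⟨⟨⟨h5.trans hT.1, h6⟩, h7⟩, h5⟩
        · rintro ⟨⟨⟨_, h6⟩, h7⟩, h5⟩
          exact ⟨⟨h5, h6⟩, h7⟩
      rw [h4] at h1
      rw [Nat.cast_zero, sub_zero, one_mul]
      exact h1
    · have h1 : (1 : ℝ) ≤ ((A5.filter (fun I => I ⊆ T)).card : ℝ) := by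
        exact_mod_cast Nat.one_le_iff_ne_zero.2 h0
      have h2 : (1 - ((A5.filter (fun I => I ⊆ T)).card : ℝ)) * ((k : ℝ) ^ 2 / 8 - k / 2) ≤ 0 :=
        mul_nonpos_of_nonpos_of_nonneg (by linarith) hc
      exact h2.trans (Nat.cast_nonneg _)
  have hsum := sum_le_sum key
  rw [← sum_mul, sum_sub_distrib, sum_const, card_powersetCard, nsmul_eq_mul, mul_one,
    ← Nat.cast_sum, ← Nat.cast_sum, h5, h2, Nat.cast_mul, Nat.cast_mul] at hsum
  exact hsum

/-- numbers -/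
theorem tv_num (k n : ℕ) (hk : 5 ≤ k) (hn : 10 ≤ n) (hkn : k ≤ n) (ε M N : ℝ)
    (hε : 3 / (4 * ((k : ℝ) - 1)) ≤ ε / 2)
    (hN5 : ((k : ℝ) ^ 2 / 8 - k / 2) * ((k - 2).choose 3 : ℝ) * N ≤ ε * (n : ℝ) ^ 5 / 384)
    (h : ((n.choose k : ℝ) - N * ((n - 5).choose (k - 5) : ℝ)) * ((k : ℝ) ^ 2 / 8 - k / 2) ≤
      M * ((n - 2).choose (k - 2) : ℝ)) :
    (1 / 4 - ε) * (n.choose 2 : ℝ) ≤ M := by
  have hk5 : (5 : ℝ) ≤ k := by exact_mod_cast hk
  have hn10 : (10 : ℝ) ≤ n := by exact_mod_cast hn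
  set X : ℝ := ((n - 2).choose (k - 2) : ℝ) with hX
  have hXpos : 0 < X := by
    rw [hX]
    exact_mod_cast Nat.choose_pos (by omega)
  have e1 : (n.choose k : ℝ) * (k.choose 2 : ℝ) = (n.choose 2 : ℝ) * X := by
    rw [hX]
    exact_mod_cast Nat.choose_mul (n := n) (k := k) (s := 2) (by omega)
  have e2 : X * ((k - 2).choose 3 : ℝ) = ((n - 2).choose 3 : ℝ) * ((n - 5).choose (k - 5) : ℝ) := by
    have := Nat.choose_mul (n := n - 2) (k := k - 2) (s := 3) (by omega)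
    rw [show n - 2 - 3 = n - 5 by omega, show k - 2 - 3 = k - 5 by omega] at this
    rw [hX]
    exact_mod_cast this
  have c2 : ∀ m : ℕ, 2 ≤ m → (m.choose 2 : ℝ) = (m : ℝ) * ((m : ℝ) - 1) / 2 := by
    intro m hm
    rw [Nat.cast_choose_two]
  have c3 : ((n - 2).choose 3 : ℝ) = ((n : ℝ) - 2) * ((n : ℝ) - 3) * ((n : ℝ) - 4) / 6 := by
    have h1 : (n - 2).choose 3 * 6 = (n - 2) * (n - 3) * (n - 4) := by
      have h2 := Nat.descFactorial_eq_factorial_mul_choose (n - 2) 3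
      have h3 : (n - 2).descFactorial 3 = (n - 2) * (n - 3) * (n - 4) := by
        rw [Nat.descFactorial_succ, Nat.descFactorial_succ, Nat.descFactorial_one]
        rw [show n - 2 - 2 = n - 4 by omega, show n - 2 - 1 = n - 3 by omega]
        ring
      rw [← h3, h2]
      norm_num [Nat.factorial]
      ring
    have h4 : ((n - 2).choose 3 : ℝ) * 6 = ((n : ℝ) - 2) * ((n : ℝ) - 3) * ((n : ℝ) - 4) := by
      have h5 : (((n - 2).choose 3 * 6 : ℕ) : ℝ) = (((n - 2) * (n - 3) * (n - 4) : ℕ) : ℝ) := by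
        rw [h1]
      rw [Nat.cast_mul, Nat.cast_mul, Nat.cast_mul, Nat.cast_sub (by omega), Nat.cast_sub (by omega),
        Nat.cast_sub (by omega)] at h5
      push_cast at h5
      exact h5
    linarith
  set Y : ℝ := ((n - 5).choose (k - 5) : ℝ) with hY
  set c : ℝ := (k : ℝ) ^ 2 / 8 - k / 2 with hc
  have hc0 : 0 ≤ c := tv_c k hk
  rw [c2 k (by omega)] at e1
  have hn2 := c2 n (by omega)
  set B2 : ℝ := (n.choose 2 : ℝ) with hB2
  set D3 : ℝ := ((n - 2).choose 3 : ℝ) with hD3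
  set Z : ℝ := ((k - 2).choose 3 : ℝ) with hZ
  have hD : (n : ℝ) ^ 3 / 48 ≤ D3 := by
    rw [c3]
    exact tv_cube _ hn10
  have hB : (n : ℝ) ^ 2 / 4 ≤ B2 := by
    rw [hn2]
    exact tv_sq _ hn10
  have hkk : 0 < (k : ℝ) * ((k : ℝ) - 1) / 2 :=
    div_pos (mul_pos (by linarith) (by linarith)) (by norm_num)
  have hD0 : 0 < D3 := lt_of_lt_of_le (by positivity) hD
  have hB0 : 0 < B2 := lt_of_lt_of_le (by positivity) hB
  -- M X >= c (n choose k) - c N Y
  have hYeq : Y = X * Z / D3 := by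
    rw [eq_div_iff hD0.ne', e2]
    ring
  have hCeq : (n.choose k : ℝ) = B2 * X / ((k : ℝ) * ((k : ℝ) - 1) / 2) := by
    rw [eq_div_iff hkk.ne']
    exact e1
  rw [hYeq, hCeq] at h
  have h1 : X * (c * (B2 / ((k : ℝ) * ((k : ℝ) - 1) / 2)) - c * Z * N / D3) ≤ X * M := by
    calc X * (c * (B2 / ((k : ℝ) * ((k : ℝ) - 1) / 2)) - c * Z * N / D3)
        = (B2 * X / ((k : ℝ) * ((k : ℝ) - 1) / 2) - N * (X * Z / D3)) * c := by ring
      _ ≤ M * X := h
      _ = X * M := by ring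
  have h2 := le_of_mul_le_mul_left h1 hXpos
  have h3 : c * (B2 / ((k : ℝ) * ((k : ℝ) - 1) / 2)) = (1 / 4 - 3 / (4 * ((k : ℝ) - 1))) * B2 := by
    rw [hc]
    have hk0 : (k : ℝ) ≠ 0 := by linarith
    have hk1 : (k : ℝ) - 1 ≠ 0 := by linarith
    field_simp
    ring
  have h4 : c * Z * N / D3 ≤ ε / 2 * B2 := by
    rw [div_le_iff₀ hD0]
    calc c * Z * N ≤ ε * (n : ℝ) ^ 5 / 384 := hN5
      _ = ε / 2 * ((n : ℝ) ^ 2 / 4) * ((n : ℝ) ^ 3 / 48) := by ring
      _ ≤ ε / 2 * B2 * D3 := by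
          have hε0 : 0 ≤ ε / 2 := by
            refine le_trans ?_ hε
            apply div_nonneg (by norm_num)
            linarith
          apply mul_le_mul _ hD (by positivity) (by positivity)
          exact mul_le_mul_of_nonneg_left hB hε0
  have h5 : 3 / (4 * ((k : ℝ) - 1)) * B2 ≤ ε / 2 * B2 := mul_le_mul_of_nonneg_right hε hB0.le
  rw [h3] at h2
  calc (1 / 4 - ε) * B2 = 1 / 4 * B2 - ε / 2 * B2 - ε / 2 * B2 := by ring
    _ ≤ 1 / 4 * B2 - 3 / (4 * ((k : ℝ) - 1)) * B2 - c * Z * N / D3 := by linarith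
    _ = (1 / 4 - 3 / (4 * ((k : ℝ) - 1))) * B2 - c * Z * N / D3 := by ring
    _ ≤ M := h2

open Classical in
theorem turan_super (δ C ε : ℝ) (hδ : 0 < δ) (hC : 0 ≤ C) (hε : 0 < ε) : ∃ K : ℕ,
    ∀ (H : Finset ℕ) (Q : ℕ → ℕ → Prop), (∀ x y, Q x y → Q y x) → K ≤ H.card →
      (((Fintype.piFinset (fun _ : Fin 5 => H)).filter
        (fun a => Function.Injective a ∧ ∀ i j, i ≠ j → ¬ Q (a i) (a j))).card : ℝ) ≤
        C * (H.card : ℝ) ^ ((5 : ℝ) - δ) →
      (1 / 4 - ε) * (H.card.choose 2 : ℝ) ≤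
        (((powersetCard 2 H).filter (fun B => ∃ x ∈ B, ∃ y ∈ B, x ≠ y ∧ Q x y)).card : ℝ) := by
  obtain ⟨k0, hk0⟩ := exists_nat_ge (3 / (2 * ε))
  set k : ℕ := k0 + 5 with hk
  have hk5 : 5 ≤ k := by omega
  have hkε : 3 / (4 * ((k : ℝ) - 1)) ≤ ε / 2 := by
    have h1 : 3 / (2 * ε) ≤ (k : ℝ) - 1 := by
      rw [hk]
      push_cast
      linarith
    rw [div_le_iff₀ (by positivity)] at h1
    have h2 : (0 : ℝ) < 4 * ((k : ℝ) - 1) := by
      rw [hk]
      push_cast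
      have : (0 : ℝ) ≤ k0 := Nat.cast_nonneg _
      linarith
    have h3 : ε / 2 * (4 * ((k : ℝ) - 1)) = ((k : ℝ) - 1) * (2 * ε) := by ring
    rw [div_le_iff₀ h2, h3]
    exact h1
  set B : ℝ := ((k : ℝ) ^ 2 / 8 - k / 2) * ((k - 2).choose 3 : ℝ) * C with hB
  have hev : ∀ᶠ n : ℕ in Filter.atTop, 384 * B / ε ≤ (n : ℝ) ^ δ :=
    ((tendsto_rpow_atTop hδ).comp tendsto_natCast_atTop_atTop).eventually_ge_atTop _
  obtain ⟨K0, hK0⟩ := Filter.eventually_atTop.1 hev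
  refine ⟨max (max 10 k) K0, ?_⟩
  intro H Q hQ hH hcard
  have hn10 : 10 ≤ H.card := le_trans (le_trans (le_max_left _ _) (le_max_left _ _)) hH
  have hnk : k ≤ H.card := le_trans (le_trans (le_max_right _ _) (le_max_left _ _)) hH
  have hnK : K0 ≤ H.card := le_trans (le_max_right _ _) hH
  have hn0 : (0 : ℝ) < H.card := by
    have : (10 : ℝ) ≤ H.card := by exact_mod_cast hn10
    linarith
  have hbad : ((((powersetCard 5 H).filter
      (fun I => TvInd Q I)).card : ℕ) : ℝ) ≤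
      C * (H.card : ℝ) ^ ((5 : ℝ) - δ) :=
    le_trans (by exact_mod_cast tv_bad H Q) hcard
  refine tv_num k H.card hk5 hn10 hnk ε _ _ hkε ?_ (tv_count k hk5 H Q hQ)
  have hc0 : 0 ≤ ((k : ℝ) ^ 2 / 8 - k / 2) * ((k - 2).choose 3 : ℝ) :=
    mul_nonneg (tv_c k hk5) (Nat.cast_nonneg _)
  refine (mul_le_mul_of_nonneg_left hbad hc0).trans ?_
  have h1 := hK0 H.card hnK
  rw [div_le_iff₀ hε] at h1
  have h2 : (H.card : ℝ) ^ ((5 : ℝ) - δ) * (H.card : ℝ) ^ δ = (H.card : ℝ) ^ 5 := by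
    rw [← Real.rpow_add hn0, sub_add_cancel]
    exact_mod_cast Real.rpow_natCast (H.card : ℝ) 5
  have h3 : 0 ≤ (H.card : ℝ) ^ ((5 : ℝ) - δ) := Real.rpow_nonneg hn0.le _
  calc ((k : ℝ) ^ 2 / 8 - k / 2) * ((k - 2).choose 3 : ℝ) * (C * (H.card : ℝ) ^ ((5 : ℝ) - δ))
      = (384 * B) * (H.card : ℝ) ^ ((5 : ℝ) - δ) / 384 := by
        rw [hB]
        ring
    _ ≤ ((H.card : ℝ) ^ δ * ε) * (H.card : ℝ) ^ ((5 : ℝ) - δ) / 384 := by
        apply div_le_div_of_nonneg_right _ (by norm_num)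
        exact mul_le_mul_of_nonneg_right h1 h3
    _ = ε * (H.card : ℝ) ^ 5 / 384 := by
        rw [← h2]
        ring

end Pool.Agent.H21.QT
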