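import Pool.Agent.H21.QT.Gc
import Pool.Agent.H21.QT.Tv
import Pool.Agent.H21.SH.P6

/-!
A quarter of the pairs in every large admissible set, and densities of the gaps between consecutive primes.
-/

namespace Pool.Agent.H21.QT

open Finset Pool.Agent.H21.SH

theorem gapE_of_gapP (a b : ℕ) (h : GapP (a : ℤ) (b : ℤ)) : GapE (b - a) := by
  obtain ⟨hab, hinf⟩ := h
  have hab' : a < b := by exact_mod_cast hab
  unfold GapE
  have hinj : Set.InjOn (fun N : ℕ => N + a) {N : ℕ | ((N : ℤ) + (a : ℤ)).toNat.Prime ∧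
      ((N : ℤ) + (b : ℤ)).toNat.Prime ∧
      ∀ z : ℤ, (a : ℤ) < z → z < (b : ℤ) → ¬ ((N : ℤ) + z).toNat.Prime} :=
    fun x _ y _ hxy => by simpa using hxy
  refine (hinf.image hinj).mono ?_
  rintro _ ⟨N, ⟨h1, h2, h3⟩, rfl⟩
  have e1 : ((N : ℤ) + (a : ℤ)).toNat = N + a := by omega
  have e2 : ((N : ℤ) + (b : ℤ)).toNat = N + b := by omega
  rw [e1] at h1
  rw [e2] at h2
  refine ⟨h1, ?_, ?_⟩
  · show (N + a + (b - a)).Prime
    have e : N + a + (b - a) = N + b := by omega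
    rw [e]
    exact h2
  · intro x hx1 hx2 hxp
    have hx1' : N + a < x := hx1
    have hx2' : x < N + a + (b - a) := hx2
    refine h3 ((x : ℤ) - N) (by omega) (by omega) ?_
    have e : ((N : ℤ) + ((x : ℤ) - N)).toNat = x := by omega
    rw [e]
    exact hxp

open Classical in
/-- a quarter of the pairs are consecutive primes infinitely often -/
theorem quarter_pairs (ε : ℝ) (hε : 0 < ε) : ∃ K : ℕ, ∀ H : Finset ℕ,
    (∀ p : ℕ, p.Prime → ∃ a : ℕ, ∀ h ∈ H, ¬ p ∣ a + h) → K ≤ H.card →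
    (1 / 4 - ε) * (H.card.choose 2 : ℝ) ≤
      (((powersetCard 2 H).filter (fun B => ∃ x ∈ B, ∃ y ∈ B, GapP ((x : ℕ) : ℤ) ((y : ℕ) : ℤ))).card : ℝ) := by
  obtain ⟨δ, C, hδ, hδ1, hC, h⟩ := cons5_nat
  obtain ⟨K, hK⟩ := turan_super δ C ε hδ hC hε
  refine ⟨K + 1, fun H hH hcard => ?_⟩
  have h1 := hK H (fun x y : ℕ => GapP (x : ℤ) (y : ℤ) ∨ GapP (y : ℤ) (x : ℤ))
    (fun x y hxy => hxy.symm) (by omega) ?_
  · refine h1.trans ?_
    have hsub : (powersetCard 2 H).filter (fun B => ∃ x ∈ B, ∃ y ∈ B, x ≠ y ∧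
        (GapP ((x : ℕ) : ℤ) ((y : ℕ) : ℤ) ∨ GapP ((y : ℕ) : ℤ) ((x : ℕ) : ℤ))) ⊆
        (powersetCard 2 H).filter (fun B => ∃ x ∈ B, ∃ y ∈ B, GapP ((x : ℕ) : ℤ) ((y : ℕ) : ℤ)) := by
      intro B hB
      rw [mem_filter] at hB ⊢
      refine ⟨hB.1, ?_⟩
      obtain ⟨x, hx, y, hy, _, hxy | hxy⟩ := hB.2
      · exact ⟨x, hx, y, hy, hxy⟩
      · exact ⟨y, hy, x, hx, hxy⟩
    exact_mod_cast card_le_card hsub
  · refine le_trans ?_ (h H hH (by omega))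
    have hsub : (Fintype.piFinset (fun _ : Fin 5 => H)).filter
        (fun a : Fin 5 → ℕ => Function.Injective a ∧ ∀ i j, i ≠ j →
          ¬ (GapP ((a i : ℕ) : ℤ) ((a j : ℕ) : ℤ) ∨ GapP ((a j : ℕ) : ℤ) ((a i : ℕ) : ℤ))) ⊆
        (Fintype.piFinset (fun _ : Fin 5 => H)).filter
        (fun a : Fin 5 → ℕ => ∀ i j, ¬ GapP ((a i : ℕ) : ℤ) ((a j : ℕ) : ℤ)) := by
      intro a ha
      rw [mem_filter] at ha ⊢
      refine ⟨ha.1, fun i j hij => ?_⟩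
      by_cases hne : i = j
      · subst hne
        exact lt_irrefl _ hij.1
      · exact ha.2.2 i j hne (Or.inl hij)
    exact_mod_cast card_le_card hsub

theorem pair_gap4 (c : ℝ) (hc : c < 1 / 4) : ∃ K0 : ℕ, ∀ k, K0 ≤ k → PairProp GapE c k := by
  classical
  obtain ⟨K0, hK⟩ := quarter_pairs (1 / 4 - c) (by linarith)
  refine ⟨K0, fun k hk => ?_⟩
  unfold PairProp
  intro G hG hcard
  have h1 := hK G hG (by omega)
  rw [hcard] at h1
  have e : (1 / 4 : ℝ) - (1 / 4 - c) = c := by ring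
  rw [e] at h1
  refine h1.trans ?_
  have hsub : (powersetCard 2 G).filter (fun B => ∃ x ∈ B, ∃ y ∈ B, GapP ((x : ℕ) : ℤ) ((y : ℕ) : ℤ)) ⊆
      (powersetCard 2 G).filter (fun B => ∃ a ∈ B, ∃ b ∈ B, a < b ∧ GapE (b - a)) := by
    intro B hB
    rw [mem_filter] at hB ⊢
    refine ⟨hB.1, ?_⟩
    obtain ⟨x, hx, y, hy, hxy⟩ := hB.2
    exact ⟨x, hx, y, hy, by exact_mod_cast hxy.1, gapE_of_gapP x y hxy⟩
  have := card_le_card hsub
  exact_mod_cast this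

end Pool.Agent.H21.QT
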