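import Mathlib

/-!
MP_8923e7_nt, project QT (a quarter of almost every tuple).  Definitions.
-/

namespace Pool.Agent.H21.QT

open Finset

/-- `N + x` is a prime of colour `i` -/
def PC {r : ℕ} (c : ℕ → Fin r) (i : Fin r) (N : ℕ) (x : ℤ) : Prop :=
  ((N : ℤ) + x).toNat.Prime ∧ c ((N : ℤ) + x).toNat = i

/-- admissible tuple -/
def AdT {k : ℕ} (a : Fin k → ℤ) : Prop := ∀ p : ℕ, p.Prime → ∃ b : ℤ, ∀ j, ¬ (p : ℤ) ∣ b + a j

/-- admissible blocks -/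
def AdB {k : ℕ} (V : Fin k → Finset ℤ) : Prop :=
  ∀ p : ℕ, p.Prime → ∃ b : ℤ, ∀ j, ∀ x ∈ V j, ¬ (p : ℤ) ∣ b + x

/-- `(i, E)` is realised by `a`: for every `E' ⊆ E` there are infinitely many `N` such that the `j` for which
`N + a_j` is a prime of colour `i` are the elements of `E'` -/
def Rea {r k : ℕ} (c : ℕ → Fin r) (a : Fin k → ℤ) (i : Fin r) (E : Finset (Fin k)) : Prop :=
  ∀ E' : Finset (Fin k), E' ⊆ E → {N : ℕ | ∀ j, PC c i N (a j) ↔ j ∈ E'}.Infinite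

/-- there are weights `w i E ≥ 0` with sum at most `1` on the realised pairs `(i, E)` such that every index is
covered with weight at least `(1/4 - η)/r` -/
def Quarter {r k : ℕ} (η : ℝ) (c : ℕ → Fin r) (a : Fin k → ℤ) : Prop :=
  ∃ w : Fin r → Finset (Fin k) → ℝ, (∀ i E, 0 ≤ w i E) ∧ ∑ i, ∑ E, w i E ≤ 1 ∧
    (∀ j, (1 / 4 - η) / r ≤ ∑ i, ∑ E ∈ univ.filter (fun E => j ∈ E), w i E) ∧
    ∀ i E, 0 < w i E → Rea c a i E

/-- infinitely often `N + x < N + y` are consecutive primes -/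
def GapP (x y : ℤ) : Prop :=
  x < y ∧ {N : ℕ | ((N : ℤ) + x).toNat.Prime ∧ ((N : ℤ) + y).toNat.Prime ∧
    ∀ z : ℤ, x < z → z < y → ¬ ((N : ℤ) + z).toNat.Prime}.Infinite

end Pool.Agent.H21.QT
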