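import Pool.Agent.H21.QT.Df
import Pool.Agent.H21.SH.Cq
import Pool.Agent.H21.MT.SieveR

/-!
[H21 QT BS]  The sharp sieve on blocks with a prescribed small expected number `mu` of primes in each block.

Proof.  As [H21 QT BQ] (`Bq.lean`, see its header for the translation from `ℤ` to `ℕ`, `kill`, exactness) and `cq_par` in
`Pool/Agent/H21/SH/Cq.lean`.  Choose `e ∈ (0, 1/100]` with `1 - 50 e ≥ 1 - η` and `(1+50e)^2 ≤ 1 + η`.  As in `cq_par` choose `l` with
`l ≥ 6 k mu/e^2`, then `s` large (`s ≥ 1`, `A/(k s) 2^l ≤ 1/2` with `A = 4 bl(l) k mu/(e (l+2)^2)`), `τ = A/(k s)`: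
`psv e τ l = k mu/(k s) = mu/s`, `k s (l+1) τ = (l+1) A ≤ 6 k mu (l+1)/(e (l+2)^2) ≤ e`.
With `p = mu/s`: `∑ μ X_j ≥ s (1-50e) p = (1-50e) mu` and `∑ μ C(X_j,2) = ∑_{pairs in V j} μ(both prime) ≤
C(s,2) (1+50e)^2 4 p^2 ≤ 2 (1+50e)^2 mu^2`.
-/

namespace Pool.Agent.H21.QT

open Finset Pool.Agent.H21.SH Pool.Agent.H21.MT

/-- the parameters -/
theorem bs_par (k : ℕ) (hk : 1 ≤ k) (mu : ℝ) (hmu : 0 < mu) (e : ℝ) (he : 0 < e) :
    ∃ (s l : ℕ) (tau : ℝ), 1 ≤ s ∧ 0 < tau ∧ (2 : ℝ) ^ l * tau ≤ 1 / 2 ∧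
      ((k : ℝ) * s) * (((l : ℝ) + 1) * tau) ≤ e ∧ psv e tau l = mu / s := by
  obtain ⟨l, hl⟩ := exists_nat_ge (6 * ((k : ℝ) * mu) / e ^ 2)
  obtain ⟨hb1, hb2⟩ := cq_bl l
  have hk0 : (1 : ℝ) ≤ k := by exact_mod_cast hk
  have hbl : 0 < bl l := by linarith
  obtain ⟨A, hA⟩ : ∃ A : ℝ, A = 4 * bl l * (k * mu) / (e * ((l : ℝ) + 2) ^ 2) := ⟨_, rfl⟩
  have hA0 : 0 < A := by rw [hA]; positivity
  obtain ⟨s0, hs0⟩ := exists_nat_ge (2 * ((2 : ℝ) ^ l * A))
  refine ⟨s0 + 1, l, A / (k * ((s0 : ℝ) + 1)), by omega, by positivity, ?_, ?_, ?_⟩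
  · have hs1 : (0 : ℝ) ≤ s0 := Nat.cast_nonneg _
    rw [← mul_div_assoc, div_le_iff₀ (by positivity)]
    nlinarith
  · have h1 : ((k : ℝ) * ((s0 + 1 : ℕ) : ℝ)) * (((l : ℝ) + 1) * (A / (k * ((s0 : ℝ) + 1)))) =
        ((l : ℝ) + 1) * A := by
      push_cast
      field_simp
    rw [h1, hA, ← mul_div_assoc, div_le_iff₀ (by positivity)]
    have h2 : 6 * ((k : ℝ) * mu) ≤ l * e ^ 2 := (div_le_iff₀ (by positivity)).1 hl
    have hl0 : (0 : ℝ) ≤ l := Nat.cast_nonneg l
    calc ((l : ℝ) + 1) * (4 * bl l * (k * mu)) ≤ ((l : ℝ) + 1) * (4 * (3 / 2) * (k * mu)) := by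
          gcongr
      _ = ((l : ℝ) + 1) * (6 * (k * mu)) := by ring
      _ ≤ ((l : ℝ) + 1) * (l * e ^ 2) := by gcongr
      _ ≤ e * (e * ((l : ℝ) + 2) ^ 2) := by
          have h3 : ((l : ℝ) + 1) * l ≤ ((l : ℝ) + 2) ^ 2 := by nlinarith
          have h4 : 0 < e ^ 2 := by positivity
          nlinarith
  · unfold psv
    rw [hA]
    push_cast
    field_simp

theorem bs_eps (η : ℝ) (hη : 0 < η) : ∃ e : ℝ, 0 < e ∧ e ≤ 1 / 100 ∧ 50 * e ≤ η ∧
    (1 + 50 * e) ^ 2 ≤ 1 + η := by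
  refine ⟨min (1 / 100) (η / 200), lt_min (by norm_num) (by positivity), min_le_left _ _, ?_, ?_⟩
  · have := min_le_right (1 / 100 : ℝ) (η / 200)
    linarith
  · have h1 := min_le_right (1 / 100 : ℝ) (η / 200)
    have h2 := min_le_left (1 / 100 : ℝ) (η / 200)
    have h3 : 0 < min (1 / 100 : ℝ) (η / 200) := lt_min (by norm_num) (by positivity)
    nlinarith

/-- the first moment -/
theorem bs_first {α : Type} [Fintype α] [DecidableEq α] (T : Finset ℕ) (μ : ℕ → ℝ)
    (P : α → ℕ → Prop) [∀ a N, Decidable (P a N)] :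
    ∑ N ∈ T, μ N * (((univ.filter (fun a => P a N)).card : ℕ) : ℝ) =
      ∑ a, ∑ N ∈ T.filter (fun N => P a N), μ N := by
  have h4 : ∀ N ∈ T, μ N * (((univ.filter (fun a => P a N)).card : ℕ) : ℝ) =
      ∑ a, (if P a N then μ N else 0) := by
    intro N _
    rw [card_filter]
    push_cast
    rw [mul_sum]
    refine sum_congr rfl fun a _ => ?_
    split_ifs
    · rw [mul_one]
    · rw [mul_zero]
  rw [sum_congr rfl h4, sum_comm]
  refine sum_congr rfl fun a _ => ?_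
  rw [sum_filter]

/-- the second factorial moment -/
theorem bs_second {α : Type} [Fintype α] [DecidableEq α] (T : Finset ℕ) (μ : ℕ → ℝ)
    (P : α → ℕ → Prop) [∀ a N, Decidable (P a N)] :
    ∑ N ∈ T, μ N * (((univ.filter (fun a => P a N)).card.choose 2 : ℕ) : ℝ) =
      ∑ S ∈ powersetCard 2 (univ : Finset α), ∑ N ∈ T.filter (fun N => ∀ a ∈ S, P a N), μ N := by
  have h4 : ∀ N ∈ T, μ N * (((univ.filter (fun a => P a N)).card.choose 2 : ℕ) : ℝ) =
      ∑ S ∈ powersetCard 2 (univ : Finset α), (if ∀ a ∈ S, P a N then μ N else 0) := by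
    intro N _
    have h5 : (univ.filter (fun a => P a N)).card.choose 2 =
        ((powersetCard 2 (univ : Finset α)).filter (fun S => ∀ a ∈ S, P a N)).card := by
      rw [← card_powersetCard]
      congr 1
      ext S
      rw [mem_powersetCard, mem_filter, mem_powersetCard]
      constructor
      · rintro ⟨h1, h2⟩
        exact ⟨⟨subset_univ _, h2⟩, fun a ha => (mem_filter.1 (h1 ha)).2⟩
      · rintro ⟨⟨_, h2⟩, h3⟩
        exact ⟨fun a ha => mem_filter.2 ⟨mem_univ _, h3 a ha⟩, h2⟩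
    rw [h5, card_filter]
    push_cast
    rw [mul_sum]
    refine sum_congr rfl fun a _ => ?_
    split_ifs
    · rw [mul_one]
    · rw [mul_zero]
  rw [sum_congr rfl h4, sum_comm]
  refine sum_congr rfl fun a _ => ?_
  rw [sum_filter]

open Classical in
theorem blk_small (k : ℕ) (hk : 1 ≤ k) (mu : ℝ) (hmu : 0 < mu) (η : ℝ) (hη : 0 < η) :
    ∃ s : ℕ, 1 ≤ s ∧ ∀ V : Fin k → Finset ℤ, (∀ j j', j ≠ j' → Disjoint (V j) (V j')) →
      (∀ j, (V j).card = s) → AdB V → ∀ D N0 : ℕ,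
      ∃ (T : Finset ℕ) (μ : ℕ → ℝ), (∀ N ∈ T, N0 < N) ∧ (∀ N, 0 ≤ μ N) ∧ ∑ N ∈ T, μ N = 1 ∧
        (∀ N ∈ T, ∀ y : ℤ, |y| ≤ D → ((N : ℤ) + y).toNat.Prime → ∃ j, y ∈ V j) ∧
        (∀ j, (1 - η) * mu ≤ ∑ N ∈ T, μ N *
          (((V j).filter (fun x : ℤ => ((N : ℤ) + x).toNat.Prime)).card : ℝ)) ∧
        ∀ j, ∑ N ∈ T, μ N *
          ((((V j).filter (fun x : ℤ => ((N : ℤ) + x).toNat.Prime)).card.choose 2 : ℕ) : ℝ) ≤
            2 * (1 + η) * mu ^ 2 := by
  obtain ⟨ε, he0, he1, he2, he3⟩ := bs_eps η hη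
  obtain ⟨s, l, tau, hs, ht0, ht1, ht2, ht3⟩ := bs_par k hk mu hmu ε he0
  refine ⟨s, hs, ?_⟩
  intro V hdisj hcardV hadmV D N0
  have hk0 : (1 : ℝ) ≤ k := by exact_mod_cast hk
  have hs0 : (1 : ℝ) ≤ s := by exact_mod_cast hs
  let e : ∀ j, Fin s ≃ V j := fun j => ((V j).equivFinOfCardEq (hcardV j)).symm
  let x : Fin k × Fin s → ℤ := fun i => ((e i.1 i.2 : V i.1) : ℤ)
  have hxV : ∀ i, x i ∈ V i.1 := fun i => (e i.1 i.2).2
  have hxsurj : ∀ j, ∀ y ∈ V j, ∃ a, x (j, a) = y := by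
    intro j y hy
    refine ⟨(e j).symm ⟨y, hy⟩, ?_⟩
    simp [x]
  have hxinj : Function.Injective x := by
    rintro ⟨j, a⟩ ⟨j', a'⟩ hxx
    have hj : j = j' := by
      by_contra hne
      have h1 := hxV (j, a)
      have h2 := hxV (j', a')
      rw [← hxx] at h2
      exact Finset.disjoint_left.1 (hdisj j j' hne) h1 h2
    subst hj
    have h3 : e j a = e j a' := Subtype.ext hxx
    rw [(e j).injective h3]
  obtain ⟨B, hB⟩ : ∃ B : ℕ, B = D + ∑ i, (x i).natAbs := ⟨_, rfl⟩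
  have hxB : ∀ i, (x i).natAbs ≤ B := by
    intro i
    have h1 : (x i).natAbs ≤ ∑ i, (x i).natAbs := single_le_sum (f := fun i => (x i).natAbs)
      (fun _ _ => Nat.zero_le _) (mem_univ i)
    omega
  have hDB : D ≤ B := by omega
  let h : Fin k × Fin s → ℕ := fun i => (x i + B).toNat
  have hh : ∀ i, (h i : ℤ) = x i + B := by
    intro i
    refine Int.toNat_of_nonneg ?_
    have h1 := hxB i
    omega
  have hinj : Function.Injective h := by
    intro a b hab
    apply hxinj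
    have h1 := hh a
    have h2 := hh b
    rw [hab] at h1
    omega
  have hadm : ∀ p : ℕ, p.Prime → ∃ a : ℕ, ∀ i, ¬ p ∣ a + h i := by
    intro p hp
    obtain ⟨b, hb⟩ := hadmV p hp
    have hp0 : (0 : ℤ) < p := by exact_mod_cast hp.pos
    refine ⟨((b - B) % (p : ℤ)).toNat, fun i hdvd => ?_⟩
    apply hb i.1 (x i) (hxV i)
    have h1 : ((((b - B) % (p : ℤ)).toNat : ℕ) : ℤ) = (b - B) % (p : ℤ) :=
      Int.toNat_of_nonneg (Int.emod_nonneg _ hp0.ne')
    have h2 : (p : ℤ) ∣ ((((b - B) % (p : ℤ)).toNat + h i : ℕ) : ℤ) := by exact_mod_cast hdvd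
    rw [Nat.cast_add, h1, hh i] at h2
    have h3 : (p : ℤ) ∣ (b - B) - (b - B) % (p : ℤ) := Int.dvd_self_sub_emod
    have h4 := dvd_add h2 h3
    have h5 : (b - B) % (p : ℤ) + (x i + B) + ((b - B) - (b - B) % (p : ℤ)) = b + x i := by ring
    rw [h5] at h4
    exact h4
  obtain ⟨Q, b₀, hQ, hcop, hcomp⟩ := kill (Finset.range (2 * B + 1) \ univ.image h)
    (univ.image h) sdiff_disjoint
  have : Nonempty (Fin k × Fin s) := ⟨(⟨0, hk⟩, ⟨0, hs⟩)⟩
  obtain ⟨T', μ', hT', hμ', hsum', hlow, hup⟩ := sieve2 ε he0 he1 h hinj hadm (fun _ => tau)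
    (fun _ => l) (fun _ => ht0) (fun _ => ht1) (by
      rw [Finset.sum_const, Finset.card_univ, Fintype.card_prod, Fintype.card_fin,
        Fintype.card_fin, nsmul_eq_mul]
      push_cast
      exact ht2) Q b₀ hQ (fun i => hcop (h i) (mem_image_of_mem h (mem_univ i))) (max N0 Q)
  -- the number of primes in a block
  have hcnt : ∀ j (N' : ℕ),
      ((V j).filter (fun y : ℤ => (((N' + B : ℕ) : ℤ) + y).toNat.Prime)).card =
      (univ.filter (fun a : Fin s => (N' + h (j, a)).Prime)).card := by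
    intro j N'
    symm
    apply Finset.card_bij (fun a _ => x (j, a))
    · intro a ha
      rw [mem_filter] at ha ⊢
      refine ⟨hxV (j, a), ?_⟩
      have h1 : (((N' + B : ℕ) : ℤ) + x (j, a)).toNat = N' + h (j, a) := by
        have h2 := hh (j, a)
        push_cast
        omega
      rw [h1]
      exact ha.2
    · intro a _ a' _ haa
      exact (Prod.ext_iff.1 (hxinj haa)).2
    · intro y hy
      rw [mem_filter] at hy
      obtain ⟨a, rfl⟩ := hxsurj j y hy.1
      refine ⟨a, ?_, rfl⟩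
      rw [mem_filter]
      refine ⟨mem_univ _, ?_⟩
      have h1 : (((N' + B : ℕ) : ℤ) + x (j, a)).toNat = N' + h (j, a) := by
        have h2 := hh (j, a)
        push_cast
        omega
      rw [← h1]
      exact hy.2
  have hinjB : Set.InjOn (fun N : ℕ => N + B) (T' : Set ℕ) := fun a _ b _ hab => by
    simpa using hab
  have hsumT : ∀ f : ℕ → ℝ, ∑ N ∈ T'.image (fun N => N + B), μ' (N - B) * f N =
      ∑ N ∈ T', μ' N * f (N + B) := by
    intro f
    rw [sum_image hinjB]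
    refine sum_congr rfl fun N _ => ?_
    rw [Nat.add_sub_cancel]
  refine ⟨T'.image (fun N => N + B), fun N => μ' (N - B), ?_, fun N => hμ' _, ?_, ?_, ?_, ?_⟩
  · intro N hN
    obtain ⟨N', hN', rfl⟩ := mem_image.1 hN
    have h1 := (hT' N' hN').1
    have h2 := le_max_left N0 Q
    show N0 < N' + B
    omega
  · have h1 := hsumT (fun _ => 1)
    simp only [mul_one] at h1
    rw [h1, hsum']
  · intro N hN y hy hp
    obtain ⟨N', hN', rfl⟩ := mem_image.1 hN
    obtain ⟨hN1, hN2⟩ := hT' N' hN'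
    have hQN : Q < N' := lt_of_le_of_lt (le_max_right _ _) hN1
    have hy' := abs_le.1 hy
    have hg : (((N' + B : ℕ) : ℤ) + y).toNat = N' + (B + y).toNat := by
      push_cast
      omega
    rw [hg] at hp
    have hmem : (B + y).toNat ∈ univ.image h := by
      by_contra hcon
      refine hcomp N' hQN hN2 _ ?_ hp
      rw [mem_sdiff, mem_range]
      exact ⟨by omega, hcon⟩
    obtain ⟨i, -, hi⟩ := mem_image.1 hmem
    refine ⟨i.1, ?_⟩
    have h1 := hh i
    have h2 : x i = y := by omega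
    rw [← h2]
    exact hxV i
  · intro j
    rw [hsumT (fun N => (((V j).filter (fun x : ℤ => ((N : ℤ) + x).toNat.Prime)).card : ℝ))]
    have h1 : ∀ N ∈ T', μ' N * (((V j).filter (fun y : ℤ =>
        (((N + B : ℕ) : ℤ) + y).toNat.Prime)).card : ℝ) =
        μ' N * (((univ.filter (fun a : Fin s => (N + h (j, a)).Prime)).card : ℕ) : ℝ) := by
      intro N _
      rw [hcnt]
    rw [sum_congr rfl h1, bs_first T' μ' (fun a N => (N + h (j, a)).Prime)]
    have h2 : ∑ _a : Fin s, (1 - 50 * ε) * (mu / s) ≤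
        ∑ a, ∑ N ∈ T'.filter (fun N => (N + h (j, a)).Prime), μ' N := by
      refine sum_le_sum fun a _ => ?_
      rw [← ht3]
      exact hlow (j, a)
    refine le_trans ?_ h2
    rw [sum_const, card_univ, Fintype.card_fin, nsmul_eq_mul]
    have h3 : (s : ℝ) * ((1 - 50 * ε) * (mu / s)) = (1 - 50 * ε) * mu := by
      field_simp
    rw [h3]
    exact mul_le_mul_of_nonneg_right (by linarith) hmu.le
  · intro j
    rw [hsumT (fun N =>
      ((((V j).filter (fun x : ℤ => ((N : ℤ) + x).toNat.Prime)).card.choose 2 : ℕ) : ℝ))]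
    have h1 : ∀ N ∈ T', μ' N * ((((V j).filter (fun y : ℤ =>
        (((N + B : ℕ) : ℤ) + y).toNat.Prime)).card.choose 2 : ℕ) : ℝ) =
        μ' N * (((univ.filter (fun a : Fin s => (N + h (j, a)).Prime)).card.choose 2 : ℕ) : ℝ) := by
      intro N _
      rw [hcnt]
    rw [sum_congr rfl h1, bs_second T' μ' (fun a N => (N + h (j, a)).Prime)]
    have h2 : ∀ S ∈ powersetCard 2 (univ : Finset (Fin s)),
        ∑ N ∈ T'.filter (fun N => ∀ a ∈ S, (N + h (j, a)).Prime), μ' N ≤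
          4 * (1 + 50 * ε) ^ 2 * (mu / s) ^ 2 := by
      intro S hS
      obtain ⟨a, a', haa, rfl⟩ := card_eq_two.1 (mem_powersetCard.1 hS).2
      have hne : (j, a) ∉ ({(j, a')} : Finset (Fin k × Fin s)) := by
        rw [mem_singleton]
        exact fun he => haa (Prod.ext_iff.1 he).2
      have h3 := hup (j, a) {(j, a')} hne
      rw [card_singleton, prod_const, card_insert_of_notMem hne, card_singleton, ht3] at h3
      refine le_trans (le_of_eq ?_) (h3.trans (le_of_eq ?_))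
      · congr 1
        apply filter_congr
        intro N _
        constructor
        · intro hN i hi
          rw [mem_insert, mem_singleton] at hi
          rcases hi with rfl | rfl
          · exact hN a (by simp)
          · exact hN a' (by simp)
        · intro hN b hb
          rw [mem_insert, mem_singleton] at hb
          rcases hb with rfl | rfl
          · exact hN (j, b) (by simp)
          · exact hN (j, b) (by simp)
      · push_cast
        ring
    refine le_trans (sum_le_sum (g := fun _ => 4 * (1 + 50 * ε) ^ 2 * (mu / s) ^ 2)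
      fun S hS => ?_) ?_
    · refine le_trans (le_of_eq ?_) (h2 S hS)
      refine Finset.sum_congr ?_ fun _ _ => rfl
      ext N
      simp only [mem_filter]
    rw [sum_const, card_powersetCard, card_univ, Fintype.card_fin, nsmul_eq_mul]
    have h3 : ((s.choose 2 : ℕ) : ℝ) ≤ (s : ℝ) ^ 2 / 2 := by
      have h4 := Nat.choose_le_pow_div (α := ℝ) 2 s
      simpa using h4
    have h5 : ((s.choose 2 : ℕ) : ℝ) * (4 * (1 + 50 * ε) ^ 2 * (mu / s) ^ 2) ≤
        (s : ℝ) ^ 2 / 2 * (4 * (1 + 50 * ε) ^ 2 * (mu / s) ^ 2) :=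
      mul_le_mul_of_nonneg_right h3 (by positivity)
    refine h5.trans ?_
    have h6 : (s : ℝ) ^ 2 / 2 * (4 * (1 + 50 * ε) ^ 2 * (mu / s) ^ 2) =
        2 * (1 + 50 * ε) ^ 2 * mu ^ 2 := by
      field_simp
      ring
    rw [h6]
    have h7 : 0 < mu ^ 2 := by positivity
    nlinarith

end Pool.Agent.H21.QT
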