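import Mathlib

/-!
[H21 QT WN]  Windows with distinct labels.

Proof.  Induction on `|S|`.  If `|S| < m` the left side is `≤ 0`.  Otherwise let `B` be the set of the `m` smallest elements of `S`
(e.g. `B = S.filter (fun x => (S.filter (fun y => y < x)).card < m)`, or take it from `Finset.orderEmbOfFin`); it is a window, so
`f` is not injective on `B`: it contains a pair with equal labels.  `S' = S \ B` has `|S| - m` elements, all larger than those of
`B`, so windows of `S'` are windows of `S`, and the pairs with equal labels of `S'` do not contain the pair in `B`.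
-/

namespace Pool.Agent.H21.QT

open Finset

/-- the `m` smallest elements -/
theorem wn_small (S : Finset ℤ) (m : ℕ) (h : m ≤ S.card) :
    ∃ B ⊆ S, B.card = m ∧ ∀ b ∈ B, ∀ x ∈ S, x ∉ B → b < x := by
  induction m with
  | zero => exact ⟨∅, Finset.empty_subset _, rfl, fun b hb => absurd hb (Finset.notMem_empty b)⟩
  | succ m ih =>
    obtain ⟨B, hBS, hBc, hB⟩ := ih (by omega)
    have hne : (S \ B).Nonempty := by
      rw [← Finset.card_pos, Finset.card_sdiff_of_subset hBS]
      omega
    have hmem := Finset.min'_mem _ hne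
    rw [Finset.mem_sdiff] at hmem
    refine ⟨insert ((S \ B).min' hne) B, Finset.insert_subset hmem.1 hBS, ?_, ?_⟩
    · rw [Finset.card_insert_of_notMem hmem.2, hBc]
    · intro b hb x hx hxB
      rw [Finset.mem_insert, not_or] at hxB
      rcases Finset.mem_insert.1 hb with h1 | h1
      · rw [h1]
        exact lt_of_le_of_ne (Finset.min'_le _ _ (Finset.mem_sdiff.2 ⟨hx, hxB.2⟩)) (Ne.symm hxB.1)
      · exact hB b h1 x hx hxB.2

open Classical in
theorem win_labels {ι : Type} (f : ℤ → ι) (m : ℕ) (hm : 1 ≤ m) (S : Finset ℤ)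
    (h : ∀ B ⊆ S, B.card = m →
      (∀ x ∈ S, ∀ a ∈ B, ∀ b ∈ B, a ≤ x → x ≤ b → x ∈ B) → ¬ Set.InjOn f (B : Set ℤ)) :
    (S.card : ℝ) - m + 1 ≤ m *
      (((powersetCard 2 S).filter (fun B => ∃ x ∈ B, ∃ y ∈ B, x ≠ y ∧ f x = f y)).card : ℝ) := by
  obtain ⟨n, hn⟩ : ∃ n, n = S.card := ⟨_, rfl⟩
  induction n using Nat.strong_induction_on generalizing S with
  | _ n ih =>
    rcases Nat.lt_or_ge S.card m with h1 | h1
    · have h2 : (S.card : ℝ) + 1 ≤ m := by exact_mod_cast h1
      have h3 : (0 : ℝ) ≤ m *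
        (((powersetCard 2 S).filter (fun B => ∃ x ∈ B, ∃ y ∈ B, x ≠ y ∧ f x = f y)).card : ℝ) := by
        positivity
      linarith
    · obtain ⟨B, hBS, hBc, hB⟩ := wn_small S m h1
      have hwin : ∀ x ∈ S, ∀ a ∈ B, ∀ b ∈ B, a ≤ x → x ≤ b → x ∈ B := by
        intro x hx a _ b hb _ hxb
        by_contra hxB
        exact absurd (hB b hb x hx hxB) (not_lt.2 hxb)
      have hinj := h B hBS hBc hwin
      obtain ⟨a, ha, b, hb, hab, hne⟩ : ∃ a ∈ B, ∃ b ∈ B, f a = f b ∧ a ≠ b := by
        by_contra hcon
        push Not at hcon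
        exact hinj fun a ha b hb hab => hcon a ha b hb hab
      have hcard : (S \ B).card + m = S.card := by
        rw [Finset.card_sdiff_of_subset hBS, hBc]
        omega
      have hIH := ih (S \ B).card (by omega) (S \ B) (by
        intro B' hB' hB'c hw
        refine h B' (hB'.trans Finset.sdiff_subset) hB'c ?_
        intro x hx u hu v hv hux hxv
        refine hw x ?_ u hu v hv hux hxv
        rw [Finset.mem_sdiff]
        refine ⟨hx, fun hxB => ?_⟩
        have h3 := Finset.mem_sdiff.1 (hB' hu)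
        exact absurd (hB x hxB u h3.1 h3.2) (not_lt.2 hux)) rfl
      have hsub : insert ({a, b} : Finset ℤ) ((powersetCard 2 (S \ B)).filter
          (fun B => ∃ x ∈ B, ∃ y ∈ B, x ≠ y ∧ f x = f y)) ⊆
          (powersetCard 2 S).filter (fun B => ∃ x ∈ B, ∃ y ∈ B, x ≠ y ∧ f x = f y) := by
        intro C hC
        rcases Finset.mem_insert.1 hC with h2 | h2
        · rw [h2, Finset.mem_filter, Finset.mem_powersetCard]
          refine ⟨⟨?_, Finset.card_pair hne⟩, a, Finset.mem_insert_self _ _, b,
            Finset.mem_insert_of_mem (Finset.mem_singleton_self _), hne, hab⟩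
          intro z hz
          rcases Finset.mem_insert.1 hz with h3 | h3
          · rw [h3]; exact hBS ha
          · rw [Finset.mem_singleton.1 h3]; exact hBS hb
        · rw [Finset.mem_filter, Finset.mem_powersetCard] at h2 ⊢
          exact ⟨⟨h2.1.1.trans Finset.sdiff_subset, h2.1.2⟩, h2.2⟩
      have hnot : ({a, b} : Finset ℤ) ∉ (powersetCard 2 (S \ B)).filter
          (fun B => ∃ x ∈ B, ∃ y ∈ B, x ≠ y ∧ f x = f y) := by
        intro hC
        rw [Finset.mem_filter, Finset.mem_powersetCard] at hC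
        have h3 := hC.1.1 (Finset.mem_insert_self a _)
        exact (Finset.mem_sdiff.1 h3).2 ha
      have hc := Finset.card_le_card hsub
      rw [Finset.card_insert_of_notMem hnot] at hc
      have hc' : ((((powersetCard 2 (S \ B)).filter
          (fun B => ∃ x ∈ B, ∃ y ∈ B, x ≠ y ∧ f x = f y)).card : ℝ)) + 1 ≤
          (((powersetCard 2 S).filter (fun B => ∃ x ∈ B, ∃ y ∈ B, x ≠ y ∧ f x = f y)).card : ℝ) := by
        exact_mod_cast hc
      have hcard' : ((S \ B).card : ℝ) + m = S.card := by exact_mod_cast hcard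
      have hm0 : (0 : ℝ) ≤ m := Nat.cast_nonneg m
      have h5 := mul_le_mul_of_nonneg_left hc' hm0
      linarith

end Pool.Agent.H21.QT
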