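import Pool.Agent.H21.QT.Hb
import Pool.Agent.H21.QT.Bs
import Pool.Agent.H21.QT.Wn

/-!
[H21 QT CM]  Among almost all `8m^2` admissible numbers there are `m` which are translates of consecutive primes.

Proof.  `blk_small k (1/(4m)) (1/(6m))` gives `s`; `hom_box k s 1` with `κ = Unit` (or `Fin 1`) and
`Bad a = ∀ E, (E.image a).card = m → ¬ ConsP (E.image a)`.  Let `V` be a box of bad tuples, disjoint blocks, `AdB V`.
If `B ⊆ ⋃ V j` has `m` elements in different blocks then `B = E.image a` for some `a ∈ piFinset V` and `E` (the blocks of its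
elements; the blocks are not empty), so the set in `ConsP B` is finite.  Let `N0` be larger than all elements of all these finite sets and
`D = ∑_j ∑_{x ∈ V j} |x|`; `blk_small` gives `T`, `μ`.  For `N ∈ T` let `S N` be the set of the `x ∈ ⋃ V j` with `N + x` prime, `f x` = the block of
`x`, `X_j N = |S N ∩ V j|`.  If some `B ⊆ S N`, `|B| = m`, is a window of `S N` with distinct labels, then `N` is in the set of
`ConsP B` (for `z` between two elements of `B`: if `N + z` is prime then `|z| ≤ D`, so `z` is in a block, `z ∈ S N`, so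
`z ∈ B`), contradiction to `N > N0`.  So `win_labels` gives `|S N| - m + 1 ≤ m ∑_j C(X_j N, 2)` (pairs with equal labels = pairs in one
block) for all `N ∈ T`.  Integrate: `k (1 - 1/(6m))/(4m) - m + 1 ≤ m k 2 (1 + 1/(6m))/(16 m^2) = k (1 + 1/(6m))/(8m)`, so
`k (1 - 3/(6m))/(8m) ≤ m - 1`, and with `k ≥ 8 m^2`: `m - 1/2 ≤ m - 1`, contradiction.
-/

namespace Pool.Agent.H21.QT

open Finset

/-- infinitely often the primes in the range of `N + B` are exactly the elements of `N + B` -/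
def ConsP (B : Finset ℤ) : Prop :=
  {N : ℕ | ∀ z : ℤ, (∃ a ∈ B, ∃ b ∈ B, a ≤ z ∧ z ≤ b) →
    (((N : ℤ) + z).toNat.Prime ↔ z ∈ B)}.Infinite

open Classical in
/-- the label of a number: the set of its blocks -/
noncomputable def cmLab {k : ℕ} (V : Fin k → Finset ℤ) (x : ℤ) : Finset (Fin k) :=
  univ.filter fun j => x ∈ V j

open Classical in
theorem cm_lab {k : ℕ} {V : Fin k → Finset ℤ} (hdisj : ∀ j j', j ≠ j' → Disjoint (V j) (V j'))
    {x : ℤ} {j : Fin k} (hx : x ∈ V j) : cmLab V x = {j} := by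
  unfold cmLab
  ext j'
  rw [mem_filter, mem_singleton]
  constructor
  · rintro ⟨_, h⟩
    by_contra hne
    exact disjoint_left.1 (hdisj j' j hne) h hx
  · rintro rfl
    exact ⟨mem_univ _, hx⟩

open Classical in
theorem cm_tuple {k : ℕ} {V : Fin k → Finset ℤ} (hdisj : ∀ j j', j ≠ j' → Disjoint (V j) (V j'))
    (hne : ∀ j, (V j).Nonempty) (B : Finset ℤ) (hB : B ⊆ univ.biUnion V)
    (hinj : Set.InjOn (cmLab V) (B : Set ℤ)) :
    ∃ a ∈ Fintype.piFinset V, ∃ E : Finset (Fin k), E.image a = B := by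
  have h1 : ∀ j, ∃ x, x ∈ V j ∧ ((∃ y ∈ B, y ∈ V j) → x ∈ B) := by
    intro j
    by_cases h : ∃ y ∈ B, y ∈ V j
    · obtain ⟨y, hy1, hy2⟩ := h
      exact ⟨y, hy2, fun _ => hy1⟩
    · obtain ⟨y, hy⟩ := hne j
      exact ⟨y, hy, fun h' => absurd h' h⟩
  choose a ha1 ha2 using h1
  refine ⟨a, Fintype.mem_piFinset.2 ha1, univ.filter (fun j => ∃ y ∈ B, y ∈ V j), ?_⟩
  ext x
  rw [mem_image]
  constructor
  · rintro ⟨j, hj, rfl⟩
    exact ha2 j (mem_filter.1 hj).2
  · intro hx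
    obtain ⟨j, _, hj⟩ := mem_biUnion.1 (hB hx)
    have h3 : ∃ y ∈ B, y ∈ V j := ⟨x, hx, hj⟩
    refine ⟨j, mem_filter.2 ⟨mem_univ _, h3⟩, ?_⟩
    apply hinj (mem_coe.2 (ha2 j h3)) (mem_coe.2 hx)
    rw [cm_lab hdisj (ha1 j), cm_lab hdisj hj]

theorem cm_card {k : ℕ} {V : Fin k → Finset ℤ} (hdisj : ∀ j j', j ≠ j' → Disjoint (V j) (V j'))
    (P : ℤ → Prop) [DecidablePred P] :
    ((univ.biUnion V).filter P).card = ∑ j, ((V j).filter P).card := by
  rw [filter_biUnion, card_biUnion]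
  intro j _ j' _ hne
  exact disjoint_filter_filter (hdisj j j' hne)

theorem cm_pairs {k : ℕ} {V : Fin k → Finset ℤ} (hdisj : ∀ j j', j ≠ j' → Disjoint (V j) (V j'))
    (P : ℤ → Prop) [DecidablePred P] (F : Finset (Finset ℤ))
    (hF : ∀ B ∈ F, B ∈ powersetCard 2 ((univ.biUnion V).filter P) ∧
      ∃ x ∈ B, ∃ y ∈ B, x ≠ y ∧ cmLab V x = cmLab V y) :
    F.card ≤ ∑ j, ((V j).filter P).card.choose 2 := by
  have h1 : F ⊆ univ.biUnion (fun j => powersetCard 2 ((V j).filter P)) := by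
    intro B hB
    obtain ⟨hB0, x, hx, y, hy, hxy, hlab⟩ := hF B hB
    obtain ⟨hB1, hB2⟩ := mem_powersetCard.1 hB0
    have hx' := mem_filter.1 (hB1 hx)
    have hy' := mem_filter.1 (hB1 hy)
    obtain ⟨j, _, hj⟩ := mem_biUnion.1 hx'.1
    obtain ⟨j', _, hj'⟩ := mem_biUnion.1 hy'.1
    rw [cm_lab hdisj hj, cm_lab hdisj hj', singleton_inj] at hlab
    subst hlab
    have hBxy : B = {x, y} := by
      symm
      apply eq_of_subset_of_card_le
      · intro z hz
        rw [mem_insert, mem_singleton] at hz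
        rcases hz with rfl | rfl
        · exact hx
        · exact hy
      · rw [hB2, card_pair hxy]
    rw [mem_biUnion]
    refine ⟨j, mem_univ _, ?_⟩
    rw [mem_powersetCard]
    refine ⟨?_, hB2⟩
    intro z hz
    rw [hBxy, mem_insert, mem_singleton] at hz
    rcases hz with rfl | rfl
    · exact mem_filter.2 ⟨hj, hx'.2⟩
    · exact mem_filter.2 ⟨hj', hy'.2⟩
  refine (card_le_card h1).trans (card_biUnion_le.trans (le_of_eq ?_))
  exact sum_congr rfl fun j _ => card_powersetCard 2 _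

open Classical in
theorem cons_m (m k : ℕ) (hm : 2 ≤ m) (hk : 8 * m ^ 2 ≤ k) :
    ∃ δ C : ℝ, 0 < δ ∧ δ ≤ 1 ∧ 0 ≤ C ∧
    ∀ (n : ℕ) (A : Fin k → Finset ℤ), 1 ≤ n → (∀ j, (A j).card ≤ n) →
      (((Fintype.piFinset A).filter (fun a => AdT a ∧
        ∀ E : Finset (Fin k), (E.image a).card = m → ¬ ConsP (E.image a))).card : ℝ) ≤
        C * (n : ℝ) ^ ((k : ℝ) - δ) := by
  have hm0 : (2 : ℝ) ≤ m := by exact_mod_cast hm
  have hkm : (8 : ℝ) * m ^ 2 ≤ k := by exact_mod_cast hk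
  have hk1 : 1 ≤ k := by
    have : 1 ≤ m ^ 2 := Nat.one_le_pow _ _ (by omega)
    omega
  obtain ⟨s, hs, hblk⟩ := blk_small k hk1 (1 / (4 * m)) (by positivity) (1 / (6 * m))
    (by positivity)
  obtain ⟨δ, C, hδ, hδ1, hC, hbox⟩ := hom_box k s 1 hk1 hs
  refine ⟨δ, C, hδ, hδ1, hC, fun n A hn hA => ?_⟩
  suffices hno : ∀ V : Fin k → Finset ℤ, (∀ j j', j ≠ j' → Disjoint (V j) (V j')) →
      (∀ j, (V j).card = s) → AdB V → (∀ a ∈ Fintype.piFinset V,
        ∀ E : Finset (Fin k), (E.image a).card = m → ¬ ConsP (E.image a)) → False by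
    have hb := hbox Unit inferInstance (by simp) (fun _ => ())
      (fun a => ∀ E : Finset (Fin k), (E.image a).card = m → ¬ ConsP (E.image a))
      (fun V h1 h2 h3 h4 _ => hno V h1 h2 h3 h4) n A hn hA
    refine le_trans (le_of_eq ?_) hb
    congr 2
    ext a
    simp only [mem_filter]
  intro V hdisj hcard hadm hbad
  have hne : ∀ j, (V j).Nonempty := by
    intro j
    rw [← card_pos, hcard]
    omega
  -- the last `N`
  have hlast : ∀ B : Finset ℤ, ∃ n : ℕ, ¬ ConsP B → ∀ N : ℕ,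
      (∀ z : ℤ, (∃ a ∈ B, ∃ b ∈ B, a ≤ z ∧ z ≤ b) → (((N : ℤ) + z).toNat.Prime ↔ z ∈ B)) →
      N ≤ n := by
    intro B
    by_cases hB : ConsP B
    · exact ⟨0, fun h => absurd hB h⟩
    · obtain ⟨n, hn⟩ := (Set.not_infinite.1 hB).bddAbove
      exact ⟨n, fun _ N hN => hn hN⟩
  choose nn hnn using hlast
  obtain ⟨T, μ, hT, hμ, hsum, hex, hlow, hup⟩ := hblk V hdisj hcard hadm
    (∑ x ∈ univ.biUnion V, x.natAbs) (∑ B ∈ powersetCard m (univ.biUnion V), nn B)
  have hD : ∀ x ∈ univ.biUnion V, |x| ≤ ((∑ x ∈ univ.biUnion V, x.natAbs : ℕ) : ℤ) := by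
    intro x hx
    have h1 : x.natAbs ≤ ∑ x ∈ univ.biUnion V, x.natAbs :=
      single_le_sum (f := fun x : ℤ => x.natAbs) (fun _ _ => Nat.zero_le _) hx
    rw [Int.abs_eq_natAbs]
    exact_mod_cast h1
  -- the inequality for every `N`
  have key : ∀ N ∈ T, (∑ j, (((V j).filter (fun x : ℤ => ((N : ℤ) + x).toNat.Prime)).card : ℝ)) -
      m + 1 ≤ m * ∑ j, ((((V j).filter
        (fun x : ℤ => ((N : ℤ) + x).toNat.Prime)).card.choose 2 : ℕ) : ℝ) := by
    intro N hN
    have hw := win_labels (cmLab V) m (by omega)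
      ((univ.biUnion V).filter (fun x : ℤ => ((N : ℤ) + x).toNat.Prime)) (by
        intro B hB hBm hwin hinj
        have hBU : B ⊆ univ.biUnion V := hB.trans (filter_subset _ _)
        obtain ⟨a, ha, E, hE⟩ := cm_tuple hdisj hne B hBU hinj
        have hnc : ¬ ConsP B := by
          rw [← hE]
          exact hbad a ha E (by rw [hE]; exact hBm)
        have h1 := hnn B hnc N (by
          rintro z ⟨b1, hb1, b2, hb2, hz1, hz2⟩
          constructor
          · intro hp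
            have hzD : |z| ≤ ((∑ x ∈ univ.biUnion V, x.natAbs : ℕ) : ℤ) := by
              have e1 := abs_le.1 (hD b1 (hBU hb1))
              have e2 := abs_le.1 (hD b2 (hBU hb2))
              rw [abs_le]
              constructor <;> omega
            obtain ⟨j, hj⟩ := hex N hN z hzD hp
            exact hwin z (mem_filter.2 ⟨mem_biUnion.2 ⟨j, mem_univ _, hj⟩, hp⟩) b1 hb1 b2 hb2
              hz1 hz2
          · intro hz
            exact (mem_filter.1 (hB hz)).2)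
        have h2 : nn B ≤ ∑ B ∈ powersetCard m (univ.biUnion V), nn B :=
          single_le_sum (f := nn) (fun _ _ => Nat.zero_le _)
            (mem_powersetCard.2 ⟨hBU, hBm⟩)
        have h3 := hT N hN
        omega)
    rw [cm_card hdisj] at hw
    push_cast at hw
    refine hw.trans ?_
    apply mul_le_mul_of_nonneg_left _ (by linarith)
    rw [← Nat.cast_sum, Nat.cast_le]
    apply cm_pairs hdisj (fun x : ℤ => ((N : ℤ) + x).toNat.Prime)
    intro B hB
    simp only [mem_filter] at hB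
    exact hB
  -- integrate
  have hint : ∑ N ∈ T, μ N *
      ((∑ j, (((V j).filter (fun x : ℤ => ((N : ℤ) + x).toNat.Prime)).card : ℝ)) - m + 1) ≤
      ∑ N ∈ T, μ N * (m * ∑ j, ((((V j).filter
        (fun x : ℤ => ((N : ℤ) + x).toNat.Prime)).card.choose 2 : ℕ) : ℝ)) :=
    sum_le_sum fun N hN => mul_le_mul_of_nonneg_left (key N hN) (hμ N)
  have hL : ∑ N ∈ T, μ N *
      ((∑ j, (((V j).filter (fun x : ℤ => ((N : ℤ) + x).toNat.Prime)).card : ℝ)) - m + 1) =
      (∑ j, ∑ N ∈ T, μ N *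
        (((V j).filter (fun x : ℤ => ((N : ℤ) + x).toNat.Prime)).card : ℝ)) - (m - 1) := by
    rw [sum_comm]
    have e1 : ∀ N ∈ T, μ N *
        ((∑ j, (((V j).filter (fun x : ℤ => ((N : ℤ) + x).toNat.Prime)).card : ℝ)) - m + 1) =
        ∑ j, μ N * (((V j).filter (fun x : ℤ => ((N : ℤ) + x).toNat.Prime)).card : ℝ) -
          μ N * (m - 1) := by
      intro N _
      rw [← mul_sum]
      ring
    rw [sum_congr rfl e1, sum_sub_distrib, ← sum_mul, hsum, one_mul]
  have hR : ∑ N ∈ T, μ N * (m * ∑ j, ((((V j).filter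
        (fun x : ℤ => ((N : ℤ) + x).toNat.Prime)).card.choose 2 : ℕ) : ℝ)) =
      m * ∑ j, ∑ N ∈ T, μ N * ((((V j).filter
        (fun x : ℤ => ((N : ℤ) + x).toNat.Prime)).card.choose 2 : ℕ) : ℝ) := by
    rw [sum_comm, mul_sum]
    refine sum_congr rfl fun N _ => ?_
    rw [← mul_sum]
    ring
  rw [hL, hR] at hint
  have h5 : ∑ _j : Fin k, (1 - 1 / (6 * (m : ℝ))) * (1 / (4 * m)) ≤ ∑ j, ∑ N ∈ T, μ N *
        (((V j).filter (fun x : ℤ => ((N : ℤ) + x).toNat.Prime)).card : ℝ) :=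
    sum_le_sum fun j _ => hlow j
  have h6 : ∑ j, ∑ N ∈ T, μ N * ((((V j).filter
        (fun x : ℤ => ((N : ℤ) + x).toNat.Prime)).card.choose 2 : ℕ) : ℝ) ≤
      ∑ _j : Fin k, 2 * (1 + 1 / (6 * (m : ℝ))) * (1 / (4 * m)) ^ 2 :=
    sum_le_sum fun j _ => hup j
  rw [sum_const, card_univ, Fintype.card_fin, nsmul_eq_mul] at h5 h6
  have hm' : (0 : ℝ) < m := by linarith
  have h7 : (m : ℝ) * ∑ j, ∑ N ∈ T, μ N * ((((V j).filter
        (fun x : ℤ => ((N : ℤ) + x).toNat.Prime)).card.choose 2 : ℕ) : ℝ) ≤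
      m * (k * (2 * (1 + 1 / (6 * (m : ℝ))) * (1 / (4 * m)) ^ 2)) :=
    mul_le_mul_of_nonneg_left h6 hm'.le
  have h8 : (k : ℝ) * ((1 - 1 / (6 * (m : ℝ))) * (1 / (4 * m))) - (m - 1) ≤
      m * (k * (2 * (1 + 1 / (6 * (m : ℝ))) * (1 / (4 * m)) ^ 2)) := by
    linarith
  have h9 : (k : ℝ) * ((1 - 1 / (6 * (m : ℝ))) * (1 / (4 * m))) -
      m * (k * (2 * (1 + 1 / (6 * (m : ℝ))) * (1 / (4 * m)) ^ 2)) =
      k * ((2 * m - 1) / (16 * m ^ 2)) := by
    field_simp
    ring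
  have h10 : (8 : ℝ) * m ^ 2 * ((2 * m - 1) / (16 * m ^ 2)) ≤ k * ((2 * m - 1) / (16 * m ^ 2)) :=
    mul_le_mul_of_nonneg_right hkm (div_nonneg (by linarith) (by positivity))
  have h11 : (8 : ℝ) * m ^ 2 * ((2 * m - 1) / (16 * m ^ 2)) = m - 1 / 2 := by
    field_simp
    ring
  linarith

end Pool.Agent.H21.QT
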