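import Pool.Agent.H21.QT.Df
import Pool.Agent.H74.BT.Box

/-!
Homogeneous boxes: a generic form of the argument of `Pool/Agent/H74/BT/Lin.lean`.
-/

namespace Pool.Agent.H21.QT

open Finset

theorem noninj {k n : ℕ} (A : Fin k → Finset ℤ)
    (hA : ∀ j, (A j).card ≤ n) [DecidablePred fun a : Fin k → ℤ => ¬ Function.Injective a] :
    ((Fintype.piFinset A).filter (fun a => ¬ Function.Injective a)).card ≤
      k ^ 2 * n ^ (k - 1) := by
  classical
  have hsub : (Fintype.piFinset A).filter (fun a => ¬ Function.Injective a) ⊆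
      (Finset.univ : Finset (Fin k × Fin k)).biUnion (fun p =>
        (Fintype.piFinset A).filter (fun a => p.1 ≠ p.2 ∧ a p.1 = a p.2)) := by
    intro a ha
    rw [Finset.mem_filter] at ha
    obtain ⟨ha1, ha2⟩ := ha
    unfold Function.Injective at ha2
    push Not at ha2
    obtain ⟨j, j', h1, h2⟩ := ha2
    exact Finset.mem_biUnion.mpr ⟨(j, j'), Finset.mem_univ _,
      Finset.mem_filter.mpr ⟨ha1, h2, h1⟩⟩
  refine (Finset.card_le_card hsub).trans ?_
  refine (Finset.card_biUnion_le_card_mul _ _ (n ^ (k - 1)) ?_).trans (le_of_eq ?_)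
  · rintro ⟨j, j'⟩ _
    by_cases hjj : j = j'
    · rw [Finset.filter_false_of_mem]
      · simp
      · intro a _ h
        exact h.1 hjj
    · have hmap : ((Fintype.piFinset A).filter (fun a => j ≠ j' ∧ a j = a j')).card ≤
          (Fintype.piFinset (Function.update A j {0})).card := by
        apply Finset.card_le_card_of_injOn (fun a => Function.update a j 0)
        · intro a ha
          have ha := (Finset.mem_filter.mp (Finset.mem_coe.mp ha)).1
          apply Finset.mem_coe.mpr
          rw [Fintype.mem_piFinset] at ha ⊢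
          intro i
          show Function.update a j 0 i ∈ Function.update A j {0} i
          by_cases h : i = j
          · subst h
            rw [Function.update_self, Function.update_self]
            exact Finset.mem_singleton_self _
          · rw [Function.update_of_ne h, Function.update_of_ne h]
            exact ha i
        · intro a ha b hb hab
          have ha := (Finset.mem_filter.mp (Finset.mem_coe.mp ha)).2.2
          have hb := (Finset.mem_filter.mp (Finset.mem_coe.mp hb)).2.2
          have hne : ∀ i, i ≠ j → a i = b i := by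
            intro i hi
            have h1 := congrFun hab i
            simp only at h1
            rwa [Function.update_of_ne hi, Function.update_of_ne hi] at h1
          funext i
          by_cases h : i = j
          · subst h
            have hj' : j' ≠ i := fun h => hjj h.symm
            rw [ha, hb]
            exact hne j' hj'
          · exact hne i h
      refine hmap.trans ?_
      rw [Fintype.card_piFinset, ← Finset.mul_prod_erase _ _ (Finset.mem_univ j),
        Function.update_self, Finset.card_singleton, one_mul]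
      calc ∏ x ∈ Finset.univ.erase j, (Function.update A j {0} x).card
          ≤ ∏ x ∈ Finset.univ.erase j, n := by
            apply Finset.prod_le_prod
            · intro i _
              exact Nat.zero_le _
            · intro i hi
              rw [Function.update_of_ne (Finset.ne_of_mem_erase hi)]
              exact hA i
        _ = n ^ (k - 1) := by
            rw [Finset.prod_const, Finset.card_erase_of_mem (Finset.mem_univ _), Finset.card_univ,
              Fintype.card_fin]
  · rw [Finset.card_univ, Fintype.card_prod, Fintype.card_fin]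
    ring

/-- a homogeneous box of bad tuples gives admissible blocks -/
private theorem core {k s W : ℕ} (hs : 1 ≤ s) (hW : ∀ p : ℕ, p.Prime → p ≤ k * s → p ∣ W)
    (V : Fin k → Finset ℤ) (hVc : ∀ j, (V j).card = s)
    (hinj : ∀ a ∈ Fintype.piFinset V, Function.Injective a)
    (hadm : ∀ a ∈ Fintype.piFinset V, AdT a)
    (hmod : ∀ a ∈ Fintype.piFinset V, ∀ a' ∈ Fintype.piFinset V, ∀ j,
      ((a j : ℤ) : ZMod W) = ((a' j : ℤ) : ZMod W)) :
    (∀ j j', j ≠ j' → Disjoint (V j) (V j')) ∧ AdB V := by
  classical
  have hne : ∀ j, ∃ x, x ∈ V j := by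
    intro j
    have : 0 < (V j).card := by rw [hVc]; omega
    exact Finset.card_pos.mp this
  choose a₀ ha₀ using hne
  have ha₀' : a₀ ∈ Fintype.piFinset V := Fintype.mem_piFinset.mpr ha₀
  have hup : ∀ (a : Fin k → ℤ), a ∈ Fintype.piFinset V → ∀ j, ∀ x ∈ V j,
      Function.update a j x ∈ Fintype.piFinset V := by
    intro a ha j x hx
    rw [Fintype.mem_piFinset] at ha ⊢
    intro i
    by_cases h : i = j
    · subst h
      rw [Function.update_self]
      exact hx
    · rw [Function.update_of_ne h]
      exact ha i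
  refine ⟨?_, ?_⟩
  · intro j j' hjj
    rw [Finset.disjoint_left]
    intro x hx hx'
    have h1 := hup _ (hup a₀ ha₀' j x hx) j' x hx'
    have h2 := hinj _ h1
    apply hjj
    apply h2
    rw [Function.update_self, Function.update_of_ne hjj, Function.update_self]
  · intro p hp
    by_cases hpk : p ≤ k * s
    · obtain ⟨b, hb⟩ := hadm a₀ ha₀' p hp
      refine ⟨b, fun j x hx hdvd => hb j ?_⟩
      have h1 := hmod _ (hup a₀ ha₀' j x hx) _ ha₀' j
      rw [Function.update_self] at h1
      have h2 : (W : ℤ) ∣ a₀ j - x := (ZMod.intCast_eq_intCast_iff_dvd_sub _ _ _).mp h1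
      have h3 : (p : ℤ) ∣ a₀ j - x := (Int.natCast_dvd_natCast.mpr (hW p hp hpk)).trans h2
      have h4 : b + a₀ j = (b + x) + (a₀ j - x) := by ring
      rw [h4]
      exact dvd_add hdvd h3
    · push Not at hpk
      have : NeZero p := ⟨hp.pos.ne'⟩
      set U : Finset (ZMod p) :=
        ((Finset.univ : Finset (Fin k)).biUnion V).image (fun x : ℤ => (x : ZMod p)) with hU
      have hUc : U.card < Fintype.card (ZMod p) := by
        rw [ZMod.card]
        refine lt_of_le_of_lt ?_ hpk
        refine Finset.card_image_le.trans ?_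
        refine Finset.card_biUnion_le.trans ?_
        rw [Finset.sum_congr rfl (fun j _ => hVc j)]
        simp
      obtain ⟨y, hy⟩ : ∃ y, y ∉ U := by
        by_contra h
        push Not at h
        have : U = Finset.univ := Finset.eq_univ_iff_forall.mpr h
        rw [this, Finset.card_univ] at hUc
        exact lt_irrefl _ hUc
      refine ⟨-(y.val : ℤ), fun j x hx hdvd => hy ?_⟩
      rw [hU, Finset.mem_image]
      refine ⟨x, Finset.mem_biUnion.mpr ⟨j, Finset.mem_univ _, hx⟩, ?_⟩
      have h1 : ((-(y.val : ℤ) + x : ℤ) : ZMod p) = 0 :=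
        (ZMod.intCast_zmod_eq_zero_iff_dvd _ _).mpr hdvd
      push_cast at h1
      rw [ZMod.natCast_zmod_val] at h1
      rw [neg_add_eq_zero] at h1
      exact h1.symm

open Classical in
/-- the generic statement -/
theorem hom_box (k s q : ℕ) (hk : 1 ≤ k) (hs : 1 ≤ s) : ∃ δ C : ℝ, 0 < δ ∧ δ ≤ 1 ∧ 0 ≤ C ∧
    ∀ (κ : Type) (_ : Fintype κ), Fintype.card κ ≤ q →
    ∀ (col : (Fin k → ℤ) → κ) (Bad : (Fin k → ℤ) → Prop),
      (∀ V : Fin k → Finset ℤ, (∀ j j', j ≠ j' → Disjoint (V j) (V j')) →
        (∀ j, (V j).card = s) → AdB V → (∀ a ∈ Fintype.piFinset V, Bad a) →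
        (∀ a ∈ Fintype.piFinset V, ∀ a' ∈ Fintype.piFinset V, col a = col a') → False) →
      ∀ (n : ℕ) (A : Fin k → Finset ℤ), 1 ≤ n → (∀ j, (A j).card ≤ n) →
        (((Fintype.piFinset A).filter (fun a => AdT a ∧ Bad a)).card : ℝ) ≤
          C * (n : ℝ) ^ ((k : ℝ) - δ) := by
  obtain ⟨δ, C, hδ, hδ1, hC, hbox⟩ := Pool.Agent.H74.BT.box s hs k
  set W : ℕ := (k * s).factorial with hW
  have : NeZero W := ⟨Nat.factorial_ne_zero _⟩
  have hWp : ∀ p : ℕ, p.Prime → p ≤ k * s → p ∣ W := by
    intro p hp hpk
    exact (Nat.Prime.dvd_factorial hp).mpr hpk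
  set Q : ℕ := W ^ k * q with hQ
  refine ⟨δ, Q * C + k ^ 2, hδ, hδ1, by positivity, ?_⟩
  intro κ _ hκ col Bad hno n A hn hA
  have hn' : (1 : ℝ) ≤ n := by exact_mod_cast hn
  set col2 : (Fin k → ℤ) → (Fin k → ZMod W) × κ :=
    fun a => (fun j => ((a j : ℤ) : ZMod W), col a) with hcol
  set B : Finset (Fin k → ℤ) := (Fintype.piFinset A).filter
    (fun a => Function.Injective a ∧ AdT a ∧ Bad a) with hB
  have hfib : ∀ κ', ((B.filter (fun a => col2 a = κ')).card : ℝ) ≤
      C * (n : ℝ) ^ ((k : ℝ) - δ) := by
    intro κ'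
    by_contra hlt
    push Not at hlt
    obtain ⟨V, hVc, hVB⟩ := hbox n A hn hA (B.filter (fun a => col2 a = κ'))
      ((Finset.filter_subset _ _).trans (Finset.filter_subset _ _)) hlt
    have hmem : ∀ a ∈ Fintype.piFinset V, (Function.Injective a ∧ AdT a ∧
        Bad a) ∧ col2 a = κ' := by
      intro a ha
      have h1 := Finset.mem_filter.mp (hVB ha)
      exact ⟨(Finset.mem_filter.mp h1.1).2, h1.2⟩
    have hc := core hs hWp V hVc (fun a ha => (hmem a ha).1.1) (fun a ha => (hmem a ha).1.2.1)
      (fun a ha a' ha' j => by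
        have h1 : col2 a = col2 a' := (hmem a ha).2.trans (hmem a' ha').2.symm
        exact congrFun (congrArg Prod.fst h1) j)
    refine hno V hc.1 hVc hc.2 (fun a ha => (hmem a ha).1.2.2) ?_
    intro a ha a' ha'
    have h1 : col2 a = col2 a' := (hmem a ha).2.trans (hmem a' ha').2.symm
    exact congrArg Prod.snd h1
  have hBc : (B.card : ℝ) ≤ Q * (C * (n : ℝ) ^ ((k : ℝ) - δ)) := by
    have h1 : B.card = ∑ κ' : (Fin k → ZMod W) × κ,
        (B.filter (fun a => col2 a = κ')).card :=
      Finset.card_eq_sum_card_fiberwise (fun a _ => Finset.mem_coe.mpr (Finset.mem_univ _))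
    rw [h1]
    push_cast
    refine (Finset.sum_le_sum fun κ' _ => hfib κ').trans ?_
    rw [Finset.sum_const, nsmul_eq_mul, Finset.card_univ, Fintype.card_prod, Fintype.card_fun,
      ZMod.card, Fintype.card_fin]
    have h2 : (0 : ℝ) ≤ C * (n : ℝ) ^ ((k : ℝ) - δ) := by positivity
    refine mul_le_mul_of_nonneg_right ?_ h2
    have h3 : W ^ k * Fintype.card κ ≤ Q := Nat.mul_le_mul_left _ hκ
    exact_mod_cast h3
  have hN : (((Fintype.piFinset A).filter (fun a => ¬ Function.Injective a)).card : ℝ) ≤
      k ^ 2 * (n : ℝ) ^ ((k : ℝ) - δ) := by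
    have h1 := noninj A hA
    have h2 : (((Fintype.piFinset A).filter (fun a => ¬ Function.Injective a)).card : ℝ) ≤
        (k : ℝ) ^ 2 * (n : ℝ) ^ (k - 1) := by exact_mod_cast h1
    refine h2.trans ?_
    refine mul_le_mul_of_nonneg_left ?_ (by positivity)
    rw [← Real.rpow_natCast]
    apply Real.rpow_le_rpow_of_exponent_le hn'
    rw [Nat.cast_sub hk]
    push_cast
    linarith
  have hsub : (Fintype.piFinset A).filter (fun a => AdT a ∧ Bad a) ⊆
      B ∪ (Fintype.piFinset A).filter (fun a => ¬ Function.Injective a) := by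
    intro a ha
    rw [Finset.mem_filter] at ha
    rw [Finset.mem_union]
    by_cases h : Function.Injective a
    · left
      exact Finset.mem_filter.mpr ⟨ha.1, h, ha.2⟩
    · right
      exact Finset.mem_filter.mpr ⟨ha.1, h⟩
  have hfin : (((Fintype.piFinset A).filter (fun a => AdT a ∧ Bad a)).card : ℝ) ≤
      (B.card : ℝ) + (((Fintype.piFinset A).filter (fun a => ¬ Function.Injective a)).card : ℝ) := by
    exact_mod_cast (Finset.card_le_card hsub).trans (Finset.card_union_le _ _)
  linarith

end Pool.Agent.H21.QT
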