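import Pool.Agent.H21.TY.Cont

/-!
[H21 QT CT]  Containers for down-closed families of sets (structural form of `Pool/Agent/H21/TY/Cont.lean`).

Proof.  As `claim` and `cont` in `Pool/Agent/H21/TY/Cont.lean` (the auxiliary lemmas there are private: copy what is needed), with
the following claim instead of the counting one: for all `Q`, `S ⊆ H` with `𝒞 (insert y Q)` for all `y ∈ S` there is
`𝒦 : Finset ℕ → Finset ℕ` with `𝒦 F ⊆ S`, `|𝒦 F| ≤ R` for all `F`, such that every `J ⊆ S` with `𝒞 (Q ∪ J)` contains a set `F ⊆ J`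
with `|F| ≤ Φ(Q,S)` and `J ⊆ F ∪ 𝒦 F`.  Induction on `|S|`.
* `|S| < R`: `𝒦 F = S`, `F = ∅`.
* `|S| ≥ R`: `pick` gives `s`, `v`; `S₁ = S.erase v`, `Q₂ = insert v Q`, `S₂ = S₁.filter (fun y => 𝒞 (insert y Q₂))`,
  `Φ(Q,S₁) ≤ Φ(Q,S)`, `Φ(Q₂,S₂) ≤ Φ(Q,S) - 1` (as in `claim`); let `𝒦₁`, `𝒦₂` be the functions for `(Q,S₁)`, `(Q₂,S₂)` and
  `𝒦 F = if v ∈ F then 𝒦₂ (F.erase v) else 𝒦₁ F`.  If `v ∉ J` then `J ⊆ S₁`, take `F` for `J` (`v ∉ F`); if `v ∈ J` then
  `J.erase v ⊆ S₂`, `𝒞 (Q₂ ∪ J.erase v)`, take `F₂` for `J.erase v` and `F = insert v F₂`, `F.erase v = F₂`.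
Apply it to `Q = ∅`, `S = H.filter (fun y => 𝒞 {y})`, `Φ(∅, S) ≤` the bound (as at the end of `cont`).
-/

namespace Pool.Agent.H21.QT

open Finset Pool.Agent.H21.TY

private noncomputable def cRho (R s : ℕ) : ℝ := (R.choose s : ℝ) / 4

private lemma cRho_pos {R s : ℕ} (h : s ≤ R) : 0 < cRho R s := by
  unfold cRho
  have : (0 : ℝ) < (R.choose s : ℝ) := by exact_mod_cast Nat.choose_pos h
  positivity

private noncomputable def cLam (R s : ℕ) (g : ℝ) : ℝ := Real.log (max g (cRho R s) / cRho R s)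

private lemma cLam_mono {R s : ℕ} (h : s ≤ R) {g g' : ℝ} (hg : g' ≤ g) :
    cLam R s g' ≤ cLam R s g := by
  have hr := cRho_pos h
  unfold cLam
  refine Real.log_le_log ?_ ?_
  · exact div_pos (lt_of_lt_of_le hr (le_max_right _ _)) hr
  · exact div_le_div_of_nonneg_right (max_le_max_right _ hg) hr.le

private lemma cLam_nonneg {R s : ℕ} (h : s ≤ R) (g : ℝ) : 0 ≤ cLam R s g := by
  have hr := cRho_pos h
  unfold cLam
  refine Real.log_nonneg ?_
  rw [le_div_iff₀ hr, one_mul]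
  exact le_max_right _ _

private lemma cLam_drop {R s : ℕ} (h : s ≤ R) {g g' x : ℝ} (hx0 : 0 ≤ x) (hx : x ≤ 1 / 4)
    (hg : 2 * cRho R s ≤ g) (hg' : g' ≤ g * (1 - x)) :
    cLam R s g' ≤ cLam R s g - x := by
  have hr := cRho_pos h
  have hgp : 0 < g := by linarith
  unfold cLam
  have h1 : max g' (cRho R s) ≤ g * (1 - x) := by
    refine max_le hg' ?_
    nlinarith
  have h2 : 0 < max g' (cRho R s) := lt_of_lt_of_le hr (le_max_right _ _)
  have h3 : Real.log (max g' (cRho R s) / cRho R s) ≤ Real.log (g / cRho R s * (1 - x)) := by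
    refine Real.log_le_log (div_pos h2 hr) ?_
    rw [div_mul_eq_mul_div]
    exact div_le_div_of_nonneg_right h1 hr.le
  have h4 : Real.log (g / cRho R s * (1 - x)) = Real.log (g / cRho R s) + Real.log (1 - x) :=
    Real.log_mul (div_pos hgp hr).ne' (by
      have : 0 < 1 - x := by linarith
      exact this.ne')
  have h5 : Real.log (1 - x) ≤ -x := by
    have := Real.log_le_sub_one_of_pos (show (0 : ℝ) < 1 - x by linarith)
    linarith
  have h6 : max g (cRho R s) = g := max_eq_left (by linarith)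
  rw [h6]
  linarith

private noncomputable def cPhi (𝒞 : Finset ℕ → Prop) (m R : ℕ) (ε : ℝ) (Q S : Finset ℕ) : ℝ :=
  2 ^ (m + 1) / ε * ∑ s ∈ Ico 1 m, cLam R s (gcount 𝒞 Q S s)

private lemma cPhi_nonneg (𝒞 : Finset ℕ → Prop) {m R : ℕ} {ε : ℝ} (hε : 0 < ε) (hR : 2 * m ≤ R)
    (Q S : Finset ℕ) : 0 ≤ cPhi 𝒞 m R ε Q S := by
  unfold cPhi
  refine mul_nonneg (by positivity) (sum_nonneg fun s hs => cLam_nonneg ?_ _)
  rw [mem_Ico] at hs
  omega

private lemma cPhi_mono (𝒞 : Finset ℕ → Prop) (h𝒞 : ∀ X Y : Finset ℕ, X ⊆ Y → 𝒞 Y → 𝒞 X)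
    {m R : ℕ} {ε : ℝ} (hε : 0 < ε) (hR : 2 * m ≤ R)
    {Q Q' S S' : Finset ℕ} (hQ : Q ⊆ Q') (hS : S' ⊆ S) :
    cPhi 𝒞 m R ε Q' S' ≤ cPhi 𝒞 m R ε Q S := by
  unfold cPhi
  refine mul_le_mul_of_nonneg_left (sum_le_sum fun s hs => cLam_mono ?_ ?_) (by positivity)
  · rw [mem_Ico] at hs
    omega
  · exact_mod_cast gcount_mono 𝒞 h𝒞 hQ hS s

private lemma cPhi_drop (𝒞 : Finset ℕ → Prop) (h𝒞 : ∀ X Y : Finset ℕ, X ⊆ Y → 𝒞 Y → 𝒞 X)
    {m R : ℕ} {ε : ℝ} (hε : 0 < ε) (hR : 2 * m ≤ R)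
    {Q Q' S S' : Finset ℕ} (hQ : Q ⊆ Q') (hS : S' ⊆ S) {s : ℕ} (hs1 : 1 ≤ s) (hsm : s < m)
    (hd : cLam R s (gcount 𝒞 Q' S' s) ≤ cLam R s (gcount 𝒞 Q S s) - ε / 2 ^ (m + 1 - s)) :
    cPhi 𝒞 m R ε Q' S' ≤ cPhi 𝒞 m R ε Q S - 1 := by
  have h1 : ∀ t ∈ Ico 1 m, 0 ≤ cLam R t (gcount 𝒞 Q S t) - cLam R t (gcount 𝒞 Q' S' t) := by
    intro t ht
    rw [mem_Ico] at ht
    have h2 : cLam R t (gcount 𝒞 Q' S' t) ≤ cLam R t (gcount 𝒞 Q S t) := by
      refine cLam_mono (by omega) ?_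
      exact_mod_cast gcount_mono 𝒞 h𝒞 hQ hS t
    linarith
  have h3 := single_le_sum h1 (mem_Ico.mpr ⟨hs1, hsm⟩)
  rw [sum_sub_distrib] at h3
  have h4 : ε / 2 ^ (m + 1 - s) ≤ ∑ t ∈ Ico 1 m, cLam R t (gcount 𝒞 Q S t) -
      ∑ t ∈ Ico 1 m, cLam R t (gcount 𝒞 Q' S' t) := by linarith
  have h5 : (1 : ℝ) ≤ 2 ^ (m + 1) / ε * (ε / 2 ^ (m + 1 - s)) := by
    have e1 : (2 : ℝ) ^ (m + 1) = 2 ^ (m + 1 - s) * 2 ^ s := by
      rw [← pow_add]
      congr 1
      omega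
    have e2 : (2 : ℝ) ^ (m + 1) / ε * (ε / 2 ^ (m + 1 - s)) = 2 ^ s := by
      rw [e1]
      field_simp
    rw [e2]
    exact one_le_pow₀ (by norm_num)
  have h6 : (0 : ℝ) ≤ 2 ^ (m + 1) / ε := by positivity
  have h7 := mul_le_mul_of_nonneg_left h4 h6
  unfold cPhi
  rw [mul_sub] at h7
  linarith

private lemma gcount_le_choose (𝒞 : Finset ℕ → Prop) (Q S : Finset ℕ) (t : ℕ) :
    gcount 𝒞 Q S t ≤ S.card.choose t := by
  classical
  unfold gcount
  refine (card_filter_le _ _).trans ?_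
  rw [card_powersetCard]

private lemma cLam_top {N R m s : ℕ} (hR : 2 * m ≤ R) (hRN : R ≤ N) (hs1 : 1 ≤ s) (hsm : s < m) :
    cLam R s (N.choose s) ≤ m * Real.log (8 * N / R) := by
  have hsR : s ≤ R := by omega
  have hRpos : (0 : ℝ) < R := by
    have : 0 < R := by omega
    exact_mod_cast this
  have hNR : (R : ℝ) ≤ N := by exact_mod_cast hRN
  have hCR : (0 : ℝ) < (R.choose s : ℝ) := by exact_mod_cast Nat.choose_pos hsR
  have hCN : (R.choose s : ℝ) ≤ (N.choose s : ℝ) := by exact_mod_cast Nat.choose_le_choose s hRN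
  have hfac : (0 : ℝ) < (Nat.factorial s : ℝ) := by exact_mod_cast Nat.factorial_pos s
  have h1 : (N.choose s : ℝ) ≤ (N : ℝ) ^ s / (Nat.factorial s : ℝ) := Nat.choose_le_pow_div s N
  have h2 : (((R + 1 - s : ℕ) : ℝ) ^ s) / (Nat.factorial s : ℝ) ≤ (R.choose s : ℝ) :=
    Nat.pow_le_choose s R
  have h3 : (R : ℝ) / 2 ≤ ((R + 1 - s : ℕ) : ℝ) := by
    have : R ≤ 2 * (R + 1 - s) := by omega
    have h4 : (R : ℝ) ≤ 2 * ((R + 1 - s : ℕ) : ℝ) := by exact_mod_cast this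
    linarith
  have h4 : ((R : ℝ) / 2) ^ s / (Nat.factorial s : ℝ) ≤ (R.choose s : ℝ) := by
    refine le_trans ?_ h2
    exact div_le_div_of_nonneg_right (pow_le_pow_left₀ (by positivity) h3 s) hfac.le
  have h5 : (N.choose s : ℝ) / cRho R s ≤ 4 * (2 * N / R) ^ s := by
    unfold cRho
    have h6 : (N.choose s : ℝ) ≤ (2 * N / R) ^ s * (R.choose s : ℝ) := by
      calc (N.choose s : ℝ) ≤ (N : ℝ) ^ s / (Nat.factorial s : ℝ) := h1
        _ = (2 * N / R) ^ s * (((R : ℝ) / 2) ^ s / (Nat.factorial s : ℝ)) := by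
            rw [← mul_div_assoc, ← mul_pow]
            congr 2
            field_simp
        _ ≤ (2 * N / R) ^ s * (R.choose s : ℝ) :=
            mul_le_mul_of_nonneg_left h4 (by positivity)
    rw [div_le_iff₀ (by positivity)]
    linarith
  unfold cLam
  have h7 : max (N.choose s : ℝ) (cRho R s) = (N.choose s : ℝ) := by
    refine max_eq_left ?_
    unfold cRho
    linarith
  rw [h7]
  have hr := cRho_pos hsR
  have h8 : (1 : ℝ) ≤ 2 * N / R := by
    rw [le_div_iff₀ hRpos]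
    linarith
  have h9 : Real.log ((N.choose s : ℝ) / cRho R s) ≤ Real.log (4 * (2 * N / R) ^ s) :=
    Real.log_le_log (div_pos (by linarith) hr) h5
  have h10 : Real.log (4 * (2 * N / R) ^ s) = Real.log 4 + s * Real.log (2 * N / R) := by
    rw [Real.log_mul (by norm_num) (by positivity), Real.log_pow]
  have h11 : Real.log (8 * N / R) = Real.log 4 + Real.log (2 * N / R) := by
    rw [← Real.log_mul (by norm_num) (by positivity)]
    congr 1
    ring
  have h12 : 0 ≤ Real.log 4 := Real.log_nonneg (by norm_num)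
  have h13 : 0 ≤ Real.log (2 * N / R) := Real.log_nonneg h8
  have hs1' : (1 : ℝ) ≤ s := by exact_mod_cast hs1
  have hsm' : (s : ℝ) ≤ m := by exact_mod_cast hsm.le
  calc Real.log ((N.choose s : ℝ) / cRho R s) ≤ Real.log 4 + s * Real.log (2 * N / R) := by
        rw [← h10]
        exact h9
    _ ≤ s * Real.log 4 + s * Real.log (2 * N / R) := by nlinarith
    _ = s * Real.log (8 * N / R) := by rw [h11]; ring
    _ ≤ m * Real.log (8 * N / R) := by
        refine mul_le_mul_of_nonneg_right hsm' ?_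
        rw [h11]
        linarith

private lemma claim2 (𝒞 : Finset ℕ → Prop) (h𝒞 : ∀ X Y : Finset ℕ, X ⊆ Y → 𝒞 Y → 𝒞 X)
    (H : Finset ℕ) (m R : ℕ) (ε : ℝ) (hε : 0 < ε) (hε1 : ε ≤ 1) (hm : 2 ≤ m) (hR : 2 * m ≤ R)
    (hbad : ∀ S ⊆ H, R ≤ S.card → (gcount 𝒞 ∅ S m : ℝ) ≤ (1 - ε) * (S.card.choose m : ℝ)) :
    ∀ (n : ℕ) (S Q : Finset ℕ), S.card = n → S ⊆ H → (∀ y ∈ S, 𝒞 (insert y Q)) →
      ∃ 𝒦 : Finset ℕ → Finset ℕ, (∀ F, 𝒦 F ⊆ S ∧ (𝒦 F).card ≤ R) ∧
        ∀ J ⊆ S, 𝒞 (Q ∪ J) → ∃ F ⊆ J, (F.card : ℝ) ≤ cPhi 𝒞 m R ε Q S ∧ J ⊆ F ∪ 𝒦 F := by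
  classical
  intro n
  induction n using Nat.strong_induction_on with
  | _ n ih =>
    intro S Q hSn hSH hmem
    have hΦ := cPhi_nonneg 𝒞 hε hR Q S
    rcases Nat.lt_or_ge S.card R with hlt | hge
    · refine ⟨fun _ => S, fun F => ⟨Subset.refl S, hlt.le⟩, fun J hJ _ => ⟨∅, empty_subset J, ?_, ?_⟩⟩
      · simpa using hΦ
      · simpa using hJ
    have hR1 : 1 ≤ R := by omega
    obtain ⟨n', rfl⟩ : ∃ n', n = n' + 1 := ⟨n - 1, by omega⟩
    have hm' : (gcount 𝒞 Q S m : ℝ) ≤ (1 - ε) * (S.card.choose m : ℝ) := by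
      refine le_trans ?_ (hbad S hSH hge)
      exact_mod_cast gcount_mono 𝒞 h𝒞 (empty_subset Q) (Subset.refl S) m
    obtain ⟨s, hs1, hsm, hgs, v, hv, hgv⟩ := pick 𝒞 h𝒞 Q S m ε hε hm (hR.trans hge) hmem hm'
    set S₂ : Finset ℕ := (S.erase v).filter (fun y => 𝒞 (insert y (insert v Q))) with hS₂
    have hS₂sub : S₂ ⊆ S.erase v := filter_subset _ _
    have hc1 : (S.erase v).card = n' := by
      rw [card_erase_of_mem hv, hSn]
      rfl
    have hc2 : S₂.card ≤ n' := hc1 ▸ card_le_card hS₂sub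
    obtain ⟨K1, hK1, hK1'⟩ := ih n' (Nat.lt_succ_self n') (S.erase v) Q hc1
      ((erase_subset v S).trans hSH) (fun y hy => hmem y (mem_of_mem_erase hy))
    obtain ⟨K2, hK2, hK2'⟩ := ih S₂.card (Nat.lt_succ_of_le hc2) S₂ (insert v Q) rfl
      ((hS₂sub.trans (erase_subset v S)).trans hSH) (fun y hy => by
        rw [hS₂, mem_filter] at hy
        exact hy.2)
    have hΦ1 : cPhi 𝒞 m R ε Q (S.erase v) ≤ cPhi 𝒞 m R ε Q S :=
      cPhi_mono 𝒞 h𝒞 hε hR (Subset.refl Q) (erase_subset v S)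
    have hΦ2 : cPhi 𝒞 m R ε (insert v Q) S₂ ≤ cPhi 𝒞 m R ε Q S - 1 := by
      refine cPhi_drop 𝒞 h𝒞 hε hR (subset_insert v Q) (hS₂sub.trans (erase_subset v S)) hs1 hsm ?_
      have hpow : (4 : ℝ) ≤ 2 ^ (m + 1 - s) := by
        calc (4 : ℝ) = 2 ^ 2 := by norm_num
          _ ≤ 2 ^ (m + 1 - s) := pow_le_pow_right₀ (by norm_num) (by omega)
      have hpow2 : (2 : ℝ) ≤ 2 ^ (m - s) := by
        calc (2 : ℝ) = 2 ^ 1 := by norm_num
          _ ≤ 2 ^ (m - s) := pow_le_pow_right₀ (by norm_num) (by omega)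
      have hx0 : 0 ≤ ε / 2 ^ (m + 1 - s) := by positivity
      have hx : ε / 2 ^ (m + 1 - s) ≤ 1 / 4 := by
        rw [div_le_div_iff₀ (by positivity) (by norm_num)]
        nlinarith
      have hx2 : ε / 2 ^ (m - s) ≤ 1 / 2 := by
        rw [div_le_div_iff₀ (by positivity) (by norm_num)]
        nlinarith
      have hCn : (0 : ℝ) ≤ (S.card.choose s : ℝ) := Nat.cast_nonneg _
      have hCR : (R.choose s : ℝ) ≤ (S.card.choose s : ℝ) := by
        exact_mod_cast Nat.choose_le_choose s hge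
      have hgC : (gcount 𝒞 Q S s : ℝ) ≤ (S.card.choose s : ℝ) := by
        exact_mod_cast gcount_le_choose 𝒞 Q S s
      refine cLam_drop (by omega) hx0 hx ?_ ?_
      · unfold cRho
        nlinarith
      · have hg2 : (gcount 𝒞 (insert v Q) S₂ s : ℝ) ≤ (gcount 𝒞 (insert v Q) (S.erase v) s : ℝ) := by
          exact_mod_cast gcount_mono 𝒞 h𝒞 (Subset.refl _) hS₂sub s
        nlinarith
    refine ⟨fun F => if v ∈ F then K2 (F.erase v) else K1 F, fun F => ?_, fun J hJ hJC => ?_⟩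
    · by_cases hvF : v ∈ F
      · simp only [if_pos hvF]
        exact ⟨(hK2 _).1.trans (hS₂sub.trans (erase_subset v S)), (hK2 _).2⟩
      · simp only [if_neg hvF]
        exact ⟨(hK1 _).1.trans (erase_subset v S), (hK1 _).2⟩
    · by_cases hvJ : v ∈ J
      · have hJ2 : J.erase v ⊆ S₂ := by
          intro y hy
          have hy' := mem_erase.mp hy
          rw [hS₂, mem_filter]
          refine ⟨mem_erase.mpr ⟨hy'.1, hJ hy'.2⟩, h𝒞 _ _ ?_ hJC⟩
          intro z hz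
          rw [mem_insert, mem_insert] at hz
          rw [mem_union]
          rcases hz with rfl | rfl | hz
          · exact Or.inr hy'.2
          · exact Or.inr hvJ
          · exact Or.inl hz
        have hC2 : 𝒞 (insert v Q ∪ J.erase v) := by
          refine h𝒞 _ _ ?_ hJC
          intro z hz
          rw [mem_union, mem_insert, mem_erase] at hz
          rw [mem_union]
          rcases hz with (rfl | hz) | hz
          · exact Or.inr hvJ
          · exact Or.inl hz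
          · exact Or.inr hz.2
        obtain ⟨F, hFJ, hFc, hJF⟩ := hK2' _ hJ2 hC2
        have hvF : v ∉ F := fun h => notMem_erase v J (hFJ h)
        refine ⟨insert v F, ?_, ?_, ?_⟩
        · intro z hz
          rcases mem_insert.mp hz with rfl | hz
          · exact hvJ
          · exact mem_of_mem_erase (hFJ hz)
        · rw [card_insert_of_notMem hvF]
          push_cast
          linarith
        · simp only [if_pos (mem_insert_self v F)]
          rw [erase_insert hvF]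
          intro z hz
          by_cases hzv : z = v
          · rw [hzv]
            exact mem_union_left _ (mem_insert_self v F)
          · rcases mem_union.mp (hJF (mem_erase.mpr ⟨hzv, hz⟩)) with h | h
            · exact mem_union_left _ (mem_insert_of_mem h)
            · exact mem_union_right _ h
      · obtain ⟨F, hFJ, hFc, hJF⟩ := hK1' J (subset_erase.mpr ⟨hJ, hvJ⟩) hJC
        have hvF : v ∉ F := fun h => hvJ (hFJ h)
        refine ⟨F, hFJ, hFc.trans hΦ1, ?_⟩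
        simp only [if_neg hvF]
        exact hJF

theorem cont2 (𝒞 : Finset ℕ → Prop) (h𝒞 : ∀ X Y : Finset ℕ, X ⊆ Y → 𝒞 Y → 𝒞 X)
    (H : Finset ℕ) (m R : ℕ) (ε : ℝ) (hε : 0 < ε) (hε1 : ε ≤ 1) (hm : 2 ≤ m) (hR : 2 * m ≤ R)
    (hRH : R ≤ H.card)
    (hbad : ∀ S ⊆ H, R ≤ S.card → (gcount 𝒞 ∅ S m : ℝ) ≤ (1 - ε) * (S.card.choose m : ℝ)) :
    ∃ 𝒦 : Finset ℕ → Finset ℕ, (∀ F, 𝒦 F ⊆ H ∧ (𝒦 F).card ≤ R) ∧
      ∀ Y ⊆ H, 𝒞 Y → ∃ F ⊆ Y,
        (F.card : ℝ) ≤ (2 ^ (m + 1) * (m : ℝ) ^ 2 / ε) * Real.log (8 * H.card / R) ∧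
        Y ⊆ F ∪ 𝒦 F := by
  classical
  set H' : Finset ℕ := H.filter (fun y => 𝒞 {y}) with hH'
  have hH'H : H' ⊆ H := filter_subset _ _
  obtain ⟨K, hK, hK'⟩ := claim2 𝒞 h𝒞 H m R ε hε hε1 hm hR hbad H'.card H' ∅ rfl hH'H
    (fun y hy => by
      rw [hH', mem_filter] at hy
      exact hy.2)
  have hlog : 0 ≤ Real.log (8 * H.card / R) := by
    have hRpos : (0 : ℝ) < R := by
      have : 0 < R := by omega
      exact_mod_cast this
    have hNR : (R : ℝ) ≤ H.card := by exact_mod_cast hRH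
    refine Real.log_nonneg ?_
    rw [le_div_iff₀ hRpos]
    linarith
  have h3 : cPhi 𝒞 m R ε ∅ H' ≤ (2 ^ (m + 1) * (m : ℝ) ^ 2 / ε) * Real.log (8 * H.card / R) := by
    unfold cPhi
    have h4 : ∑ s ∈ Ico 1 m, cLam R s (gcount 𝒞 ∅ H' s) ≤
        ∑ s ∈ Ico 1 m, (m * Real.log (8 * H.card / R) : ℝ) := by
      refine sum_le_sum fun s hs => ?_
      rw [mem_Ico] at hs
      refine le_trans (cLam_mono (by omega) ?_) (cLam_top hR hRH hs.1 hs.2)
      have := (gcount_le_choose 𝒞 ∅ H' s).trans (Nat.choose_le_choose s (card_le_card hH'H))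
      exact_mod_cast this
    rw [sum_const, Nat.card_Ico, nsmul_eq_mul] at h4
    have h5 : ((m - 1 : ℕ) : ℝ) * (m * Real.log (8 * H.card / R)) ≤
        (m : ℝ) * (m * Real.log (8 * H.card / R)) := by
      refine mul_le_mul_of_nonneg_right ?_ (by positivity)
      have : m - 1 ≤ m := Nat.sub_le _ _
      exact_mod_cast this
    have h6 : (0 : ℝ) ≤ 2 ^ (m + 1) / ε := by positivity
    calc 2 ^ (m + 1) / ε * ∑ s ∈ Ico 1 m, cLam R s (gcount 𝒞 ∅ H' s)
        ≤ 2 ^ (m + 1) / ε * ((m : ℝ) * (m * Real.log (8 * H.card / R))) :=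
          mul_le_mul_of_nonneg_left (h4.trans h5) h6
      _ = (2 ^ (m + 1) * (m : ℝ) ^ 2 / ε) * Real.log (8 * H.card / R) := by ring
  refine ⟨K, fun F => ⟨(hK F).1.trans hH'H, (hK F).2⟩, fun Y hY hYC => ?_⟩
  have hYH' : Y ⊆ H' := by
    intro y hy
    rw [hH', mem_filter]
    exact ⟨hY hy, h𝒞 _ _ (singleton_subset_iff.mpr hy) hYC⟩
  obtain ⟨F, hFY, hFc, hYF⟩ := hK' Y hYH' (by rwa [empty_union])
  exact ⟨F, hFY, hFc.trans h3, hYF⟩

end Pool.Agent.H21.QT
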