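import Mathlib

/-!
[H21 QT TL]  Few tuples have many coordinates in a small set which depends on few coordinates.

Proof.  For `a : Fin k → ℕ` with values in `H` let `f a j = if a j ∈ 𝒦 (I.image a) then 1 + θ else 1`.  If `a` is counted then
`∏_{j ∉ I} f a j = (1+θ)^#{j ∉ I | a j ∈ 𝒦 (I.image a)} ≥ (1+θ)^t` (real power).  So the number is at most
`(1+θ)^(-t) ∑_a ∏_{j ∉ I} f a j`.  Split `a` in its restrictions `b` to `I` and to the complement (e.g. group the tuples by
their restriction to `I`: at most `|H|^|I|` classes; `Finset.sum_fiberwise` or an equivalence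
`Equiv.piEquivPiSubtypeProd`); for fixed `b` the set `K = 𝒦 (b '' I)` is fixed and
`∑ ∏_{j ∉ I} (if a j ∈ K then 1+θ else 1) = (∑_{x ∈ H} (if x ∈ K then 1+θ else 1))^(k-|I|) ≤ (|H| + θ R)^(k-|I|)`
(`Finset.prod_univ_sum` / `Finset.sum_prod_piFinset`).
-/

namespace Pool.Agent.H21.QT

open Finset

theorem tail_count (k : ℕ) (H : Finset ℕ) (𝒦 : Finset ℕ → Finset ℕ) (R : ℕ)
    (h𝒦 : ∀ F, 𝒦 F ⊆ H ∧ (𝒦 F).card ≤ R) (I : Finset (Fin k)) (t θ : ℝ) (hθ : 0 ≤ θ) :
    (((Fintype.piFinset (fun _ : Fin k => H)).filter (fun a =>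
      t ≤ ((univ.filter (fun j => j ∉ I ∧ a j ∈ 𝒦 (I.image a))).card : ℝ))).card : ℝ) ≤
      (H.card : ℝ) ^ I.card * ((H.card : ℝ) + θ * R) ^ (k - I.card) / (1 + θ) ^ t := by
  classical
  have h1θ : (0:ℝ) < 1 + θ := by linarith
  rw [le_div_iff₀ (Real.rpow_pos_of_pos h1θ t)]
  obtain ⟨f, hfd⟩ : ∃ f : (Fin k → ℕ) → Fin k → ℝ, ∀ a j,
      f a j = if j ∈ I then 1 else (if a j ∈ 𝒦 (I.image a) then 1 + θ else 1) := ⟨_, fun _ _ => rfl⟩
  have hf : ∀ a, ∏ j, f a j
      = (1 + θ) ^ (univ.filter (fun j => j ∉ I ∧ a j ∈ 𝒦 (I.image a))).card := by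
    intro a
    have hj : ∀ j, f a j = if (j ∉ I ∧ a j ∈ 𝒦 (I.image a)) then (1 + θ) else 1 := by
      intro j
      rw [hfd]
      by_cases h1 : j ∈ I <;> by_cases h2 : a j ∈ 𝒦 (I.image a) <;> simp [h1, h2]
    rw [Finset.prod_congr rfl (fun j _ => hj j), Finset.prod_ite]
    simp
  have hf0 : ∀ a j, 0 ≤ f a j := by
    intro a j
    rw [hfd]
    split_ifs <;> linarith
  have step1 : (((Fintype.piFinset (fun _ : Fin k => H)).filter (fun a =>
      t ≤ ((univ.filter (fun j => j ∉ I ∧ a j ∈ 𝒦 (I.image a))).card : ℝ))).card : ℝ) * (1 + θ) ^ t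
      ≤ ∑ a ∈ Fintype.piFinset (fun _ : Fin k => H), ∏ j, f a j := by
    calc (((Fintype.piFinset (fun _ : Fin k => H)).filter (fun a =>
      t ≤ ((univ.filter (fun j => j ∉ I ∧ a j ∈ 𝒦 (I.image a))).card : ℝ))).card : ℝ) * (1 + θ) ^ t
        = ∑ a ∈ (Fintype.piFinset (fun _ : Fin k => H)).filter (fun a =>
      t ≤ ((univ.filter (fun j => j ∉ I ∧ a j ∈ 𝒦 (I.image a))).card : ℝ)), (1 + θ) ^ t := by
          rw [Finset.sum_const, nsmul_eq_mul]
      _ ≤ ∑ a ∈ (Fintype.piFinset (fun _ : Fin k => H)).filter (fun a =>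
      t ≤ ((univ.filter (fun j => j ∉ I ∧ a j ∈ 𝒦 (I.image a))).card : ℝ)), ∏ j, f a j := by
          apply Finset.sum_le_sum
          intro a ha
          rw [hf, ← Real.rpow_natCast]
          exact Real.rpow_le_rpow_of_exponent_le (by linarith) (Finset.mem_filter.1 ha).2
      _ ≤ _ := Finset.sum_le_sum_of_subset_of_nonneg (Finset.filter_subset _ _)
          (fun a _ _ => Finset.prod_nonneg (fun j _ => hf0 a j))
  refine step1.trans ?_
  obtain ⟨g, hgd⟩ : ∃ g : (Fin k → ℕ) → (Fin k → ℕ), ∀ a j, g a j = if j ∈ I then a j else 0 :=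
    ⟨fun a j => if j ∈ I then a j else 0, fun _ _ => rfl⟩
  have hg : ∀ a ∈ Fintype.piFinset (fun _ : Fin k => H),
      g a ∈ Fintype.piFinset (fun j : Fin k => if j ∈ I then H else ({0} : Finset ℕ)) := by
    intro a ha
    rw [Fintype.mem_piFinset] at ha ⊢
    intro j
    rw [hgd]
    by_cases h1 : j ∈ I
    · simpa [h1] using ha j
    · simp [h1]
  rw [← Finset.sum_fiberwise_of_maps_to hg]
  have hcard : ((Fintype.piFinset (fun j : Fin k => if j ∈ I then H else ({0} : Finset ℕ))).card : ℝ)
      = (H.card : ℝ) ^ I.card := by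
    rw [Fintype.card_piFinset]
    have : ∀ j : Fin k, (if j ∈ I then H else ({0} : Finset ℕ)).card = if j ∈ I then H.card else 1 := by
      intro j
      split_ifs <;> simp
    rw [Finset.prod_congr rfl (fun j _ => this j), Finset.prod_ite]
    simp
  have hfib : ∀ b ∈ Fintype.piFinset (fun j : Fin k => if j ∈ I then H else ({0} : Finset ℕ)),
      ∑ a ∈ (Fintype.piFinset (fun _ : Fin k => H)).filter (fun a => g a = b), ∏ j, f a j
        ≤ ((H.card : ℝ) + θ * R) ^ (k - I.card) := by
    intro b hb
    obtain ⟨F, hF⟩ : ∃ F : Fin k → ℕ → ℝ, ∀ j x,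
      F j x = if j ∈ I then 1 else (if x ∈ 𝒦 (I.image b) then 1 + θ else 1) := ⟨_, fun _ _ => rfl⟩
    have hF0 : ∀ j x, 0 ≤ F j x := by
      intro j x
      rw [hF]
      split_ifs <;> linarith
    have himg : ∀ a, g a = b → I.image a = I.image b := by
      intro a hab
      apply Finset.image_congr
      intro j hj
      have := congrFun hab j
      rw [hgd, if_pos (by simpa using hj)] at this
      exact this
    calc ∑ a ∈ (Fintype.piFinset (fun _ : Fin k => H)).filter (fun a => g a = b), ∏ j, f a j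
        = ∑ a ∈ (Fintype.piFinset (fun _ : Fin k => H)).filter (fun a => g a = b), ∏ j, F j (a j) := by
          apply Finset.sum_congr rfl
          intro a ha
          apply Finset.prod_congr rfl
          intro j _
          rw [hfd, hF, himg a (Finset.mem_filter.1 ha).2]
      _ ≤ ∑ a ∈ Fintype.piFinset (fun j : Fin k => if j ∈ I then ({b j} : Finset ℕ) else H),
            ∏ j, F j (a j) := by
          apply Finset.sum_le_sum_of_subset_of_nonneg
          · intro a ha
            rw [Finset.mem_filter, Fintype.mem_piFinset] at ha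
            rw [Fintype.mem_piFinset]
            intro j
            have h2 := congrFun ha.2 j
            rw [hgd] at h2
            by_cases h1 : j ∈ I
            · rw [if_pos h1] at h2
              simp [h1, h2]
            · simpa [h1] using ha.1 j
          · intro a _ _
            exact Finset.prod_nonneg (fun j _ => hF0 j (a j))
      _ = ∏ j, ∑ x ∈ (if j ∈ I then ({b j} : Finset ℕ) else H), F j x := by
          rw [Finset.prod_univ_sum]
      _ ≤ ∏ j, (if j ∈ I then (1:ℝ) else ((H.card : ℝ) + θ * R)) := by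
          apply Finset.prod_le_prod
          · intro j _
            exact Finset.sum_nonneg (fun x _ => hF0 j x)
          · intro j _
            by_cases h1 : j ∈ I
            · rw [if_pos h1, if_pos h1, Finset.sum_singleton, hF, if_pos h1]
            · rw [if_neg h1, if_neg h1]
              have e1 : ∀ x ∈ H, F j x = 1 + (if x ∈ 𝒦 (I.image b) then θ else 0) := by
                intro x _
                rw [hF, if_neg h1]
                split_ifs <;> ring
              rw [Finset.sum_congr rfl e1, Finset.sum_add_distrib, Finset.sum_const, nsmul_eq_mul,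
                mul_one, ← Finset.sum_filter, Finset.sum_const, nsmul_eq_mul]
              have e2 : ((H.filter (fun x => x ∈ 𝒦 (I.image b))).card : ℝ) ≤ R := by
                have h3 : H.filter (fun x => x ∈ 𝒦 (I.image b)) ⊆ 𝒦 (I.image b) := by
                  intro x hx
                  exact (Finset.mem_filter.1 hx).2
                exact_mod_cast (Finset.card_le_card h3).trans (h𝒦 _).2
              nlinarith [mul_le_mul_of_nonneg_right e2 hθ]
      _ = ((H.card : ℝ) + θ * R) ^ (k - I.card) := by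
          rw [Finset.prod_ite]
          have e3 : (univ.filter (fun j => j ∉ I)).card = k - I.card := by
            have : univ.filter (fun j => j ∉ I) = Iᶜ := by
              ext j
              simp
            rw [this, Finset.card_compl, Fintype.card_fin]
          simp [e3]
  calc ∑ b ∈ Fintype.piFinset (fun j : Fin k => if j ∈ I then H else ({0} : Finset ℕ)),
      ∑ a ∈ (Fintype.piFinset (fun _ : Fin k => H)).filter (fun a => g a = b), ∏ j, f a j
      ≤ ∑ b ∈ Fintype.piFinset (fun j : Fin k => if j ∈ I then H else ({0} : Finset ℕ)),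
        ((H.card : ℝ) + θ * R) ^ (k - I.card) := Finset.sum_le_sum hfib
    _ = (H.card : ℝ) ^ I.card * ((H.card : ℝ) + θ * R) ^ (k - I.card) := by
        rw [Finset.sum_const, nsmul_eq_mul, hcard]

end Pool.Agent.H21.QT
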