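import Mathlib

/-!
[H21 QT TH]  Counting the `m`-subsets of a fractional cover.

Proofs.
* `esymm_lower`: induction on `m` (for all `E`).  `m = 0`: both sides are `1`.  Step: let `s = ∑_{j ∈ E} θ j`,
  `e_m(E) = ∑_{J ∈ powersetCard m E} ∏_{j ∈ J} θ j`.  Double counting of the pairs `j ∈ J`:
  `(m+1) e_{m+1}(E) = ∑_{j ∈ E} θ j e_m(E.erase j) ≥ ∑_{j ∈ E} θ j (max (s - θ j - m) 0)^m/m! ≥
  s (max (s - (m+1)) 0)^m/m! ≥ (max (s-(m+1)) 0)^(m+1)/m!`.
* `fam_count`: let `P j = ∑ i, ∑ E ∋ j, w i E ≥ lam > 0`, `θ j = lam / P j ∈ (0, 1]`; note `lam ≤ P j ≤ 1`.  For `J` let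
  `M J = (∏_{j ∈ J} θ j) ∑_i ∑_{E ⊇ J} w i E`.  For `|J| = m ≥ 1`, `j₀ ∈ J`: `M J ≤ θ j₀ P j₀ = lam`, and `M J = 0` unless
  some `w i E > 0` with `J ⊆ E`, so unless `J ∈ G`.  Hence `∑_{|J| = m} M J ≤ lam |G_m|`.  On the other hand
  `∑_{|J| = m} M J = ∑_i ∑_E w i E e_m(θ, E) ≥ ∑_i ∑_E w i E (max (x_E - m) 0)^m/m!`, `x_E = ∑_{j ∈ E} θ j`, and by Jensen /
  Hoelder with total weight `≤ 1` (`inner_le_nnorm_mul_nnorm`-free: `Real.inner_le_Lp_mul_Lq`, or
  `Real.pow_arith_mean_le_arith_mean_pow` after adding the missing weight at the value `0`)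
  `∑ w (max (x_E - m) 0)^m ≥ (∑ w max (x_E - m) 0)^m ≥ (lam k - m)^m`, because `∑ w x_E = ∑_j θ j P j = lam k`.
  Finally `C(k,m) ≤ k^m/m!` (`Nat.choose_le_pow_div`): `(lam k - m)^m/(m! lam) = lam^(m-1) (1 - m/(lam k))^m k^m/m!`.
-/

namespace Pool.Agent.H21.QT

open Finset

theorem esymm_step {ι : Type} [DecidableEq ι] (θ : ι → ℝ) (m : ℕ) (E : Finset ι) :
    ((m : ℝ) + 1) * ∑ J ∈ powersetCard (m + 1) E, ∏ j ∈ J, θ j
      = ∑ j ∈ E, θ j * ∑ J ∈ powersetCard m (E.erase j), ∏ i ∈ J, θ i := by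
  have h1 : ∀ J ∈ powersetCard (m + 1) E, ((m : ℝ) + 1) * ∏ j ∈ J, θ j
      = ∑ j ∈ J, θ j * ∏ i ∈ J.erase j, θ i := by
    intro J hJ
    have hc : J.card = m + 1 := (mem_powersetCard.1 hJ).2
    have h2 : ∀ j ∈ J, θ j * ∏ i ∈ J.erase j, θ i = ∏ j ∈ J, θ j := by
      intro j hj
      exact Finset.mul_prod_erase J θ hj
    rw [Finset.sum_congr rfl h2, Finset.sum_const, nsmul_eq_mul, hc]
    push_cast
    ring
  rw [Finset.mul_sum, Finset.sum_congr rfl h1]
  rw [Finset.sum_comm' (s := powersetCard (m + 1) E) (t := fun J => J) (t' := E)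
    (s' := fun j => (powersetCard (m + 1) E).filter (fun J => j ∈ J))]
  · apply Finset.sum_congr rfl
    intro j hj
    rw [Finset.mul_sum]
    refine Finset.sum_bij' (fun J _ => J.erase j) (fun J _ => insert j J) ?_ ?_ ?_ ?_ ?_
    · intro J hJ
      rw [mem_filter, mem_powersetCard] at hJ
      rw [mem_powersetCard]
      exact ⟨Finset.erase_subset_erase j hJ.1.1, by rw [Finset.card_erase_of_mem hJ.2, hJ.1.2]; rfl⟩
    · intro J hJ
      rw [mem_powersetCard] at hJ
      have hjJ : j ∉ J := fun h => absurd (hJ.1 h) (Finset.notMem_erase j E)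
      rw [mem_filter, mem_powersetCard]
      refine ⟨⟨?_, ?_⟩, Finset.mem_insert_self j J⟩
      · exact Finset.insert_subset hj (hJ.1.trans (Finset.erase_subset j E))
      · rw [Finset.card_insert_of_notMem hjJ, hJ.2]
    · intro J hJ
      exact Finset.insert_erase (mem_filter.1 hJ).2
    · intro J hJ
      rw [mem_powersetCard] at hJ
      have hjJ : j ∉ J := fun h => absurd (hJ.1 h) (Finset.notMem_erase j E)
      exact Finset.erase_insert hjJ
    · intro J _
      rfl
  · intro J j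
    rw [mem_filter, mem_powersetCard]
    constructor
    · rintro ⟨⟨h1, h2⟩, h3⟩
      exact ⟨⟨⟨h1, h2⟩, h3⟩, h1 h3⟩
    · rintro ⟨⟨⟨h1, h2⟩, h3⟩, _⟩
      exact ⟨⟨h1, h2⟩, h3⟩

theorem esymm_lower {ι : Type} [DecidableEq ι] (θ : ι → ℝ) (h0 : ∀ j, 0 ≤ θ j)
    (h1 : ∀ j, θ j ≤ 1) (m : ℕ) (E : Finset ι) :
    (max (∑ j ∈ E, θ j - m) 0) ^ m / (m.factorial : ℝ) ≤ ∑ J ∈ powersetCard m E, ∏ j ∈ J, θ j := by
  induction m generalizing E with
  | zero => simp
  | succ m ih =>
    have hs : 0 ≤ ∑ j ∈ E, θ j := Finset.sum_nonneg (fun j _ => h0 j)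
    obtain ⟨s, hsd⟩ : ∃ s : ℝ, s = ∑ j ∈ E, θ j := ⟨_, rfl⟩
    obtain ⟨M, hM⟩ : ∃ M : ℝ, M = max (s - (m + 1)) 0 := ⟨_, rfl⟩
    have hM0 : 0 ≤ M := by rw [hM]; exact le_max_right _ _
    have hMs : M ≤ s := by
      rw [hM]
      apply max_le
      · have : (0:ℝ) ≤ m := Nat.cast_nonneg m
        linarith
      · rw [hsd]; exact hs
    have hstep := esymm_step θ m E
    have h2 : ∀ j ∈ E, θ j * (M ^ m / (m.factorial : ℝ))
        ≤ θ j * ∑ J ∈ powersetCard m (E.erase j), ∏ i ∈ J, θ i := by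
      intro j hj
      apply mul_le_mul_of_nonneg_left _ (h0 j)
      refine le_trans ?_ (ih (E.erase j))
      apply div_le_div_of_nonneg_right _ (by positivity)
      apply pow_le_pow_left₀ hM0
      rw [hM]
      apply max_le_max _ le_rfl
      have h3 : ∑ i ∈ E.erase j, θ i = s - θ j := by
        rw [hsd]
        have := Finset.add_sum_erase E θ hj
        linarith
      rw [h3]
      have := h1 j
      linarith
    have h4 : s * (M ^ m / (m.factorial : ℝ))
        ≤ ((m : ℝ) + 1) * ∑ J ∈ powersetCard (m + 1) E, ∏ j ∈ J, θ j := by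
      rw [hstep, hsd, Finset.sum_mul]
      exact Finset.sum_le_sum h2
    have h5 : M * (M ^ m / (m.factorial : ℝ)) ≤ s * (M ^ m / (m.factorial : ℝ)) := by
      apply mul_le_mul_of_nonneg_right hMs
      positivity
    have hm1 : (0:ℝ) < (m : ℝ) + 1 := by positivity
    have hfac : (0:ℝ) < (m.factorial : ℝ) := by positivity
    have h6 : (max (∑ j ∈ E, θ j - ((m + 1 : ℕ) : ℝ)) 0) ^ (m + 1) / ((m + 1).factorial : ℝ)
        = M * (M ^ m / (m.factorial : ℝ)) / ((m : ℝ) + 1) := by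
      rw [← hsd, Nat.factorial_succ]
      push_cast
      rw [← hM, pow_succ]
      field_simp
    rw [h6, div_le_iff₀ hm1]
    linarith

theorem fam_count (r k m : ℕ) (hm : 1 ≤ m) (lam : ℝ) (h0 : 0 < lam)
    (w : Fin r → Finset (Fin k) → ℝ) (hw : ∀ i E, 0 ≤ w i E) (h1 : ∑ i, ∑ E, w i E ≤ 1)
    (h2 : ∀ j, lam ≤ ∑ i, ∑ E ∈ univ.filter (fun E => j ∈ E), w i E)
    (G : Finset (Finset (Fin k)))
    (hG : ∀ i E, 0 < w i E → ∀ J ⊆ E, J.card = m → J ∈ G) (hk : (m : ℝ) ≤ lam * k) :
    lam ^ (m - 1) * (1 - m / (lam * k)) ^ m * (k.choose m : ℝ) ≤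
      ((G.filter (fun J => J.card = m)).card : ℝ) := by
  classical
  obtain ⟨P, hP⟩ : ∃ P : Fin k → ℝ, ∀ j, P j = ∑ i, ∑ E ∈ univ.filter (fun E => j ∈ E), w i E :=
    ⟨_, fun _ => rfl⟩
  have hPl : ∀ j, lam ≤ P j := fun j => by rw [hP]; exact h2 j
  have hP0 : ∀ j, 0 < P j := fun j => lt_of_lt_of_le h0 (hPl j)
  obtain ⟨θ, hθ⟩ : ∃ θ : Fin k → ℝ, ∀ j, θ j = lam / P j := ⟨_, fun _ => rfl⟩
  have hθ0 : ∀ j, 0 ≤ θ j := fun j => by rw [hθ]; exact div_nonneg h0.le (hP0 j).le
  have hθ1 : ∀ j, θ j ≤ 1 := fun j => by rw [hθ]; exact (div_le_one (hP0 j)).2 (hPl j)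
  have hθP : ∀ j, θ j * P j = lam := fun j => by rw [hθ]; exact div_mul_cancel₀ _ (hP0 j).ne'
  obtain ⟨M, hM⟩ : ∃ M : Finset (Fin k) → ℝ, ∀ J, M J
      = (∏ j ∈ J, θ j) * ∑ i, ∑ E ∈ univ.filter (fun E => J ⊆ E), w i E := ⟨_, fun _ => rfl⟩
  -- upper bound
  have hMub : ∀ J ∈ powersetCard m (univ : Finset (Fin k)), M J ≤ if J ∈ G then lam else 0 := by
    intro J hJ
    have hJc : J.card = m := (mem_powersetCard.1 hJ).2
    by_cases hJG : J ∈ G
    · rw [if_pos hJG, hM]
      obtain ⟨j0, hj0⟩ : J.Nonempty := by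
        rw [← Finset.card_pos]
        omega
      have e1 : ∏ j ∈ J, θ j ≤ θ j0 := by
        rw [← Finset.mul_prod_erase J θ hj0]
        have : ∏ i ∈ J.erase j0, θ i ≤ 1 := Finset.prod_le_one (fun i _ => hθ0 i) (fun i _ => hθ1 i)
        nlinarith [hθ0 j0]
      have e2 : ∑ i, ∑ E ∈ univ.filter (fun E => J ⊆ E), w i E ≤ P j0 := by
        rw [hP]
        apply Finset.sum_le_sum
        intro i _
        apply Finset.sum_le_sum_of_subset_of_nonneg
        · intro E hE
          rw [mem_filter] at hE ⊢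
          exact ⟨hE.1, hE.2 hj0⟩
        · intro E _ _
          exact hw i E
      have e3 : 0 ≤ ∑ i, ∑ E ∈ univ.filter (fun E => J ⊆ E), w i E :=
        Finset.sum_nonneg (fun i _ => Finset.sum_nonneg (fun E _ => hw i E))
      calc (∏ j ∈ J, θ j) * ∑ i, ∑ E ∈ univ.filter (fun E => J ⊆ E), w i E
          ≤ θ j0 * P j0 := mul_le_mul e1 e2 e3 (hθ0 j0)
        _ = lam := hθP j0
    · rw [if_neg hJG, hM]
      have e4 : ∑ i, ∑ E ∈ univ.filter (fun E => J ⊆ E), w i E = 0 := by
        apply Finset.sum_eq_zero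
        intro i _
        apply Finset.sum_eq_zero
        intro E hE
        by_contra hne
        have hpos : 0 < w i E := lt_of_le_of_ne (hw i E) (Ne.symm hne)
        exact hJG (hG i E hpos J (mem_filter.1 hE).2 hJc)
      rw [e4, mul_zero]
  have hsumub : ∑ J ∈ powersetCard m (univ : Finset (Fin k)), M J
      ≤ lam * ((G.filter (fun J => J.card = m)).card : ℝ) := by
    calc ∑ J ∈ powersetCard m (univ : Finset (Fin k)), M J
        ≤ ∑ J ∈ powersetCard m (univ : Finset (Fin k)), if J ∈ G then lam else 0 :=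
          Finset.sum_le_sum hMub
      _ = ∑ J ∈ (powersetCard m (univ : Finset (Fin k))).filter (fun J => J ∈ G), lam := by
          rw [Finset.sum_filter]
      _ = lam * ((G.filter (fun J => J.card = m)).card : ℝ) := by
          rw [Finset.sum_const, nsmul_eq_mul, mul_comm]
          congr 2
          apply congrArg Finset.card
          ext J
          simp only [mem_filter, mem_powersetCard, subset_univ, true_and]
          tauto
  -- lower bound
  have hexch : ∑ J ∈ powersetCard m (univ : Finset (Fin k)), M J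
      = ∑ i, ∑ E, w i E * ∑ J ∈ powersetCard m E, ∏ j ∈ J, θ j := by
    calc ∑ J ∈ powersetCard m (univ : Finset (Fin k)), M J
        = ∑ J ∈ powersetCard m (univ : Finset (Fin k)), ∑ i, ∑ E,
            if J ⊆ E then w i E * ∏ j ∈ J, θ j else 0 := by
          apply Finset.sum_congr rfl
          intro J _
          rw [hM, Finset.mul_sum]
          apply Finset.sum_congr rfl
          intro i _
          rw [Finset.mul_sum, Finset.sum_filter]
          apply Finset.sum_congr rfl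
          intro E _
          split_ifs <;> ring
      _ = ∑ i, ∑ E, ∑ J ∈ powersetCard m (univ : Finset (Fin k)),
            if J ⊆ E then w i E * ∏ j ∈ J, θ j else 0 := by
          rw [Finset.sum_comm]
          apply Finset.sum_congr rfl
          intro i _
          rw [Finset.sum_comm]
      _ = _ := by
          apply Finset.sum_congr rfl
          intro i _
          apply Finset.sum_congr rfl
          intro E _
          rw [← Finset.sum_filter, Finset.mul_sum]
          apply Finset.sum_congr _ (fun _ _ => rfl)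
          ext J
          simp only [mem_filter, mem_powersetCard, subset_univ, true_and]
          tauto
  obtain ⟨x, hx⟩ : ∃ x : Finset (Fin k) → ℝ, ∀ E, x E = max (∑ j ∈ E, θ j - m) 0 :=
    ⟨_, fun _ => rfl⟩
  have hx0 : ∀ E, 0 ≤ x E := fun E => by rw [hx]; exact le_max_right _ _
  have hfacpos : (0:ℝ) < (m.factorial : ℝ) := by positivity
  have hlow : (∑ i, ∑ E, w i E * x E ^ m) / (m.factorial : ℝ)
      ≤ ∑ J ∈ powersetCard m (univ : Finset (Fin k)), M J := by
    rw [hexch, Finset.sum_div]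
    apply Finset.sum_le_sum
    intro i _
    rw [Finset.sum_div]
    apply Finset.sum_le_sum
    intro E _
    rw [mul_div_assoc]
    apply mul_le_mul_of_nonneg_left _ (hw i E)
    rw [hx]
    exact esymm_lower θ hθ0 hθ1 m E
  -- Jensen
  have hjen : (∑ i, ∑ E, w i E * x E) ^ m ≤ ∑ i, ∑ E, w i E * x E ^ m := by
    have c1 : ∑ i, ∑ E, w i E * x E = ∑ p : Fin r × Finset (Fin k), w p.1 p.2 * x p.2 := by
      rw [Fintype.sum_prod_type]
    have c2 : ∑ i, ∑ E, w i E * x E ^ m = ∑ p : Fin r × Finset (Fin k), w p.1 p.2 * x p.2 ^ m := by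
      rw [Fintype.sum_prod_type]
    have c3 : ∑ p : Fin r × Finset (Fin k), w p.1 p.2 ≤ 1 := by
      rw [Fintype.sum_prod_type]
      exact h1
    rw [c1, c2]
    obtain ⟨W, hW⟩ : ∃ W : ℝ, W = ∑ p : Fin r × Finset (Fin k), w p.1 p.2 := ⟨_, rfl⟩
    have hW0 : 0 ≤ W := by rw [hW]; exact Finset.sum_nonneg (fun p _ => hw p.1 p.2)
    have hW1 : W ≤ 1 := by rw [hW]; exact c3
    rcases hW0.eq_or_lt with hz | hpos
    · have hall : ∀ p ∈ (univ : Finset (Fin r × Finset (Fin k))), w p.1 p.2 = 0 := by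
        apply (Finset.sum_eq_zero_iff_of_nonneg (fun p _ => hw p.1 p.2)).1
        rw [← hW, ← hz]
      rw [Finset.sum_eq_zero (fun p hp => by rw [hall p hp, zero_mul]), zero_pow (by omega)]
      exact Finset.sum_nonneg (fun p _ => mul_nonneg (hw _ _) (pow_nonneg (hx0 _) _))
    · have hj := Real.pow_arith_mean_le_arith_mean_pow (univ : Finset (Fin r × Finset (Fin k)))
        (fun p => w p.1 p.2 / W) (fun p => x p.2) (fun p _ => div_nonneg (hw _ _) hW0)
        (by rw [← Finset.sum_div, ← hW]; exact div_self hpos.ne') (fun p _ => hx0 _) m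
      have d1 : ∑ p : Fin r × Finset (Fin k), w p.1 p.2 / W * x p.2
          = (∑ p : Fin r × Finset (Fin k), w p.1 p.2 * x p.2) / W := by
        rw [Finset.sum_div]
        exact Finset.sum_congr rfl (fun p _ => by ring)
      have d2 : ∑ p : Fin r × Finset (Fin k), w p.1 p.2 / W * x p.2 ^ m
          = (∑ p : Fin r × Finset (Fin k), w p.1 p.2 * x p.2 ^ m) / W := by
        rw [Finset.sum_div]
        exact Finset.sum_congr rfl (fun p _ => by ring)
      rw [d1, d2, div_pow, div_le_div_iff₀ (pow_pos hpos m) hpos] at hj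
      obtain ⟨S, hS⟩ : ∃ S : ℝ, S = ∑ p : Fin r × Finset (Fin k), w p.1 p.2 * x p.2 ^ m := ⟨_, rfl⟩
      obtain ⟨T, hT⟩ : ∃ T : ℝ, T = ∑ p : Fin r × Finset (Fin k), w p.1 p.2 * x p.2 := ⟨_, rfl⟩
      rw [← hS, ← hT] at hj ⊢
      have hS0 : 0 ≤ S := by
        rw [hS]
        exact Finset.sum_nonneg (fun p _ => mul_nonneg (hw _ _) (pow_nonneg (hx0 _) _))
      obtain ⟨m', rfl⟩ : ∃ m', m = m' + 1 := ⟨m - 1, by omega⟩
      have d3 : W ^ (m' + 1) ≤ W := by
        rw [pow_succ]
        have : W ^ m' ≤ 1 := pow_le_one₀ hW0 hW1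
        nlinarith
      have d4 : T ^ (m' + 1) * W ≤ S * W := hj.trans (mul_le_mul_of_nonneg_left d3 hS0)
      exact le_of_mul_le_mul_right d4 hpos
  have hmean : lam * k - m ≤ ∑ i, ∑ E, w i E * x E := by
    have f1 : ∑ i, ∑ E, w i E * (∑ j ∈ E, θ j - m) ≤ ∑ i, ∑ E, w i E * x E := by
      apply Finset.sum_le_sum
      intro i _
      apply Finset.sum_le_sum
      intro E _
      apply mul_le_mul_of_nonneg_left _ (hw i E)
      rw [hx]
      exact le_max_left _ _
    have f2 : ∑ i, ∑ E, w i E * ∑ j ∈ E, θ j = lam * k := by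
      calc ∑ i, ∑ E, w i E * ∑ j ∈ E, θ j
          = ∑ i, ∑ E, ∑ j, if j ∈ E then θ j * w i E else 0 := by
            apply Finset.sum_congr rfl
            intro i _
            apply Finset.sum_congr rfl
            intro E _
            rw [Finset.mul_sum, ← Finset.sum_filter]
            have : univ.filter (fun j => j ∈ E) = E := by
              ext j
              simp
            rw [this]
            exact Finset.sum_congr rfl (fun j _ => mul_comm _ _)
        _ = ∑ i, ∑ j, ∑ E, if j ∈ E then θ j * w i E else 0 := by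
            apply Finset.sum_congr rfl
            intro i _
            rw [Finset.sum_comm]
        _ = ∑ j, ∑ i, ∑ E, if j ∈ E then θ j * w i E else 0 := by
            rw [Finset.sum_comm]
        _ = ∑ j : Fin k, lam := by
            apply Finset.sum_congr rfl
            intro j _
            rw [← hθP j, hP, Finset.mul_sum]
            apply Finset.sum_congr rfl
            intro i _
            rw [← Finset.sum_filter, Finset.mul_sum]
        _ = lam * k := by
            rw [Finset.sum_const, Finset.card_univ, Fintype.card_fin, nsmul_eq_mul, mul_comm]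
    have f3 : ∑ i, ∑ E, w i E * (∑ j ∈ E, θ j - m) = lam * k - m * ∑ i, ∑ E, w i E := by
      rw [← f2, Finset.mul_sum, ← Finset.sum_sub_distrib]
      apply Finset.sum_congr rfl
      intro i _
      rw [Finset.mul_sum, ← Finset.sum_sub_distrib]
      apply Finset.sum_congr rfl
      intro E _
      ring
    have f4 : (m : ℝ) * ∑ i, ∑ E, w i E ≤ m := by
      have : (0:ℝ) ≤ m := Nat.cast_nonneg m
      nlinarith
    linarith
  have hm0 : (0:ℝ) < m := by exact_mod_cast hm
  have hkpos : 0 < lam * k := lt_of_lt_of_le hm0 hk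
  have hkR : (0:ℝ) < k := by
    by_contra hneg
    have : (k:ℝ) ≤ 0 := not_lt.1 hneg
    nlinarith
  have hmain : (lam * k - m) ^ m / (m.factorial : ℝ)
      ≤ lam * ((G.filter (fun J => J.card = m)).card : ℝ) := by
    refine le_trans ?_ (hlow.trans hsumub)
    apply div_le_div_of_nonneg_right _ hfacpos.le
    exact (pow_le_pow_left₀ (by linarith) hmean m).trans hjen
  have hch : (k.choose m : ℝ) ≤ (k : ℝ) ^ m / (m.factorial : ℝ) := Nat.choose_le_pow_div m k
  have hq0 : 0 ≤ 1 - m / (lam * k) := by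
    rw [sub_nonneg, div_le_one hkpos]
    exact hk
  have hfinal : lam ^ (m - 1) * (1 - m / (lam * k)) ^ m * ((k : ℝ) ^ m / (m.factorial : ℝ))
      = (lam * k - m) ^ m / (m.factorial : ℝ) / lam := by
    have g1 : lam * k - m = lam * k * (1 - m / (lam * k)) := by
      rw [mul_sub, mul_div_cancel₀ _ hkpos.ne', mul_one]
    obtain ⟨q, hq⟩ : ∃ q : ℝ, q = 1 - m / (lam * k) := ⟨_, rfl⟩
    rw [← hq] at g1 ⊢
    rw [g1]
    obtain ⟨m', rfl⟩ : ∃ m', m = m' + 1 := ⟨m - 1, by omega⟩
    have : m' + 1 - 1 = m' := by omega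
    rw [this, mul_pow, mul_pow, pow_succ lam m']
    field_simp
  calc lam ^ (m - 1) * (1 - m / (lam * k)) ^ m * (k.choose m : ℝ)
      ≤ lam ^ (m - 1) * (1 - m / (lam * k)) ^ m * ((k : ℝ) ^ m / (m.factorial : ℝ)) := by
        apply mul_le_mul_of_nonneg_left hch
        positivity
    _ = (lam * k - m) ^ m / (m.factorial : ℝ) / lam := hfinal
    _ ≤ ((G.filter (fun J => J.card = m)).card : ℝ) := by
        rw [div_le_iff₀ h0, mul_comm _ lam]
        exact hmain

end Pool.Agent.H21.QT
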