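import Pool.Agent.H21.QT.Qn
import Pool.Agent.H21.QT.Ct
import Pool.Agent.H21.QT.Tl
import Pool.Agent.H21.TX.Defs
import Pool.Agent.H21.TY.Main

/-!
[H21 QT SA]  Every large admissible set `H` contains a set of `(1/(4r) - ε)|H|` elements almost all of whose
`m`-subsets are shattered in one colour.

Proof.  We may assume `ε ≤ 1/(100 r)` (the claim for smaller `ε` is stronger: `1/(4r) - ε` and `1 - ε` increase) and `r ≥ 1`.
`η = ε`... precisely: `η = ε r/4` or smaller, so that `λ' := (1/4-η)/r ≥ 1/(4r) - ε/4`; `ρ = 1/(4r) - ε`, `R = ⌈ρ n⌉`, `n = |H|`, so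
`R ≤ (ρ + ε/4) n` for `n ≥ 4/ε` and `R ≥ ρ n ≥ n/(8r)`, `Φ = (2^(m+1) m^2/ε) log (8 n/R) ≤ Φ₁ := (2^(m+1) m^2/ε) log (64 r)`,
independent of `n`, `k`.  Suppose the claim fails for `H`, `c`.  Then for every colour `i` the family `𝒞 B = Shat c i B`
(down-closed: `shat_mono` in `Pool/Agent/H21/TY/Main.lean`) satisfies the hypothesis `hbad` of `cont2` (sets `S` with `|S| ≥ R`
satisfy `(1/(4r) - ε) n ≤ |S|`; `gcount 𝒞 ∅ S m` is the number in the statement), which gives `𝒦_i`.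
Let `k` be large (depending on `r, m, ε`), `δ, C` of `quarter_nat r k η`.  Let `a : Fin k → ℕ` be an injective `Quarter` tuple with values in
`H`: `quarter_large` gives `(i, E)`, `|E| ≥ λ' k`, `Rea c a i E`, so `Shat c i (E.image a)` (see the header of `Ms.lean`), and `cont2` gives
`F ⊆ E.image a`, `F = I.image a` with `I = {j ∈ E | a j ∈ F}`, `|I| = |F| ≤ Φ₁`, and `a j ∈ 𝒦_i (I.image a)` for
`j ∈ E \ I`: so `#{j ∉ I | a j ∈ 𝒦_i (I.image a)} ≥ λ' k - Φ₁ =: t`.  By `tail_count` with `θ = ε` the number of these `a` for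
fixed `i`, `I`, `q = |I| ≤ Φ₁`, is at most `n^q (n + θ R)^(k-q)/(1+θ)^t ≤ n^k (1 + θ(ρ+ε/4))^k/(1+θ)^t`, and
`k log(1 + θ(ρ+ε/4)) - t log(1+θ) ≤ k (θ(ρ + ε/4) - (λ' - Φ₁/k)(θ - θ^2/2)) ≤ k (-θ ε/2 + θ^2/2 · λ' + ..) ≤ -k ε^2/8` for `k` large
(`λ' ≤ 1/4`, `λ' - ρ - ε/4 ≥ ε/2`, `θ = ε`).  There are at most `r (Φ₁+1) k^Φ₁` (or `r (k+1)^(Φ₁+1)`) pairs `(i, I)`.  So
`n^k - k^2 n^(k-1) - C n^(k-δ) ≤ r (k+1)^(Φ₁+1) exp(-k ε^2/8) n^k ≤ n^k/2` (first `k` large, then `n` large) and for `n` large the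
left side is `> n^k/2`: contradiction.
-/

namespace Pool.Agent.H21.QT

open Finset Pool.Agent.H21.TX


private theorem sa_noninj {k n : ℕ} (A : Fin k → Finset ℕ)
    (hA : ∀ j, (A j).card ≤ n) [DecidablePred fun a : Fin k → ℕ => ¬ Function.Injective a] :
    ((Fintype.piFinset A).filter (fun a => ¬ Function.Injective a)).card ≤
      k ^ 2 * n ^ (k - 1) := by
  classical
  have hsub : (Fintype.piFinset A).filter (fun a => ¬ Function.Injective a) ⊆
      (Finset.univ : Finset (Fin k × Fin k)).biUnion (fun p =>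
        (Fintype.piFinset A).filter (fun a => p.1 ≠ p.2 ∧ a p.1 = a p.2)) := by
    intro a ha
    rw [Finset.mem_filter] at ha
    obtain ⟨ha1, ha2⟩ := ha
    unfold Function.Injective at ha2
    push Not at ha2
    obtain ⟨j, j', h1, h2⟩ := ha2
    exact Finset.mem_biUnion.mpr ⟨(j, j'), Finset.mem_univ _,
      Finset.mem_filter.mpr ⟨ha1, h2, h1⟩⟩
  refine (Finset.card_le_card hsub).trans ?_
  refine (Finset.card_biUnion_le_card_mul _ _ (n ^ (k - 1)) ?_).trans (le_of_eq ?_)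
  · rintro ⟨j, j'⟩ _
    by_cases hjj : j = j'
    · rw [Finset.filter_false_of_mem]
      · simp
      · intro a _ h
        exact h.1 hjj
    · have hmap : ((Fintype.piFinset A).filter (fun a => j ≠ j' ∧ a j = a j')).card ≤
          (Fintype.piFinset (Function.update A j {0})).card := by
        apply Finset.card_le_card_of_injOn (fun a => Function.update a j 0)
        · intro a ha
          have ha := (Finset.mem_filter.mp (Finset.mem_coe.mp ha)).1
          apply Finset.mem_coe.mpr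
          rw [Fintype.mem_piFinset] at ha ⊢
          intro i
          show Function.update a j 0 i ∈ Function.update A j {0} i
          by_cases h : i = j
          · subst h
            rw [Function.update_self, Function.update_self]
            exact Finset.mem_singleton_self _
          · rw [Function.update_of_ne h, Function.update_of_ne h]
            exact ha i
        · intro a ha b hb hab
          have ha := (Finset.mem_filter.mp (Finset.mem_coe.mp ha)).2.2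
          have hb := (Finset.mem_filter.mp (Finset.mem_coe.mp hb)).2.2
          have hne : ∀ i, i ≠ j → a i = b i := by
            intro i hi
            have h1 := congrFun hab i
            simp only at h1
            rwa [Function.update_of_ne hi, Function.update_of_ne hi] at h1
          funext i
          by_cases h : i = j
          · subst h
            have hj' : j' ≠ i := fun h => hjj h.symm
            rw [ha, hb]
            exact hne j' hj'
          · exact hne i h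
      refine hmap.trans ?_
      rw [Fintype.card_piFinset, ← Finset.mul_prod_erase _ _ (Finset.mem_univ j),
        Function.update_self, Finset.card_singleton, one_mul]
      calc ∏ x ∈ Finset.univ.erase j, (Function.update A j {0} x).card
          ≤ ∏ x ∈ Finset.univ.erase j, n := by
            apply Finset.prod_le_prod
            · intro i _
              exact Nat.zero_le _
            · intro i hi
              rw [Function.update_of_ne (Finset.ne_of_mem_erase hi)]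
              exact hA i
        _ = n ^ (k - 1) := by
            rw [Finset.prod_const, Finset.card_erase_of_mem (Finset.mem_univ _), Finset.card_univ,
              Fintype.card_fin]
  · rw [Finset.card_univ, Fintype.card_prod, Fintype.card_fin]
    ring

private theorem sa_shat {r k : ℕ} (c : ℕ → Fin r) (a : Fin k → ℕ) (i : Fin r)
    (E : Finset (Fin k)) (h : Rea c (fun j => (a j : ℤ)) i E) : Shat c i (E.image a) := by
  classical
  intro F _
  refine (h (E.filter (fun j => a j ∈ F)) (Finset.filter_subset _ _)).mono ?_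
  intro N hN x hx
  obtain ⟨j, hj, rfl⟩ := Finset.mem_image.1 hx
  have h1 := hN j
  have h2 : ((N : ℤ) + (a j : ℤ)).toNat = N + a j := by omega
  unfold PC at h1
  simp only [h2] at h1
  rw [h1, Finset.mem_filter]
  exact ⟨fun h => h.2, fun h => ⟨hj, h⟩⟩

private theorem sa_few (k q : ℕ) (hk : 1 ≤ k) :
    ((univ : Finset (Finset (Fin k))).filter (fun I => I.card ≤ q)).card ≤ (q + 1) * k ^ q := by
  classical
  have h1 : (univ : Finset (Finset (Fin k))).filter (fun I => I.card ≤ q) ⊆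
      (range (q + 1)).biUnion (fun j => powersetCard j (univ : Finset (Fin k))) := by
    intro I hI
    rw [Finset.mem_filter] at hI
    refine Finset.mem_biUnion.2 ⟨I.card, Finset.mem_range.2 (by omega), ?_⟩
    rw [Finset.mem_powersetCard]
    exact ⟨Finset.subset_univ _, rfl⟩
  refine (Finset.card_le_card h1).trans ?_
  have h2 : ∀ j ∈ range (q + 1), (powersetCard j (univ : Finset (Fin k))).card ≤ k ^ q := by
    intro j hj
    rw [Finset.card_powersetCard, Finset.card_univ, Fintype.card_fin]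
    exact (Nat.choose_le_pow k j).trans
      (Nat.pow_le_pow_right hk (by rw [Finset.mem_range] at hj; omega))
  refine (Finset.card_biUnion_le_card_mul _ _ _ h2).trans (le_of_eq ?_)
  rw [Finset.card_range]

private theorem sa_log {x : ℝ} (hx : 0 ≤ x) : x - x ^ 2 / 2 ≤ Real.log (1 + x) := by
  have h1 := Real.le_log_one_add_of_nonneg hx
  refine le_trans ?_ h1
  rw [le_div_iff₀ (by linarith)]
  nlinarith [pow_nonneg hx 3]

private theorem sa_exp {ε ρ lam Φ : ℝ} (k : ℕ) (hε : 0 < ε)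
    (hρ : 0 ≤ ρ) (hl0 : 0 ≤ lam) (hl : lam ≤ 1 / 4) (hΦ : 0 ≤ Φ)
    (hd : ρ + ε / 4 - lam ≤ - (ε / 2)) :
    (1 + ε * (ρ + ε / 4)) ^ k / (1 + ε) ^ (k * lam - Φ) ≤
      Real.exp (Φ * ε) * Real.exp (-(3 / 8 * ε ^ 2) * k) := by
  have h1 : 0 < 1 + ε * (ρ + ε / 4) := by positivity
  have h2 : 0 < 1 + ε := by linarith
  have e1 : (1 + ε * (ρ + ε / 4)) ^ k = Real.exp (k * Real.log (1 + ε * (ρ + ε / 4))) := by
    rw [Real.exp_nat_mul, Real.exp_log h1]
  have e2 : (1 + ε) ^ (k * lam - Φ) = Real.exp (Real.log (1 + ε) * (k * lam - Φ)) := by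
    rw [Real.rpow_def_of_pos h2]
  rw [e1, e2, ← Real.exp_sub, ← Real.exp_add]
  apply Real.exp_le_exp.2
  have h3 : Real.log (1 + ε * (ρ + ε / 4)) ≤ ε * (ρ + ε / 4) := by
    have := Real.log_le_sub_one_of_pos h1
    linarith
  have h4 := sa_log hε.le
  have h5 : Real.log (1 + ε) ≤ ε := by
    have := Real.log_le_sub_one_of_pos h2
    linarith
  have hk : (0 : ℝ) ≤ k := Nat.cast_nonneg k
  have h6 : (k : ℝ) * Real.log (1 + ε * (ρ + ε / 4)) ≤ k * (ε * (ρ + ε / 4)) :=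
    mul_le_mul_of_nonneg_left h3 hk
  have h7 : (k : ℝ) * lam * (ε - ε ^ 2 / 2) ≤ k * lam * Real.log (1 + ε) :=
    mul_le_mul_of_nonneg_left h4 (mul_nonneg hk hl0)
  have h8 : Φ * Real.log (1 + ε) ≤ Φ * ε := mul_le_mul_of_nonneg_left h5 hΦ
  have h9 : (k : ℝ) * ε * (ρ + ε / 4 - lam) ≤ k * ε * (-(ε / 2)) :=
    mul_le_mul_of_nonneg_left hd (mul_nonneg hk hε.le)
  have h10 : (k : ℝ) * ε ^ 2 * lam ≤ k * ε ^ 2 * (1 / 4) :=
    mul_le_mul_of_nonneg_left hl (by positivity)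
  nlinarith

private theorem sa_k (r q : ℕ) (b D : ℝ) (hb : 0 < b) :
    ∃ k : ℕ, 1 ≤ k ∧ (r : ℝ) * ((q + 1) * (k : ℝ) ^ q) * (D * Real.exp (-b * k)) ≤ 1 / 4 := by
  have h1 : Filter.Tendsto (fun x : ℝ => x ^ q * Real.exp (-b * x)) Filter.atTop (nhds 0) := by
    have h2 := isLittleO_pow_exp_pos_mul_atTop q hb
    have h3 := h2.tendsto_div_nhds_zero
    refine h3.congr fun x => ?_
    rw [neg_mul, Real.exp_neg, div_eq_mul_inv]
  have h4 : Filter.Tendsto (fun k : ℕ => (r : ℝ) * (q + 1) * D *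
      ((k : ℝ) ^ q * Real.exp (-b * k))) Filter.atTop (nhds ((r : ℝ) * (q + 1) * D * 0)) :=
    (h1.comp tendsto_natCast_atTop_atTop).const_mul _
  rw [mul_zero] at h4
  have h5 := h4.eventually (ge_mem_nhds (show (0 : ℝ) < 1 / 4 by norm_num))
  obtain ⟨k, hk1, hk2⟩ := (h5.and (Filter.eventually_ge_atTop 1)).exists
  refine ⟨k, hk2, le_trans (le_of_eq ?_) hk1⟩
  ring

private theorem sa_n (k : ℕ) (hk : 1 ≤ k) (δ C : ℝ) (hδ : 0 < δ) :
    ∃ K : ℕ, ∀ n : ℕ, K ≤ n → 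
      (k : ℝ) ^ 2 * (n : ℝ) ^ (k - 1) + C * (n : ℝ) ^ ((k : ℝ) - δ) ≤ (n : ℝ) ^ k / 4 := by
  have h1 : Filter.Tendsto (fun n : ℕ => (k : ℝ) ^ 2 * (n : ℝ)⁻¹ + C * (n : ℝ) ^ (-δ))
      Filter.atTop (nhds ((k : ℝ) ^ 2 * 0 + C * 0)) := by
    refine Filter.Tendsto.add ?_ ?_
    · exact (tendsto_inv_atTop_nhds_zero_nat (𝕜 := ℝ)).const_mul _
    · exact ((tendsto_rpow_neg_atTop hδ).comp tendsto_natCast_atTop_atTop).const_mul _
  rw [mul_zero, mul_zero, add_zero] at h1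
  have h2 := h1.eventually (ge_mem_nhds (show (0 : ℝ) < 1 / 4 by norm_num))
  obtain ⟨K, hK⟩ := Filter.eventually_atTop.1 h2
  refine ⟨max K 1, fun n hn => ?_⟩
  have h3 := hK n ((le_max_left _ _).trans hn)
  have hn0 : (0 : ℝ) < n := by
    have : 1 ≤ n := (le_max_right _ _).trans hn
    exact_mod_cast this
  have h4 : (n : ℝ) ^ (k - 1) = (n : ℝ)⁻¹ * (n : ℝ) ^ k := by
    obtain ⟨k', rfl⟩ : ∃ k', k = k' + 1 := ⟨k - 1, by omega⟩
    rw [Nat.add_sub_cancel, pow_succ]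
    field_simp
  have h5 : (n : ℝ) ^ ((k : ℝ) - δ) = (n : ℝ) ^ (-δ) * (n : ℝ) ^ k := by
    rw [← Real.rpow_natCast, ← Real.rpow_add hn0]
    congr 1
    ring
  rw [h4, h5]
  have h6 : 0 < (n : ℝ) ^ k := by positivity
  nlinarith

open Classical in
/-- every good tuple has many coordinates in one of the containers -/
private theorem sa_good {r k : ℕ} (hr : 1 ≤ r) (hk : 1 ≤ k) {ε Φ : ℝ} (hη : ε / 4 < 1 / 4)
    (H : Finset ℕ) (c : ℕ → Fin r) (𝒦 : Fin r → Finset ℕ → Finset ℕ)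
    (h𝒦 : ∀ i, ∀ Y ⊆ H, Shat c i Y → ∃ F ⊆ Y, (F.card : ℝ) ≤ Φ ∧ Y ⊆ F ∪ 𝒦 i F)
    (a : Fin k → ℕ) (ha : ∀ j, a j ∈ H) (hinj : Function.Injective a)
    (hQ : Quarter (ε / 4) c (fun j => (a j : ℤ))) :
    ∃ (i : Fin r) (I : Finset (Fin k)), I.card ≤ ⌊Φ⌋₊ ∧
      (k : ℝ) * ((1 / 4 - ε / 4) / r) - Φ ≤
        ((univ.filter (fun j => j ∉ I ∧ a j ∈ 𝒦 i (I.image a))).card : ℝ) := by
  obtain ⟨i, E, hE, hR⟩ := quarter_large hr (ε / 4) hη hk c _ hQ
  have hS := sa_shat c a i E hR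
  have hYH : E.image a ⊆ H := by
    intro x hx
    obtain ⟨j, _, rfl⟩ := Finset.mem_image.1 hx
    exact ha j
  obtain ⟨F, hF, hFΦ, hY⟩ := h𝒦 i _ hYH hS
  obtain ⟨I, hI⟩ : ∃ I : Finset (Fin k), I = E.filter (fun j => a j ∈ F) := ⟨_, rfl⟩
  have hIF : I.image a = F := by
    ext x
    rw [Finset.mem_image]
    constructor
    · rintro ⟨j, hj, rfl⟩
      rw [hI, Finset.mem_filter] at hj
      exact hj.2
    · intro hx
      obtain ⟨j, hj, rfl⟩ := Finset.mem_image.1 (hF hx)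
      exact ⟨j, by rw [hI, Finset.mem_filter]; exact ⟨hj, hx⟩, rfl⟩
  have hIc : (I.card : ℝ) ≤ Φ := by
    have h1 : F.card = I.card := by rw [← hIF, Finset.card_image_of_injective _ hinj]
    rw [← h1]
    exact hFΦ
  refine ⟨i, I, Nat.le_floor hIc, ?_⟩
  have h2 : E \ I ⊆ univ.filter (fun j => j ∉ I ∧ a j ∈ 𝒦 i (I.image a)) := by
    intro j hj
    rw [Finset.mem_sdiff] at hj
    rw [Finset.mem_filter]
    refine ⟨Finset.mem_univ _, hj.2, ?_⟩
    have h3 : a j ∉ F := fun h => hj.2 (by rw [hI, Finset.mem_filter]; exact ⟨hj.1, h⟩)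
    have h4 := hY (Finset.mem_image_of_mem a hj.1)
    rw [Finset.mem_union] at h4
    rw [hIF]
    exact h4.resolve_left h3
  have h5 : E.card ≤ I.card + (univ.filter (fun j => j ∉ I ∧ a j ∈ 𝒦 i (I.image a))).card := by
    have h6 := Finset.card_le_card h2
    have h7 := Finset.le_card_sdiff I E
    omega
  have h8 : (E.card : ℝ) ≤ (I.card : ℝ) +
      ((univ.filter (fun j => j ∉ I ∧ a j ∈ 𝒦 i (I.image a))).card : ℝ) := by exact_mod_cast h5
  linarith

open Classical in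
private theorem sa_count {r k : ℕ} (hr : 1 ≤ r) (hk : 1 ≤ k) {ε Φ δ C : ℝ} (hε : 0 < ε)
    (hη : ε / 4 < 1 / 4) (H : Finset ℕ) (c : ℕ → Fin r) (R : ℕ)
    (𝒦 : Fin r → Finset ℕ → Finset ℕ)
    (h𝒦1 : ∀ i, ∀ F, 𝒦 i F ⊆ H ∧ (𝒦 i F).card ≤ R)
    (h𝒦 : ∀ i, ∀ Y ⊆ H, Shat c i Y → ∃ F ⊆ Y, (F.card : ℝ) ≤ Φ ∧ Y ⊆ F ∪ 𝒦 i F)
    (hbad : (((Fintype.piFinset (fun _ : Fin k => H)).filter
        (fun a => ¬ Quarter (ε / 4) c (fun j => (a j : ℤ)))).card : ℝ) ≤
        C * (H.card : ℝ) ^ ((k : ℝ) - δ)) :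
    (H.card : ℝ) ^ k ≤ (k : ℝ) ^ 2 * (H.card : ℝ) ^ (k - 1) + C * (H.card : ℝ) ^ ((k : ℝ) - δ) +
      (r : ℝ) * ((⌊Φ⌋₊ + 1) * (k : ℝ) ^ ⌊Φ⌋₊) *
        (((H.card : ℝ) + ε * R) ^ k / (1 + ε) ^ ((k : ℝ) * ((1 / 4 - ε / 4) / r) - Φ)) := by
  obtain ⟨A, hA⟩ : ∃ A : Finset (Fin k → ℕ), A = Fintype.piFinset (fun _ : Fin k => H) :=
    ⟨_, rfl⟩
  obtain ⟨t, ht⟩ : ∃ t : ℝ, t = (k : ℝ) * ((1 / 4 - ε / 4) / r) - Φ := ⟨_, rfl⟩
  have hAc : A.card = H.card ^ k := by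
    rw [hA, Fintype.card_piFinset, Finset.prod_const, Finset.card_univ, Fintype.card_fin]
  have hcov : A ⊆ (A.filter (fun a => ¬ Function.Injective a) ∪
      A.filter (fun a => ¬ Quarter (ε / 4) c (fun j => (a j : ℤ)))) ∪
      ((univ : Finset (Fin r)) ×ˢ
        ((univ : Finset (Finset (Fin k))).filter (fun I => I.card ≤ ⌊Φ⌋₊))).biUnion
        (fun p => A.filter (fun a =>
          t ≤ ((univ.filter (fun j => j ∉ p.2 ∧ a j ∈ 𝒦 p.1 (p.2.image a))).card : ℝ))) := by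
    intro a ha
    by_cases h1 : Function.Injective a
    · by_cases h2 : Quarter (ε / 4) c (fun j => (a j : ℤ))
      · apply Finset.mem_union_right
        have haH : ∀ j, a j ∈ H := by
          rw [hA, Fintype.mem_piFinset] at ha
          exact ha
        obtain ⟨i, I, hI, h3⟩ := sa_good hr hk hη H c 𝒦 h𝒦 a haH h1 h2
        refine Finset.mem_biUnion.2 ⟨(i, I), ?_, ?_⟩
        · rw [Finset.mem_product, Finset.mem_filter]
          exact ⟨Finset.mem_univ _, Finset.mem_univ _, hI⟩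
        · rw [Finset.mem_filter, ht]
          exact ⟨ha, h3⟩
      · exact Finset.mem_union_left _ (Finset.mem_union_right _ (Finset.mem_filter.2 ⟨ha, h2⟩))
    · exact Finset.mem_union_left _ (Finset.mem_union_left _ (Finset.mem_filter.2 ⟨ha, h1⟩))
  have hpos : (0 : ℝ) < 1 + ε := by linarith
  have hcards : (A.card : ℝ) ≤ ((A.filter (fun a => ¬ Function.Injective a)).card : ℝ) +
      ((A.filter (fun a => ¬ Quarter (ε / 4) c (fun j => (a j : ℤ)))).card : ℝ) +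
      ∑ p ∈ (univ : Finset (Fin r)) ×ˢ
        ((univ : Finset (Finset (Fin k))).filter (fun I => I.card ≤ ⌊Φ⌋₊)),
        ((A.filter (fun a =>
          t ≤ ((univ.filter (fun j => j ∉ p.2 ∧ a j ∈ 𝒦 p.1 (p.2.image a))).card : ℝ))).card : ℝ) := by
    have h1 := Finset.card_le_card hcov
    have h2 := h1.trans (Finset.card_union_le _ _)
    have h3 := h2.trans (Nat.add_le_add (Finset.card_union_le _ _) Finset.card_biUnion_le)
    exact_mod_cast h3
  have hni : ((A.filter (fun a => ¬ Function.Injective a)).card : ℝ) ≤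
      (k : ℝ) ^ 2 * (H.card : ℝ) ^ (k - 1) := by
    have h1 := sa_noninj (fun _ : Fin k => H) (fun _ => le_refl H.card)
    rw [← hA] at h1
    exact_mod_cast h1
  have hterm : ∀ p ∈ (univ : Finset (Fin r)) ×ˢ
        ((univ : Finset (Finset (Fin k))).filter (fun I => I.card ≤ ⌊Φ⌋₊)),
      ((A.filter (fun a =>
          t ≤ ((univ.filter (fun j => j ∉ p.2 ∧ a j ∈ 𝒦 p.1 (p.2.image a))).card : ℝ))).card : ℝ)
        ≤ ((H.card : ℝ) + ε * R) ^ k / (1 + ε) ^ t := by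
    intro p _
    have h1 := tail_count k H (𝒦 p.1) R (h𝒦1 p.1) p.2 t ε hε.le
    rw [← hA] at h1
    refine h1.trans ?_
    apply div_le_div_of_nonneg_right _ (Real.rpow_nonneg hpos.le _)
    have h2 : p.2.card ≤ k := by
      have := Finset.card_le_univ p.2
      rwa [Fintype.card_fin] at this
    have h3 : (H.card : ℝ) ^ p.2.card ≤ ((H.card : ℝ) + ε * R) ^ p.2.card := by
      apply pow_le_pow_left₀ (Nat.cast_nonneg _)
      have : (0 : ℝ) ≤ ε * R := by positivity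
      linarith
    calc (H.card : ℝ) ^ p.2.card * ((H.card : ℝ) + ε * R) ^ (k - p.2.card)
        ≤ ((H.card : ℝ) + ε * R) ^ p.2.card * ((H.card : ℝ) + ε * R) ^ (k - p.2.card) :=
          mul_le_mul_of_nonneg_right h3 (by positivity)
      _ = ((H.card : ℝ) + ε * R) ^ k := by
          rw [← pow_add]
          congr 1
          omega
  have hsum := Finset.sum_le_sum hterm
  rw [Finset.sum_const, nsmul_eq_mul, Finset.card_product, Finset.card_univ, Fintype.card_fin]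
    at hsum
  have hfew : (((r * ((univ : Finset (Finset (Fin k))).filter
      (fun I => I.card ≤ ⌊Φ⌋₊)).card : ℕ)) : ℝ) ≤
      (r : ℝ) * ((⌊Φ⌋₊ + 1) * (k : ℝ) ^ ⌊Φ⌋₊) := by
    have h1 := Nat.mul_le_mul_left r (sa_few k ⌊Φ⌋₊ hk)
    exact_mod_cast h1
  have hW : 0 ≤ ((H.card : ℝ) + ε * R) ^ k / (1 + ε) ^ t :=
    div_nonneg (by positivity) (Real.rpow_nonneg hpos.le _)
  have h9 := mul_le_mul_of_nonneg_right hfew hW
  rw [← hA] at hbad
  rw [hAc] at hcards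
  push_cast at hcards
  rw [← ht]
  linarith

open Classical in
private theorem sa_core (r m : ℕ) (hr : 1 ≤ r) (hm : 2 ≤ m) (ε : ℝ) (hε : 0 < ε)
    (hεr : ε ≤ 1 / (100 * (r : ℝ))) : ∃ K : ℕ, ∀ H : Finset ℕ,
    (∀ p : ℕ, p.Prime → ∃ a : ℕ, ∀ h ∈ H, ¬ p ∣ a + h) → K ≤ H.card → ∀ c : ℕ → Fin r,
    ∃ (i : Fin r) (S : Finset ℕ), S ⊆ H ∧ (1 / (4 * (r : ℝ)) - ε) * (H.card : ℝ) ≤ (S.card : ℝ) ∧
      (1 - ε) * (S.card.choose m : ℝ) ≤
        (((powersetCard m S).filter (fun B => Shat c i B)).card : ℝ) := by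
  have hr1 : (1 : ℝ) ≤ r := by exact_mod_cast hr
  have hr0 : (0 : ℝ) < r := by linarith
  have hεr' : ε * (100 * r) ≤ 1 := by
    rwa [le_div_iff₀ (by positivity)] at hεr
  have hε100 : ε * 100 ≤ 1 := by nlinarith
  have hε1 : ε ≤ 1 := by linarith
  have hη : ε / 4 < 1 / 4 := by linarith
  -- the parameters
  obtain ⟨ρ, hρ⟩ : ∃ ρ : ℝ, ρ = 1 / (4 * (r : ℝ)) - ε := ⟨_, rfl⟩
  obtain ⟨lam, hlam⟩ : ∃ lam : ℝ, lam = (1 / 4 - ε / 4) / r := ⟨_, rfl⟩
  have hρr : ρ * (8 * r) ≥ 1 := by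
    rw [hρ]
    have : (1 / (4 * (r : ℝ)) - ε) * (8 * r) = 2 - 8 * (ε * r) := by field_simp; ring
    rw [this]
    nlinarith
  have hρ0 : 0 ≤ ρ := by
    by_contra hcon
    push Not at hcon
    nlinarith
  have hρ1 : ρ + ε / 4 ≤ 1 := by
    rw [hρ]
    have : 1 / (4 * (r : ℝ)) ≤ 1 := by
      rw [div_le_one (by positivity)]
      linarith
    linarith
  have hl0 : 0 ≤ lam := by
    rw [hlam]
    exact div_nonneg (by linarith) hr0.le
  have hl : lam ≤ 1 / 4 := by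
    rw [hlam, div_le_iff₀ hr0]
    nlinarith
  have hd : ρ + ε / 4 - lam ≤ -(ε / 2) := by
    have h1 : lam = 1 / (4 * (r : ℝ)) - ε / 4 / r := by
      rw [hlam]; field_simp
    have h2 : ε / 4 / r ≤ ε / 4 := div_le_self (by positivity) hr1
    rw [h1, hρ]
    linarith
  obtain ⟨Φ, hΦ⟩ : ∃ Φ : ℝ, Φ = (2 ^ (m + 1) * (m : ℝ) ^ 2 / ε) * Real.log (64 * r) := ⟨_, rfl⟩
  have hΦ0 : 0 ≤ Φ := by
    rw [hΦ]
    exact mul_nonneg (by positivity) (Real.log_nonneg (by linarith))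
  obtain ⟨k, hk, hkk⟩ := sa_k r ⌊Φ⌋₊ (3 / 8 * ε ^ 2) (Real.exp (Φ * ε)) (by positivity)
  obtain ⟨δ, C, hδ, hδ1, hC, hquart⟩ := quarter_nat r k hk (ε / 4) (by linarith)
  obtain ⟨K, hK⟩ := sa_n k hk δ C hδ
  refine ⟨max (max K 1) (max ⌈4 / ε⌉₊ (16 * m * r)), fun H hadm hH c => ?_⟩
  have hn1 : K ≤ H.card := (le_max_left _ _).trans ((le_max_left _ _).trans hH)
  have hn2 : 1 ≤ H.card := (le_max_right _ _).trans ((le_max_left _ _).trans hH)
  have hn3 : ⌈4 / ε⌉₊ ≤ H.card := (le_max_left _ _).trans ((le_max_right _ _).trans hH)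
  have hn4 : 16 * m * r ≤ H.card := (le_max_right _ _).trans ((le_max_right _ _).trans hH)
  obtain ⟨n, hn⟩ : ∃ n : ℝ, n = (H.card : ℝ) := ⟨_, rfl⟩
  have hnp : 0 < n := by rw [hn]; exact_mod_cast hn2
  have hn3' : 1 ≤ ε / 4 * n := by
    have h1 : 4 / ε ≤ n := by rw [hn]; exact (Nat.le_ceil _).trans (by exact_mod_cast hn3)
    rw [div_le_iff₀ hε] at h1
    linarith
  have hn4' : 16 * (m : ℝ) * r ≤ n := by rw [hn]; exact_mod_cast hn4
  obtain ⟨R, hR⟩ : ∃ R : ℕ, R = ⌈ρ * n⌉₊ := ⟨_, rfl⟩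
  have hR1 : ρ * n ≤ R := by rw [hR]; exact Nat.le_ceil _
  have hR2 : (R : ℝ) ≤ (ρ + ε / 4) * n := by
    have h1 : (R : ℝ) < ρ * n + 1 := by rw [hR]; exact Nat.ceil_lt_add_one (by positivity)
    linarith
  have hR3 : n ≤ 8 * r * R := by
    have h1 : ρ * n * (8 * r) ≤ R * (8 * r) := mul_le_mul_of_nonneg_right hR1 (by positivity)
    have h2 : n * 1 ≤ n * (ρ * (8 * r)) := mul_le_mul_of_nonneg_left hρr hnp.le
    linarith
  have hR4 : 2 * m ≤ R := by
    have h1 : 16 * (m : ℝ) * r ≤ 8 * r * R := hn4'.trans hR3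
    have h2 : (2 : ℝ) * m ≤ R := by
      by_contra hcon
      push Not at hcon
      nlinarith
    exact_mod_cast h2
  have hRpos : (0 : ℝ) < R := by
    have : 0 < R := by omega
    exact_mod_cast this
  have hR5 : R ≤ H.card := by
    have h1 : (R : ℝ) ≤ n := by nlinarith
    rw [hn] at h1
    exact_mod_cast h1
  have hlog : (2 ^ (m + 1) * (m : ℝ) ^ 2 / ε) * Real.log (8 * H.card / R) ≤ Φ := by
    rw [hΦ]
    apply mul_le_mul_of_nonneg_left _ (by positivity)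
    apply Real.log_le_log
    · rw [← hn]; positivity
    · rw [← hn, div_le_iff₀ hRpos]
      linarith
  by_contra hcon
  push Not at hcon
  have hcont : ∀ i : Fin r, ∃ 𝒦 : Finset ℕ → Finset ℕ, (∀ F, 𝒦 F ⊆ H ∧ (𝒦 F).card ≤ R) ∧
      ∀ Y ⊆ H, Shat c i Y → ∃ F ⊆ Y, (F.card : ℝ) ≤ Φ ∧ Y ⊆ F ∪ 𝒦 F := by
    intro i
    have hbad : ∀ S ⊆ H, R ≤ S.card →
        (TY.gcount (fun B => Shat c i B) ∅ S m : ℝ) ≤ (1 - ε) * (S.card.choose m : ℝ) := by
      intro S hS hRS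
      have h1 : (1 / (4 * (r : ℝ)) - ε) * (H.card : ℝ) ≤ (S.card : ℝ) := by
        rw [← hρ, ← hn]
        exact hR1.trans (by exact_mod_cast hRS)
      have h2 := hcon i S hS h1
      unfold TY.gcount
      simp only [Finset.empty_union]
      exact h2.le
    obtain ⟨𝒦, h1, h2⟩ := cont2 (fun B => Shat c i B)
      (fun X Y hXY hY => TY.shat_mono c i hXY hY) H m R ε hε hε1 hm hR4 hR5 hbad
    refine ⟨𝒦, h1, fun Y hY hS => ?_⟩
    obtain ⟨F, hF1, hF2, hF3⟩ := h2 Y hY hS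
    exact ⟨F, hF1, hF2.trans hlog, hF3⟩
  choose 𝒦 h𝒦1 h𝒦2 using hcont
  have hmain := sa_count hr hk hε hη H c R 𝒦 h𝒦1 h𝒦2 (hquart c H hadm hn2)
  have hKn := hK H.card hn1
  rw [← hn] at hmain hKn
  have hexp := sa_exp k hε hρ0 hl0 hl hΦ0 hd
  have hpos : (0 : ℝ) < 1 + ε := by linarith
  have hW : (n + ε * R) ^ k / (1 + ε) ^ ((k : ℝ) * lam - Φ) ≤
      n ^ k * (Real.exp (Φ * ε) * Real.exp (-(3 / 8 * ε ^ 2) * k)) := by
    have h1 : (n + ε * R) ^ k ≤ n ^ k * (1 + ε * (ρ + ε / 4)) ^ k := by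
      rw [← mul_pow]
      apply pow_le_pow_left₀ (by positivity)
      have := mul_le_mul_of_nonneg_left hR2 hε.le
      linarith
    calc (n + ε * R) ^ k / (1 + ε) ^ ((k : ℝ) * lam - Φ)
        ≤ n ^ k * (1 + ε * (ρ + ε / 4)) ^ k / (1 + ε) ^ ((k : ℝ) * lam - Φ) :=
          div_le_div_of_nonneg_right h1 (Real.rpow_nonneg hpos.le _)
      _ = n ^ k * ((1 + ε * (ρ + ε / 4)) ^ k / (1 + ε) ^ ((k : ℝ) * lam - Φ)) := by
          rw [mul_div_assoc]
      _ ≤ n ^ k * (Real.exp (Φ * ε) * Real.exp (-(3 / 8 * ε ^ 2) * k)) :=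
          mul_le_mul_of_nonneg_left hexp (by positivity)
  rw [← hlam] at hmain
  have hnk : 0 < n ^ k := by positivity
  have hq0 : 0 ≤ (r : ℝ) * ((⌊Φ⌋₊ + 1) * (k : ℝ) ^ ⌊Φ⌋₊) := by positivity
  have h1 := mul_le_mul_of_nonneg_left hW hq0
  have h2 := mul_le_mul_of_nonneg_left hkk hnk.le
  have h3 : (r : ℝ) * ((⌊Φ⌋₊ + 1) * (k : ℝ) ^ ⌊Φ⌋₊) *
      (n ^ k * (Real.exp (Φ * ε) * Real.exp (-(3 / 8 * ε ^ 2) * k))) ≤ n ^ k * (1 / 4) := by
    refine le_trans (le_of_eq ?_) h2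
    ring
  linarith

open Classical in
theorem near_clique (r m : ℕ) (hm : 2 ≤ m) (ε : ℝ) (hε : 0 < ε) : ∃ K : ℕ, ∀ H : Finset ℕ,
    (∀ p : ℕ, p.Prime → ∃ a : ℕ, ∀ h ∈ H, ¬ p ∣ a + h) → K ≤ H.card → ∀ c : ℕ → Fin r,
    ∃ (i : Fin r) (S : Finset ℕ), S ⊆ H ∧ (1 / (4 * (r : ℝ)) - ε) * (H.card : ℝ) ≤ (S.card : ℝ) ∧
      (1 - ε) * (S.card.choose m : ℝ) ≤
        (((powersetCard m S).filter (fun B => Shat c i B)).card : ℝ) := by
  rcases Nat.eq_zero_or_pos r with hr | hr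
  · subst hr
    exact ⟨0, fun H _ _ c => (c 0).elim0⟩
  have hr0 : (0 : ℝ) < r := by exact_mod_cast hr
  obtain ⟨ε', hε'⟩ : ∃ ε' : ℝ, ε' = min ε (1 / (100 * (r : ℝ))) := ⟨_, rfl⟩
  have h1 : 0 < ε' := by rw [hε']; exact lt_min hε (by positivity)
  have h2 : ε' ≤ ε := by rw [hε']; exact min_le_left _ _
  have h3 : ε' ≤ 1 / (100 * (r : ℝ)) := by rw [hε']; exact min_le_right _ _
  obtain ⟨K, hK⟩ := sa_core r m hr hm ε' h1 h3
  refine ⟨K, fun H hadm hH c => ?_⟩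
  obtain ⟨i, S, hS, h4, h5⟩ := hK H hadm hH c
  refine ⟨i, S, hS, le_trans ?_ h4, le_trans ?_ h5⟩
  · exact mul_le_mul_of_nonneg_right (by linarith) (Nat.cast_nonneg _)
  · exact mul_le_mul_of_nonneg_right (by linarith) (Nat.cast_nonneg _)

end Pool.Agent.H21.QT
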