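import Pool.Agent.H21.QT.Df
import Pool.Agent.H21.SH.Sv
import Pool.Agent.H21.MT.SieveR

/-!
[H21 QT BQ]  The sharp sieve on blocks: every block contains a prime with probability at least `1/4 - η`.

Proof.  As `block_exact` and `blk_sieve2` in `Pool/Agent/H74/BT/Block2.lean` (copy from there), with the sharp
sieve `sieve2` (`Pool/Agent/H21/SH/Sv.lean`) and `kill` (`Pool/Agent/H21/MT/SieveR.lean`).
Choose `e ∈ (0, 1/100]` with `(1-50e)^2/(4(1+50e)^2 + e) ≥ 1/4 - η/2` (continuity at `0`; as `cq_eps` in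
`Pool/Agent/H21/SH/Cq.lean`).  Let `l` be large, `s = 2^l`, `e_j : Fin s ≃ V j`, `x : Fin k × Fin s → ℤ` the
elements (injective), `B = D + ∑ |x i|`, `h i = (x i + B).toNat` (so `(h i : ℤ) = x i + B ≤ 2B`), injective and
admissible (as in `block_exact`).  `kill` for `K = range (2B+1) \ image h`, `H = image h` gives `Q`, `b₀`.
`sieve2 e` with `I = Fin k × Fin s`, constant `τ = e/(k s (l+1))`, `l i = l` (`2^l τ = e/(k(l+1)) ≤ 1/2`,
`∑ (l+1) τ = e`), `Q`, `b₀`, `N0' = max N0 Q`: `T'`, `μ'`.  Put `p = psv e τ l = e τ (l+2)^2/(4 bl l)`, `1 ≤ bl l ≤ 3/2`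
(`cq_bl`), `L = s p`:  `L ≥ e^2 (l+2)^2/(6 k (l+1)) ≥ e^2 l/(6k)` and `p ≤ e^2 (l+2)^2/(4 k (l+1) 2^l)`.
For `Y_j N = #{a | N + h (j,a) prime}`: `∑ μ' Y_j ≥ (1-50e) L`, `∑ μ' Y_j^2 ≤ (1+50e) L + 4 (1+50e)^2 L^2` (`sieve2` with `S = ∅`,
where `(4*0)^0 = 1`, and `S = {a'}`); Cauchy-Schwarz (`2 t Y - t^2 Y^2 ≤ 1_{Y ≥ 1}`, `t` = the quotient of the two moments) gives
`μ'(Y_j ≥ 1) ≥ (1-50e)^2/(4(1+50e)^2 + (1+50e)/L) ≥ 1/4 - η/2` if `(1+50e)/L ≤ e`.  The probability that some block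
is full (all `N + h (j,a)` prime) is at most `k (1+50e) p ≤ η/2` for `l` large.
`T = {N + B | N ∈ T'}`, `μ (N + B) = μ' N` (or `μ N = μ' (N - B)`, all `N ∈ T` are `≥ B`).  For `|y| ≤ D`: `N + B + y = N + g`,
`g = (B + y).toNat ≤ 2B`; if `g ∉ image h` it is killed.
-/

namespace Pool.Agent.H21.QT

open Finset Pool.Agent.H21.SH Pool.Agent.H21.MT

private theorem bq_eps (η : ℝ) (hη : 0 < η) : ∃ e : ℝ, 0 < e ∧ e ≤ 1 / 100 ∧
    1 / 4 - η ≤ (1 - 50 * e) ^ 2 / (4 * (1 + 50 * e) ^ 2 + e) := by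
  have hc : ContinuousAt (fun e : ℝ => (1 - 50 * e) ^ 2 / (4 * (1 + 50 * e) ^ 2 + e)) 0 := by
    apply ContinuousAt.div
    · fun_prop
    · fun_prop
    · simp
  have h1 : Filter.Tendsto (fun e : ℝ => (1 - 50 * e) ^ 2 / (4 * (1 + 50 * e) ^ 2 + e))
      (nhds 0) (nhds (1 / 4)) := by
    have h2 := hc.tendsto
    have h3 : (1 - 50 * (0 : ℝ)) ^ 2 / (4 * (1 + 50 * 0) ^ 2 + 0) = 1 / 4 := by norm_num
    rw [h3] at h2
    exact h2
  have h2 : ∀ᶠ e : ℝ in nhdsWithin 0 (Set.Ioi 0),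
      1 / 4 - η < (1 - 50 * e) ^ 2 / (4 * (1 + 50 * e) ^ 2 + e) :=
    (h1.mono_left nhdsWithin_le_nhds).eventually_const_lt (by linarith)
  have h3 : ∀ᶠ e : ℝ in nhdsWithin 0 (Set.Ioi 0), e ∈ Set.Ioo (0 : ℝ) (1 / 100) :=
    Ioo_mem_nhdsGT (by norm_num)
  obtain ⟨e, he1, he2⟩ := (h2.and h3).exists
  exact ⟨e, he2.1, he2.2.le, he1.le⟩

private theorem bq_bl (l : ℕ) : 1 ≤ bl l ∧ bl l ≤ 3 / 2 := by
  unfold bl
  have h1 : (1 / 2 : ℝ) ^ (l + 1) ≤ (1 / 2 : ℝ) ^ 1 :=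
    pow_le_pow_of_le_one (by norm_num) (by norm_num) (by omega)
  have h2 : (0 : ℝ) < (1 / 2 : ℝ) ^ (l + 1) := by positivity
  constructor <;> linarith

open Classical in
/-- second moment method in one block -/
private theorem bq_block {ι : Type} [Fintype ι] [DecidableEq ι] (l : ℕ) (T : Finset ℕ)
    (μ : ℕ → ℝ) (hμ : ∀ N, 0 ≤ μ N) (h : ι × Fin (2 ^ l) → ℕ) (p δ e : ℝ) (hp : 0 < p)
    (hδ : 0 ≤ δ) (hδ1 : δ ≤ 1) (he : 0 < e) (hL : 1 + δ ≤ e * (2 ^ l * p))
    (hlow : ∀ m, (1 - δ) * p ≤ ∑ N ∈ T.filter (fun N => (N + h m).Prime), μ N)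
    (hup1 : ∀ m, ∑ N ∈ T.filter (fun N => (N + h m).Prime), μ N ≤ (1 + δ) * p)
    (hup2 : ∀ m m', m ≠ m' → ∑ N ∈ T.filter (fun N => (N + h m).Prime ∧ (N + h m').Prime), μ N ≤
      4 * (1 + δ) ^ 2 * p ^ 2) (j : ι) :
    (1 - δ) ^ 2 / (4 * (1 + δ) ^ 2 + e) ≤
      ∑ N ∈ T.filter (fun N => ∃ a, (N + h (j, a)).Prime), μ N := by
  set L : ℝ := 2 ^ l * p with hLdef
  have hL0 : 0 < L := by positivity
  set C : ℝ := 4 * (1 + δ) ^ 2 + e with hC
  have hC0 : 0 < C := by positivity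
  set f : Fin (2 ^ l) → ℕ → ℝ := fun a N => if (N + h (j, a)).Prime then 1 else 0 with hf
  set Y : ℕ → ℝ := fun N => ∑ a, f a N with hY
  -- first moment
  have m1 : (1 - δ) * L ≤ ∑ N ∈ T, μ N * Y N := by
    have h3 : ∑ N ∈ T, μ N * Y N = ∑ a, ∑ N ∈ T.filter (fun N => (N + h (j, a)).Prime), μ N := by
      have h4 : ∀ N ∈ T, μ N * Y N = ∑ a, (if (N + h (j, a)).Prime then μ N else 0) := by
        intro N _
        simp only [hY, hf]
        rw [mul_sum]
        refine sum_congr rfl fun a _ => ?_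
        split_ifs
        · rw [mul_one]
        · rw [mul_zero]
      rw [sum_congr rfl h4, sum_comm]
      refine sum_congr rfl fun a _ => ?_
      rw [sum_filter]
    rw [h3]
    have h5 : ∑ a : Fin (2 ^ l), (1 - δ) * p ≤
        ∑ a, ∑ N ∈ T.filter (fun N => (N + h (j, a)).Prime), μ N :=
      sum_le_sum fun a _ => hlow (j, a)
    rw [sum_const, card_univ, Fintype.card_fin, nsmul_eq_mul] at h5
    push_cast at h5
    refine le_trans (le_of_eq ?_) h5
    rw [hLdef]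
    ring
  -- second moment
  have m2 : ∑ N ∈ T, μ N * (Y N) ^ 2 ≤ C * L ^ 2 := by
    have h3 : ∑ N ∈ T, μ N * (Y N) ^ 2 = ∑ a, ∑ a', ∑ N ∈ T, μ N * (f a N * f a' N) := by
      have h4 : ∀ N ∈ T, μ N * (Y N) ^ 2 = ∑ a, ∑ a', μ N * (f a N * f a' N) := by
        intro N _
        simp only [hY]
        rw [sq, sum_mul_sum, mul_sum]
        refine sum_congr rfl fun a _ => ?_
        rw [mul_sum]
      rw [sum_congr rfl h4, sum_comm]
      refine sum_congr rfl fun a _ => ?_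
      rw [sum_comm]
    rw [h3]
    have h5 : ∀ a a' : Fin (2 ^ l), ∑ N ∈ T, μ N * (f a N * f a' N) ≤
        4 * (1 + δ) ^ 2 * p ^ 2 + (if a = a' then (1 + δ) * p else 0) := by
      intro a a'
      by_cases haa : a = a'
      · subst haa
        rw [if_pos rfl]
        have h6 : ∑ N ∈ T, μ N * (f a N * f a N) =
            ∑ N ∈ T.filter (fun N => (N + h (j, a)).Prime), μ N := by
          rw [sum_filter]
          refine sum_congr rfl fun N _ => ?_
          simp only [hf]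
          by_cases c1 : (N + h (j, a)).Prime <;> simp [c1]
        rw [h6]
        have h7 := hup1 (j, a)
        have h8 : 0 ≤ 4 * (1 + δ) ^ 2 * p ^ 2 := by positivity
        linarith
      · rw [if_neg haa, add_zero]
        have hne' : (j, a) ≠ (j, a') := fun he => haa (Prod.ext_iff.1 he).2
        refine le_trans (le_of_eq ?_) (hup2 _ _ hne')
        rw [sum_filter]
        refine sum_congr rfl fun N _ => ?_
        simp only [hf]
        by_cases c1 : (N + h (j, a)).Prime <;> by_cases c2 : (N + h (j, a')).Prime <;>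
          simp [c1, c2]
    have h6 : ∑ a : Fin (2 ^ l), ∑ a' : Fin (2 ^ l),
        (4 * (1 + δ) ^ 2 * p ^ 2 + (if a = a' then (1 + δ) * p else 0)) =
        4 * (1 + δ) ^ 2 * L ^ 2 + (1 + δ) * L := by
      simp only [sum_add_distrib, sum_const, card_univ, Fintype.card_fin, nsmul_eq_mul,
        sum_ite_eq, mem_univ, if_true]
      push_cast
      rw [hLdef]
      ring
    refine (sum_le_sum fun a _ => sum_le_sum fun a' _ => h5 a a').trans ?_
    rw [h6, hC]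
    have h7 : (1 + δ) * L ≤ e * L * L := mul_le_mul_of_nonneg_right hL hL0.le
    nlinarith
  set t : ℝ := (1 - δ) / (C * L) with ht
  have ht0 : 0 ≤ t := div_nonneg (by linarith) (by positivity)
  have h3 : ∀ N ∈ T, μ N * (2 * t * Y N - t ^ 2 * (Y N) ^ 2) ≤
      (if ∃ a, (N + h (j, a)).Prime then μ N else 0) := by
    intro N _
    by_cases hex : ∃ a, (N + h (j, a)).Prime
    · rw [if_pos hex]
      have h9 : 2 * t * Y N - t ^ 2 * (Y N) ^ 2 ≤ 1 := by nlinarith [sq_nonneg (1 - t * Y N)]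
      calc μ N * (2 * t * Y N - t ^ 2 * (Y N) ^ 2) ≤ μ N * 1 :=
            mul_le_mul_of_nonneg_left h9 (hμ N)
        _ = μ N := mul_one _
    · rw [if_neg hex]
      have : Y N = 0 := by
        simp only [hY, hf]
        refine sum_eq_zero fun a _ => ?_
        rw [if_neg]
        exact fun hp => hex ⟨a, hp⟩
      rw [this]
      simp
  rw [sum_filter]
  refine le_trans ?_ (sum_le_sum h3)
  have h4 : ∑ N ∈ T, μ N * (2 * t * Y N - t ^ 2 * (Y N) ^ 2) =
      2 * t * ∑ N ∈ T, μ N * Y N - t ^ 2 * ∑ N ∈ T, μ N * (Y N) ^ 2 := by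
    rw [mul_sum, mul_sum, ← sum_sub_distrib]
    refine sum_congr rfl fun N _ => ?_
    ring
  rw [h4]
  have h5 : 2 * t * ((1 - δ) * L) ≤ 2 * t * ∑ N ∈ T, μ N * Y N :=
    mul_le_mul_of_nonneg_left m1 (by positivity)
  have h6 : t ^ 2 * ∑ N ∈ T, μ N * (Y N) ^ 2 ≤ t ^ 2 * (C * L ^ 2) :=
    mul_le_mul_of_nonneg_left m2 (by positivity)
  have h7 : 2 * t * ((1 - δ) * L) - t ^ 2 * (C * L ^ 2) = (1 - δ) ^ 2 / C := by
    rw [ht]
    field_simp
    ring
  linarith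

/-- parameters -/
private theorem bq_par (k : ℕ) (hk : 1 ≤ k) (e η : ℝ) (he : 0 < e) (he1 : e ≤ 1 / 100)
    (hη : 0 < η) : ∃ l₀ : ℕ, ∀ l : ℕ, l₀ ≤ l → ∃ τ : ℝ, 0 < τ ∧ (2 : ℝ) ^ l * τ ≤ 1 / 2 ∧
      k * 2 ^ l * (((l : ℝ) + 1) * τ) = e ∧ 0 < psv e τ l ∧
      1 + 50 * e ≤ e * (2 ^ l * psv e τ l) ∧ k * ((1 + 50 * e) * psv e τ l) ≤ η := by
  have hk0 : (0 : ℝ) < k := by exact_mod_cast hk
  have hk1 : (1 : ℝ) ≤ k := by exact_mod_cast hk
  obtain ⟨l1, hl1⟩ := exists_nat_ge (12 * (k : ℝ) / e ^ 3)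
  have hlim : Filter.Tendsto (fun n : ℕ => (n : ℝ) ^ 1 / (2 : ℝ) ^ n) Filter.atTop (nhds 0) :=
    tendsto_pow_const_div_const_pow_of_one_lt 1 (by norm_num)
  have h1 := hlim.eventually_lt_const (show (0 : ℝ) < η / 5 by positivity)
  obtain ⟨l2, hl2⟩ := Filter.eventually_atTop.1 h1
  refine ⟨l1 + l2 + 1, fun l hl => ⟨e / (k * 2 ^ l * ((l : ℝ) + 1)), by positivity, ?_, ?_, ?_, ?_, ?_⟩⟩
  · have hl0 : (0 : ℝ) ≤ l := Nat.cast_nonneg l
    have h2 : (2 : ℝ) ^ l * (e / (k * 2 ^ l * ((l : ℝ) + 1))) = e / (k * ((l : ℝ) + 1)) := by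
      field_simp
    rw [h2, div_le_iff₀ (by positivity)]
    nlinarith [mul_nonneg hk0.le hl0]
  · field_simp
  · obtain ⟨hb1, hb2⟩ := bq_bl l
    unfold psv
    have : 0 < bl l := by linarith
    positivity
  · obtain ⟨hb1, hb2⟩ := bq_bl l
    have hb0 : 0 < bl l := by linarith
    have hll : (l1 : ℝ) ≤ l := by
      have : l1 ≤ l := by omega
      exact_mod_cast this
    have hl0 : (0 : ℝ) ≤ l := Nat.cast_nonneg l
    have h2 : e * (2 ^ l * psv e (e / (k * 2 ^ l * ((l : ℝ) + 1))) l) =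
        e ^ 3 * ((l : ℝ) + 2) ^ 2 / (4 * bl l * k * ((l : ℝ) + 1)) := by
      unfold psv
      field_simp
    rw [h2, le_div_iff₀ (by positivity)]
    have h3 : 12 * (k : ℝ) ≤ l * e ^ 3 := by
      rw [div_le_iff₀ (by positivity)] at hl1
      refine hl1.trans ?_
      exact mul_le_mul_of_nonneg_right hll (by positivity)
    calc (1 + 50 * e) * (4 * bl l * k * ((l : ℝ) + 1)) ≤
        2 * (4 * (3 / 2) * k * ((l : ℝ) + 1)) := by
          have : 1 + 50 * e ≤ 2 := by linarith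
          gcongr
      _ = 12 * k * ((l : ℝ) + 1) := by ring
      _ ≤ l * e ^ 3 * ((l : ℝ) + 1) := by gcongr
      _ = e ^ 3 * (l * ((l : ℝ) + 1)) := by ring
      _ ≤ e ^ 3 * ((l : ℝ) + 2) ^ 2 := by
          have : (l : ℝ) * ((l : ℝ) + 1) ≤ ((l : ℝ) + 2) ^ 2 := by nlinarith
          gcongr
  · obtain ⟨hb1, hb2⟩ := bq_bl l
    have hb0 : 0 < bl l := by linarith
    have hl1' : (1 : ℝ) ≤ l := by
      have : 1 ≤ l := by omega
      exact_mod_cast this
    have hl0 : (0 : ℝ) ≤ l := Nat.cast_nonneg l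
    have h4 := hl2 l (by omega)
    rw [pow_one] at h4
    have h2 : k * ((1 + 50 * e) * psv e (e / (k * 2 ^ l * ((l : ℝ) + 1))) l) =
        (1 + 50 * e) * e ^ 2 * ((l : ℝ) + 2) ^ 2 / (4 * bl l * 2 ^ l * ((l : ℝ) + 1)) := by
      unfold psv
      field_simp
    rw [h2]
    have h5 : (1 + 50 * e) * e ^ 2 * ((l : ℝ) + 2) ^ 2 / (4 * bl l * 2 ^ l * ((l : ℝ) + 1)) ≤
        5 * ((l : ℝ) / 2 ^ l) := by
      rw [← mul_div_assoc, div_le_div_iff₀ (by positivity) (by positivity)]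
      have h6 : ((l : ℝ) + 2) ^ 2 ≤ 5 * l * ((l : ℝ) + 1) := by nlinarith
      have h7 : (1 + 50 * e) * e ^ 2 ≤ 4 := by nlinarith [sq_nonneg e]
      calc (1 + 50 * e) * e ^ 2 * ((l : ℝ) + 2) ^ 2 * 2 ^ l ≤
          4 * (5 * l * ((l : ℝ) + 1)) * 2 ^ l := by gcongr
        _ = 5 * l * (4 * 1 * 2 ^ l * ((l : ℝ) + 1)) := by ring
        _ ≤ 5 * l * (4 * bl l * 2 ^ l * ((l : ℝ) + 1)) := by gcongr
    linarith

open Classical in
theorem blk_quarter (k : ℕ) (hk : 1 ≤ k) (η : ℝ) (hη : 0 < η) : ∃ l₀ : ℕ, ∀ l : ℕ, l₀ ≤ l →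
    ∀ V : Fin k → Finset ℤ, (∀ j j', j ≠ j' → Disjoint (V j) (V j')) →
      (∀ j, (V j).card = 2 ^ l) → AdB V → ∀ D N0 : ℕ,
      ∃ (T : Finset ℕ) (μ : ℕ → ℝ), (∀ N ∈ T, N0 < N) ∧ (∀ N, 0 ≤ μ N) ∧ ∑ N ∈ T, μ N = 1 ∧
        (∀ N ∈ T, ∀ y : ℤ, |y| ≤ D → ((N : ℤ) + y).toNat.Prime → ∃ j, y ∈ V j) ∧
        ∀ j, 1 / 4 - η ≤ ∑ N ∈ T.filter (fun N : ℕ => (∃ x ∈ V j, ((N : ℤ) + x).toNat.Prime) ∧
          ∀ j', ∃ x ∈ V j', ¬ ((N : ℤ) + x).toNat.Prime), μ N := by
  obtain ⟨e, he, he1, heη⟩ := bq_eps (η / 2) (by positivity)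
  obtain ⟨l₀, hl₀⟩ := bq_par k hk e (η / 2) he he1 (by positivity)
  refine ⟨l₀, fun l hl V hdisj hcardV hadmV D N0 => ?_⟩
  obtain ⟨τ, hτ0, hτ1, hτ2, hp0, hpL, hpk⟩ := hl₀ l hl
  obtain ⟨p, hpdef⟩ : ∃ p, p = psv e τ l := ⟨_, rfl⟩
  rw [← hpdef] at hp0 hpL hpk
  let E : ∀ j, Fin (2 ^ l) ≃ V j := fun j => ((V j).equivFinOfCardEq (hcardV j)).symm
  let x : Fin k × Fin (2 ^ l) → ℤ := fun i => ((E i.1 i.2 : V i.1) : ℤ)
  have hxV : ∀ i, x i ∈ V i.1 := fun i => (E i.1 i.2).2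
  have hxsurj : ∀ j, ∀ y ∈ V j, ∃ a, x (j, a) = y := by
    intro j y hy
    refine ⟨(E j).symm ⟨y, hy⟩, ?_⟩
    simp [x]
  have hxinj : Function.Injective x := by
    rintro ⟨j, a⟩ ⟨j', a'⟩ hxx
    have hj : j = j' := by
      by_contra hne
      have h1 := hxV (j, a)
      have h2 := hxV (j', a')
      rw [← hxx] at h2
      exact Finset.disjoint_left.1 (hdisj j j' hne) h1 h2
    subst hj
    have h3 : E j a = E j a' := Subtype.ext hxx
    rw [(E j).injective h3]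
  set B : ℕ := D + ∑ i, (x i).natAbs with hB
  have hBabs : ∀ i, D + (x i).natAbs ≤ B := by
    intro i
    have h1 : (x i).natAbs ≤ ∑ i, (x i).natAbs := single_le_sum (f := fun i => (x i).natAbs)
      (fun _ _ => Nat.zero_le _) (mem_univ i)
    omega
  let h : Fin k × Fin (2 ^ l) → ℕ := fun i => (x i + B).toNat
  have hh : ∀ i, (h i : ℤ) = x i + B := by
    intro i
    refine Int.toNat_of_nonneg ?_
    have h1 := hBabs i
    omega
  have hinj : Function.Injective h := by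
    intro a b hab
    apply hxinj
    have h1 := hh a
    have h2 := hh b
    rw [hab] at h1
    omega
  have hadm : ∀ p : ℕ, p.Prime → ∃ a : ℕ, ∀ i, ¬ p ∣ a + h i := by
    intro p hp
    obtain ⟨b, hb⟩ := hadmV p hp
    have hp0 : (0 : ℤ) < p := by exact_mod_cast hp.pos
    refine ⟨((b - B) % (p : ℤ)).toNat, fun i hdvd => ?_⟩
    apply hb i.1 (x i) (hxV i)
    have h1 : ((((b - B) % (p : ℤ)).toNat : ℕ) : ℤ) = (b - B) % (p : ℤ) :=
      Int.toNat_of_nonneg (Int.emod_nonneg _ hp0.ne')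
    have h2 : (p : ℤ) ∣ ((((b - B) % (p : ℤ)).toNat + h i : ℕ) : ℤ) := by exact_mod_cast hdvd
    rw [Nat.cast_add, h1, hh i] at h2
    have h3 : (p : ℤ) ∣ (b - B) - (b - B) % (p : ℤ) := Int.dvd_self_sub_emod
    have h4 := dvd_add h2 h3
    have h5 : (b - B) % (p : ℤ) + (x i + B) + ((b - B) - (b - B) % (p : ℤ)) = b + x i := by ring
    rw [h5] at h4
    exact h4
  haveI hne : Nonempty (Fin k × Fin (2 ^ l)) := ⟨(⟨0, by omega⟩, ⟨0, by positivity⟩)⟩
  obtain ⟨Q, b₀, hQ, hcop, hcomp⟩ := kill (Finset.range (2 * B + 1) \ (univ.image h))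
    (univ.image h) sdiff_disjoint
  obtain ⟨T', μ', hT', hμ', hsum', hlow, hup⟩ := sieve2 e he he1 h hinj hadm
    (fun _ => τ) (fun _ => l) (fun _ => hτ0) (fun _ => hτ1)
    (by
      rw [Finset.sum_const, Finset.card_univ, Fintype.card_prod, Fintype.card_fin,
        Fintype.card_fin, nsmul_eq_mul]
      push_cast
      exact hτ2.le) Q b₀ hQ
    (fun i => hcop _ (mem_image_of_mem h (mem_univ i))) (max N0 Q)
  simp only [← hpdef] at hlow hup
  have hup1 : ∀ m, ∑ N ∈ T'.filter (fun N => (N + h m).Prime), μ' N ≤ (1 + 50 * e) * p := by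
    intro m
    have h1 := hup m ∅ (notMem_empty m)
    simpa using h1
  have hup2 : ∀ m m', m ≠ m' → ∑ N ∈ T'.filter (fun N => (N + h m).Prime ∧ (N + h m').Prime),
      μ' N ≤ 4 * (1 + 50 * e) ^ 2 * p ^ 2 := by
    intro m m' hmm
    have hm : m ∉ ({m'} : Finset _) := by simpa using hmm
    have h1 := hup m {m'} hm
    rw [prod_insert hm, prod_singleton, card_singleton] at h1
    have h2 : (1 + 50 * e) ^ (1 + 1) * (4 * ((1 : ℕ) : ℝ)) ^ 1 * (p * p) =
        4 * (1 + 50 * e) ^ 2 * p ^ 2 := by push_cast; ring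
    rw [h2] at h1
    refine le_trans (le_of_eq ?_) h1
    congr 1
    apply filter_congr
    intro N _
    simp
  have hblock := bq_block l T' μ' hμ' h p (50 * e) e hp0 (by positivity) (by linarith) he hpL
    hlow hup1 hup2
  have key : ∀ N : ℕ, ∀ j a, (((N + B : ℕ) : ℤ) + x (j, a)).toNat = N + h (j, a) := by
    intro N j a
    have h2 := hh (j, a)
    push_cast
    omega
  refine ⟨T'.image (fun N => N + B), fun N => μ' (N - B), ?_, fun N => hμ' _, ?_, ?_, ?_⟩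
  · intro N hN
    obtain ⟨N', hN', rfl⟩ := mem_image.1 hN
    have h1 := (hT' N' hN').1
    have h2 : N0 ≤ max N0 Q := le_max_left _ _
    omega
  · rw [sum_image (fun a _ b _ hab => by
      have : a + B = b + B := hab
      omega)]
    simp only [Nat.add_sub_cancel]
    exact hsum'
  · intro N hN y hy hyp
    obtain ⟨N', hN', rfl⟩ := mem_image.1 hN
    have hy2 : -(B : ℤ) ≤ y ∧ y ≤ B := by
      have h1 : (D : ℤ) ≤ B := by
        have : D ≤ B := by omega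
        exact_mod_cast this
      have h2 := abs_le.1 hy
      constructor <;> linarith [h2.1, h2.2]
    have hg : (((N' + B : ℕ) : ℤ) + y).toNat = N' + (B + y).toNat := by
      push_cast
      omega
    rw [hg] at hyp
    by_cases hmem : (B + y).toNat ∈ univ.image h
    · obtain ⟨i, _, hi⟩ := mem_image.1 hmem
      have h3 := hh i
      rw [hi] at h3
      have h4 : y = x i := by omega
      exact ⟨i.1, h4 ▸ hxV i⟩
    · exfalso
      refine hcomp N' ?_ (hT' N' hN').2 _ ?_ hyp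
      · have h1 := (hT' N' hN').1
        have h2 : Q ≤ max N0 Q := le_max_right _ _
        omega
      · rw [mem_sdiff, mem_range]
        exact ⟨by omega, hmem⟩
  · intro j
    have hfull : ∀ j', ∑ N ∈ T'.filter (fun N => ∀ a, (N + h (j', a)).Prime), μ' N ≤
        (1 + 50 * e) * p := by
      intro j'
      refine le_trans ?_ (hup1 (j', ⟨0, by positivity⟩))
      refine sum_le_sum_of_subset_of_nonneg ?_ (fun N _ _ => hμ' N)
      intro N hN
      rw [mem_filter] at hN ⊢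
      exact ⟨hN.1, hN.2 _⟩
    have h1 := hblock j
    have h2 : ∑ N ∈ T'.filter (fun N => ∃ a, (N + h (j, a)).Prime), μ' N ≤
        ∑ N ∈ T'.filter (fun N => (∃ a, (N + h (j, a)).Prime) ∧
          ∀ j', ∃ a, ¬ (N + h (j', a)).Prime), μ' N +
        ∑ j', ∑ N ∈ T'.filter (fun N => ∀ a, (N + h (j', a)).Prime), μ' N := by
      simp only [sum_filter]
      rw [sum_comm, ← sum_add_distrib]
      refine sum_le_sum fun N _ => ?_
      have h0 : ∀ j' ∈ (univ : Finset (Fin k)), 0 ≤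
          (if ∀ a, (N + h (j', a)).Prime then μ' N else 0) := by
        intro j' _
        split_ifs
        · exact hμ' N
        · exact le_rfl
      by_cases c1 : ∃ a, (N + h (j, a)).Prime
      · rw [if_pos c1]
        by_cases c2 : ∀ j', ∃ a, ¬ (N + h (j', a)).Prime
        · rw [if_pos ⟨c1, c2⟩]
          have := sum_nonneg h0
          linarith
        · rw [if_neg (fun hc => c2 hc.2), zero_add]
          push Not at c2
          obtain ⟨j0, hj0⟩ := c2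
          have h3 := single_le_sum h0 (mem_univ j0)
          rw [if_pos hj0] at h3
          exact h3
      · rw [if_neg c1, if_neg (fun hc => c1 hc.1), zero_add]
        exact sum_nonneg h0
    have h3 : ∑ j', ∑ N ∈ T'.filter (fun N => ∀ a, (N + h (j', a)).Prime), μ' N ≤ η / 2 := by
      refine (sum_le_sum fun j' _ => hfull j').trans ?_
      rw [sum_const, card_univ, Fintype.card_fin, nsmul_eq_mul]
      exact hpk
    have h4 : 1 / 4 - η ≤ ∑ N ∈ T'.filter (fun N => (∃ a, (N + h (j, a)).Prime) ∧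
          ∀ j', ∃ a, ¬ (N + h (j', a)).Prime), μ' N := by
      linarith
    refine h4.trans (le_of_eq ?_)
    rw [sum_filter, sum_filter, sum_image (fun a _ b _ hab => by
      have : a + B = b + B := hab
      omega)]
    refine sum_congr rfl fun N _ => ?_
    simp only [Nat.add_sub_cancel]
    have hiff : ((∃ a, (N + h (j, a)).Prime) ∧ ∀ j', ∃ a, ¬ (N + h (j', a)).Prime) ↔
        ((∃ y ∈ V j, (((N + B : ℕ) : ℤ) + y).toNat.Prime) ∧
          ∀ j', ∃ y ∈ V j', ¬ (((N + B : ℕ) : ℤ) + y).toNat.Prime) := by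
      constructor
      · rintro ⟨⟨a, ha⟩, hb⟩
        refine ⟨⟨x (j, a), hxV (j, a), ?_⟩, fun j' => ?_⟩
        · rw [key]
          exact ha
        · obtain ⟨a', ha'⟩ := hb j'
          refine ⟨x (j', a'), hxV (j', a'), ?_⟩
          rw [key]
          exact ha'
      · rintro ⟨⟨y, hy, hyp⟩, hb⟩
        refine ⟨?_, fun j' => ?_⟩
        · obtain ⟨a, rfl⟩ := hxsurj j y hy
          refine ⟨a, ?_⟩
          rw [key] at hyp
          exact hyp
        · obtain ⟨y', hy', hyp'⟩ := hb j'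
          obtain ⟨a', rfl⟩ := hxsurj j' y' hy'
          refine ⟨a', ?_⟩
          rw [key] at hyp'
          exact hyp'
    by_cases hc : ((∃ a, (N + h (j, a)).Prime) ∧ ∀ j', ∃ a, ¬ (N + h (j', a)).Prime)
    · rw [if_pos hc, if_pos (hiff.1 hc)]
    · rw [if_neg hc, if_neg (fun h => hc (hiff.2 h))]

end Pool.Agent.H21.QT
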