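import Pool.Agent.H21.QT.Hb
import Pool.Agent.H21.QT.Bq

/-!
[H21 QT GC]  Among almost all five admissible numbers two are translates of consecutive primes.

Proof.
* `cons5`: `l = l₀` of `blk_quarter 5 (1/100)`, `s = 2^l`; `hom_box 5 s 1` with `κ = Unit` (`Fin 1`) and
  `Bad a = ∀ i j, ¬ GapP (a i) (a j)`.  Let `V` be a box of bad tuples (disjoint blocks, `AdB V`).  For all `x ∈ V i`,
  `y ∈ V j`, `i ≠ j`, there is `a ∈ piFinset V` with `a i = x`, `a j = y` (`Function.update`), so `¬ GapP x y`.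
  Let `D = ∑_j ∑_{x ∈ V j} |x|`.  For all pairs `x < y` in different blocks the set in `GapP x y` is finite, so there is `N0` larger
  than all elements of these sets (finitely many pairs).  `blk_quarter` with `D`, `N0` gives `T`, `μ`.  With
  `g N = #{j | ∃ x ∈ V j, N + x prime}`: `∑_N μ N g N ≥ 5 (1/4 - 1/100) > 1 = ∑ μ`, so some `N ∈ T` has `g N ≥ 2`.  Let `P` be the
  set of the `x ∈ ⋃ V j` with `N + x` prime; it meets two blocks.  Take `x < y` in `P` in different blocks with `y - x`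
  minimal: if `x < z < y`, `N + z` prime, then `|z| ≤ D`, so `z` lies in some block, `z ∈ P`, and `z` is in another block than `x` or
  than `y`: contradiction to minimality.  So `N > N0` is in the set of `GapP x y`: contradiction.
* `cons5_nat`: as `quarter_nat`: `A j = H` (cast), admissible.
-/

namespace Pool.Agent.H21.QT

open Finset

/-- the set of the gap property -/
def gcS (x y : ℤ) : Set ℕ :=
  {N : ℕ | ((N : ℤ) + x).toNat.Prime ∧ ((N : ℤ) + y).toNat.Prime ∧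
    ∀ z : ℤ, x < z → z < y → ¬ ((N : ℤ) + z).toNat.Prime}

/-- `x`, `y` in different blocks -/
def gcD (V : Fin 5 → Finset ℤ) (x y : ℤ) : Prop := ∃ i j, i ≠ j ∧ x ∈ V i ∧ y ∈ V j

/-- averaging: some `N` has primes in two blocks -/
theorem gc_avg (T : Finset ℕ) (μ : ℕ → ℝ) (hμ : ∀ N, 0 ≤ μ N) (hs : ∑ N ∈ T, μ N = 1)
    (R : Fin 5 → ℕ → Prop) [∀ j, DecidablePred (R j)]
    (h : ∀ j, 24 / 100 ≤ ∑ N ∈ T.filter (R j), μ N) :
    ∃ N ∈ T, ∃ i j, i ≠ j ∧ R i N ∧ R j N := by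
  classical
  by_contra hcon
  push Not at hcon
  have h1 : (∑ _j : Fin 5, (24 / 100 : ℝ)) ≤ ∑ j : Fin 5, ∑ N ∈ T.filter (R j), μ N :=
    Finset.sum_le_sum fun j _ => h j
  have h2 : ∑ j : Fin 5, ∑ N ∈ T.filter (R j), μ N = ∑ N ∈ T, ∑ j : Fin 5,
      (if R j N then μ N else 0) := by
    rw [Finset.sum_comm]
    refine Finset.sum_congr rfl fun j _ => ?_
    rw [Finset.sum_filter]
  have h3 : ∑ N ∈ T, ∑ j : Fin 5, (if R j N then μ N else 0) ≤ ∑ N ∈ T, μ N := by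
    refine Finset.sum_le_sum fun N hN => ?_
    rw [← Finset.sum_filter, Finset.sum_const, nsmul_eq_mul]
    have h4 : (univ.filter fun j => R j N).card ≤ 1 := by
      rw [Finset.card_le_one]
      intro i hi j hj
      by_contra hij
      exact hcon N hN i j hij (Finset.mem_filter.1 hi).2 (Finset.mem_filter.1 hj).2
    have h5 : ((univ.filter fun j => R j N).card : ℝ) ≤ 1 := by exact_mod_cast h4
    exact mul_le_of_le_one_left (hμ N) h5
  rw [h2] at h1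
  rw [hs] at h3
  have h6 : (∑ _j : Fin 5, (24 / 100 : ℝ)) = 120 / 100 := by
    rw [Finset.sum_const, Finset.card_univ, Fintype.card_fin]
    norm_num
  rw [h6] at h1
  have h7 := h1.trans h3
  norm_num at h7

/-- a minimal pair -/
theorem gc_pair (V : Fin 5 → Finset ℤ) (hd : ∀ j j', j ≠ j' → Disjoint (V j) (V j')) (D N : ℕ)
    (hD : ∀ j, ∀ x ∈ V j, |x| ≤ (D : ℤ))
    (hN : ∀ y : ℤ, |y| ≤ D → ((N : ℤ) + y).toNat.Prime → ∃ j, y ∈ V j)
    {i₀ j₀ : Fin 5} (hij : i₀ ≠ j₀) (hi : ∃ x ∈ V i₀, ((N : ℤ) + x).toNat.Prime)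
    (hj : ∃ x ∈ V j₀, ((N : ℤ) + x).toNat.Prime) :
    ∃ x y : ℤ, x < y ∧ gcD V x y ∧ N ∈ gcS x y := by
  classical
  obtain ⟨P, hP⟩ : ∃ P : Finset ℤ, P = (univ.biUnion V).filter
    (fun x => ((N : ℤ) + x).toNat.Prime) := ⟨_, rfl⟩
  have hPm : ∀ x, x ∈ P ↔ (∃ j, x ∈ V j) ∧ ((N : ℤ) + x).toNat.Prime := by
    intro x
    rw [hP, Finset.mem_filter, Finset.mem_biUnion]
    simp only [Finset.mem_univ, true_and]
  obtain ⟨Q, hQ⟩ : ∃ Q : Finset (ℤ × ℤ), Q = (P ×ˢ P).filter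
    (fun p => p.1 < p.2 ∧ gcD V p.1 p.2) := ⟨_, rfl⟩
  have hQm : ∀ p, p ∈ Q ↔ (p.1 ∈ P ∧ p.2 ∈ P) ∧ p.1 < p.2 ∧ gcD V p.1 p.2 := by
    intro p
    rw [hQ, Finset.mem_filter, Finset.mem_product]
  have hQne : Q.Nonempty := by
    obtain ⟨x, hx, hxp⟩ := hi
    obtain ⟨y, hy, hyp⟩ := hj
    have hne : x ≠ y := by
      rintro rfl
      exact Finset.disjoint_left.1 (hd _ _ hij) hx hy
    rcases lt_or_gt_of_ne hne with h | h
    · exact ⟨(x, y), (hQm _).2 ⟨⟨(hPm x).2 ⟨⟨_, hx⟩, hxp⟩, (hPm y).2 ⟨⟨_, hy⟩, hyp⟩⟩, h,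
        ⟨i₀, j₀, hij, hx, hy⟩⟩⟩
    · exact ⟨(y, x), (hQm _).2 ⟨⟨(hPm y).2 ⟨⟨_, hy⟩, hyp⟩, (hPm x).2 ⟨⟨_, hx⟩, hxp⟩⟩, h,
        ⟨j₀, i₀, hij.symm, hy, hx⟩⟩⟩
  obtain ⟨⟨x, y⟩, hxy, hmin⟩ := Finset.exists_min_image Q (fun p => p.2 - p.1) hQne
  obtain ⟨⟨hxP, hyP⟩, hlt, i, j, hij', hx, hy⟩ := (hQm _).1 hxy
  simp only at hxP hyP hlt hx hy hmin
  refine ⟨x, y, hlt, ⟨i, j, hij', hx, hy⟩, ((hPm x).1 hxP).2, ((hPm y).1 hyP).2, ?_⟩
  intro z hxz hzy hz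
  have hzD : |z| ≤ (D : ℤ) := by
    have h1 := hD i x hx
    have h2 := hD j y hy
    rw [abs_le] at h1 h2 ⊢
    constructor <;> linarith
  obtain ⟨l, hl⟩ := hN z hzD hz
  have hzP : z ∈ P := (hPm z).2 ⟨⟨l, hl⟩, hz⟩
  by_cases hli : l = i
  · have hlj : l ≠ j := by
      rw [hli]
      exact hij'
    have h3 : (z, y) ∈ Q := (hQm _).2 ⟨⟨hzP, hyP⟩, hzy, ⟨l, j, hlj, hl, hy⟩⟩
    have h4 := hmin _ h3
    simp only at h4
    linarith
  · have h3 : (x, z) ∈ Q := (hQm _).2 ⟨⟨hxP, hzP⟩, hxz, ⟨i, l, fun h => hli h.symm, hx, hl⟩⟩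
    have h4 := hmin _ h3
    simp only at h4
    linarith

theorem gc_box {l : ℕ} (hl : ∀ V : Fin 5 → Finset ℤ, (∀ j j', j ≠ j' → Disjoint (V j) (V j')) →
      (∀ j, (V j).card = 2 ^ l) → AdB V → ∀ D N0 : ℕ,
      ∃ (T : Finset ℕ) (μ : ℕ → ℝ), (∀ N ∈ T, N0 < N) ∧ (∀ N, 0 ≤ μ N) ∧ ∑ N ∈ T, μ N = 1 ∧
        (∀ N ∈ T, ∀ y : ℤ, |y| ≤ D → ((N : ℤ) + y).toNat.Prime → ∃ j, y ∈ V j) ∧
        ∀ j, ∃ T' : Finset ℕ, T' ⊆ T ∧ (∀ N ∈ T', ∃ x ∈ V j, ((N : ℤ) + x).toNat.Prime) ∧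
          24 / 100 ≤ ∑ N ∈ T', μ N)
    (V : Fin 5 → Finset ℤ) (hd : ∀ j j', j ≠ j' → Disjoint (V j) (V j'))
    (hc : ∀ j, (V j).card = 2 ^ l) (hV : AdB V)
    (hbad : ∀ a ∈ Fintype.piFinset V, ∀ i j, ¬ GapP (a i) (a j)) : False := by
  classical
  -- different blocks
  have hne : ∀ j, ∃ x, x ∈ V j := by
    intro j
    have h1 : 0 < (V j).card := by
      rw [hc]
      exact Nat.two_pow_pos l
    exact Finset.card_pos.1 h1
  choose a₀ ha₀ using hne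
  have hgap : ∀ x y, gcD V x y → ¬ GapP x y := by
    rintro x y ⟨i, j, hij, hx, hy⟩
    have h1 := hbad (Function.update (Function.update a₀ i x) j y) ?_ i j
    · rwa [Function.update_of_ne hij, Function.update_self, Function.update_self] at h1
    · rw [Fintype.mem_piFinset]
      intro t
      by_cases htj : t = j
      · rw [htj, Function.update_self]
        exact hy
      · rw [Function.update_of_ne htj]
        by_cases hti : t = i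
        · rw [hti, Function.update_self]
          exact hx
        · rw [Function.update_of_ne hti]
          exact ha₀ t
  -- the bound
  obtain ⟨D, hD⟩ : ∃ D : ℕ, ∀ j, ∀ x ∈ V j, |x| ≤ (D : ℤ) := by
    refine ⟨∑ j, ∑ x ∈ V j, x.natAbs, fun j x hx => ?_⟩
    have h1 : x.natAbs ≤ ∑ x ∈ V j, x.natAbs :=
      Finset.single_le_sum (f := fun x : ℤ => x.natAbs) (fun _ _ => Nat.zero_le _) hx
    have h2 : ∑ x ∈ V j, x.natAbs ≤ ∑ j, ∑ x ∈ V j, x.natAbs :=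
      Finset.single_le_sum (f := fun j => ∑ x ∈ V j, x.natAbs) (fun _ _ => Nat.zero_le _)
        (Finset.mem_univ j)
    rw [Int.abs_eq_natAbs]
    exact_mod_cast h1.trans h2
  -- finitely many exceptions
  obtain ⟨Z, hZ⟩ : ∃ Z : Finset (ℤ × ℤ), Z = ((univ.biUnion V) ×ˢ (univ.biUnion V)).filter
    (fun p => p.1 < p.2 ∧ gcD V p.1 p.2) := ⟨_, rfl⟩
  have hfin : (⋃ p ∈ Z, gcS p.1 p.2).Finite := by
    refine Set.Finite.biUnion (Finset.finite_toSet Z) fun p hp => ?_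
    rw [hZ] at hp
    have h1 := (Finset.mem_filter.1 (Finset.mem_coe.1 hp)).2
    by_contra h2
    exact hgap _ _ h1.2 ⟨h1.1, h2⟩
  obtain ⟨N0, hN0⟩ := hfin.bddAbove
  obtain ⟨T, μ, hT, hμ, hs, hcov, hq⟩ := hl V hd hc hV D N0
  choose T' hT'T hT'p hT's using hq
  obtain ⟨N, hN, i, j, hij, hi, hj⟩ := gc_avg T μ hμ hs
    (fun j N => ∃ x ∈ V j, ((N : ℤ) + x).toNat.Prime) (fun j => (hT's j).trans
      (Finset.sum_le_sum_of_subset_of_nonneg
        (fun N hN => Finset.mem_filter.2 ⟨hT'T j hN, hT'p j N hN⟩) fun N _ _ => hμ N))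
  obtain ⟨x, y, hxy, hdxy, hNs⟩ := gc_pair V hd D N hD (hcov N hN) hij hi hj
  have h1 : N ∈ ⋃ p ∈ Z, gcS p.1 p.2 := by
    rw [Set.mem_iUnion₂]
    refine ⟨(x, y), ?_, hNs⟩
    have hdxy' := hdxy
    obtain ⟨u, v, -, hu, hv⟩ := hdxy'
    rw [hZ]
    exact Finset.mem_filter.2 ⟨Finset.mem_product.2
      ⟨Finset.mem_biUnion.2 ⟨u, Finset.mem_univ _, hu⟩,
        Finset.mem_biUnion.2 ⟨v, Finset.mem_univ _, hv⟩⟩, hxy, hdxy⟩
  have h2 := hN0 h1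
  have h3 := hT N hN
  omega

open Classical in
theorem cons5 : ∃ δ C : ℝ, 0 < δ ∧ δ ≤ 1 ∧ 0 ≤ C ∧
    ∀ (n : ℕ) (A : Fin 5 → Finset ℤ), 1 ≤ n → (∀ j, (A j).card ≤ n) →
      (((Fintype.piFinset A).filter
        (fun a => AdT a ∧ ∀ i j, ¬ GapP (a i) (a j))).card : ℝ) ≤
        C * (n : ℝ) ^ ((5 : ℝ) - δ) := by
  obtain ⟨l₀, hl⟩ := blk_quarter 5 (by norm_num) (1 / 100) (by norm_num)
  obtain ⟨δ, C, hδ, hδ1, hC, hb⟩ := hom_box 5 (2 ^ l₀) 1 (by norm_num) Nat.one_le_two_pow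
  refine ⟨δ, C, hδ, hδ1, hC, fun n A hn hA => ?_⟩
  have h := hb Unit inferInstance (by simp) (fun _ => ())
    (fun a => ∀ i j, ¬ GapP (a i) (a j)) ?_ n A hn hA
  · have h5 : ((5 : ℕ) : ℝ) = 5 := by norm_num
    rw [h5] at h
    convert h using 3
    exact (Finset.filter_congr_decidable _ _ _).symm
  · intro V hd hc hV hbad _
    refine gc_box (l := l₀) ?_ V hd hc hV hbad
    intro V hd hc hV D N0
    obtain ⟨T, μ, h1, h2, h3, h4, h6⟩ := hl l₀ le_rfl V hd hc hV D N0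
    refine ⟨T, μ, h1, h2, h3, h4, fun j => ⟨T.filter (fun N : ℕ =>
      (∃ x ∈ V j, ((N : ℤ) + x).toNat.Prime) ∧
        ∀ j', ∃ x ∈ V j', ¬ ((N : ℤ) + x).toNat.Prime), Finset.filter_subset _ _,
      fun N hN => (Finset.mem_filter.1 hN).2.1, le_trans (by norm_num) (h6 j)⟩⟩

open Classical in
theorem cons5_nat : ∃ δ C : ℝ, 0 < δ ∧ δ ≤ 1 ∧ 0 ≤ C ∧
    ∀ H : Finset ℕ, (∀ p : ℕ, p.Prime → ∃ a : ℕ, ∀ h ∈ H, ¬ p ∣ a + h) → 1 ≤ H.card →
      (((Fintype.piFinset (fun _ : Fin 5 => H)).filter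
        (fun a => ∀ i j, ¬ GapP (a i : ℤ) (a j : ℤ))).card : ℝ) ≤
        C * (H.card : ℝ) ^ ((5 : ℝ) - δ) := by
  obtain ⟨δ, C, hδ, hδ1, hC, h⟩ := cons5
  refine ⟨δ, C, hδ, hδ1, hC, fun H hH hHc => ?_⟩
  have h1 := h H.card (fun _ => H.map Nat.castEmbedding) hHc
    (fun j => by rw [Finset.card_map])
  refine le_trans ?_ h1
  have h2 : ((Fintype.piFinset (fun _ : Fin 5 => H)).filter
        (fun a => ∀ i j, ¬ GapP (a i : ℤ) (a j : ℤ))).card ≤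
      ((Fintype.piFinset (fun _ : Fin 5 => H.map (Nat.castEmbedding (R := ℤ)))).filter
        (fun a => AdT a ∧ ∀ i j, ¬ GapP (a i) (a j))).card := by
    refine Finset.card_le_card_of_injOn (fun a j => (a j : ℤ)) ?_ ?_
    · intro a ha
      rw [Finset.mem_coe, Finset.mem_filter, Fintype.mem_piFinset] at ha
      rw [Finset.mem_coe, Finset.mem_filter, Fintype.mem_piFinset]
      refine ⟨fun j => Finset.mem_map.2 ⟨a j, ha.1 j, rfl⟩, ?_, ha.2⟩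
      intro p hp
      obtain ⟨b, hb⟩ := hH p hp
      refine ⟨(b : ℤ), fun j hdvd => hb (a j) (ha.1 j) ?_⟩
      have h3 : (p : ℤ) ∣ (b : ℤ) + (a j : ℤ) := hdvd
      exact_mod_cast h3
    · intro a _ b _ hab
      funext j
      have := congrFun hab j
      simp only at this
      exact_mod_cast this
  exact_mod_cast h2

end Pool.Agent.H21.QT
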