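import Pool.Agent.H21.QT.Qn
import Pool.Agent.H21.QT.Th
import Pool.Agent.H21.TX.Defs

/-!
[H21 QT MS]  Every large admissible set has at least `(1-ε)/(4r)^(m-1)` of its `m`-subsets shattered.

Proof.  (`0 < ε < 1`, otherwise trivial; `r ≥ 1`, as `r = 0` has no colouring.)  Choose `η` small and then `k` large such that with
`lam = (1/4-η)/r`: `κ := lam^(m-1) (1 - m/(lam k))^m ≥ (1-ε)^(1/2)/(4r)^(m-1)` or simply
`κ ≥ (1 - ε/2)/(4r)^(m-1)` (first `η` by continuity of `(1-4η)^(m-1)`, then `k → ∞`).  Let `n = |H|`, `δ, C` of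
`quarter_nat r k η`.  Let `𝒢` be the set of the `B ∈ powersetCard m H` with `∃ i, Shat c i B`.
For an injective `a : Fin k → ℕ` with values in `H` which is `Quarter`: if `w i E > 0` and `J ⊆ E`, `|J| = m`, then
`J.image a ∈ 𝒢` (`Rea c a i E` implies `Shat c i (J.image a)`: for `F ⊆ J.image a` take `E' = {j ∈ J | a j ∈ F}`; `PC` with casts of
naturals is `(N + a j).Prime ∧ c (N + a j) = i`).  By `fam_count` with `G = {J | J.image a ∈ 𝒢}` at least `κ C(k,m)` of the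
`m`-subsets `J` of `Fin k` have `J.image a ∈ 𝒢`.
Count the pairs `(a, J)`, `a` injective: at least `(n^k - k^2 n^(k-1) - C n^(k-δ)) κ C(k,m)` (number of non-injective `a`: as
`noninj` in `Hb.lean`, which is stated for `ℤ`; or directly), and at most `C(k,m) |𝒢| m! n^(k-m)` (for fixed `J` and `B ∈ 𝒢` there are at
most `m! n^(k-m)` injective `a` with `J.image a = B`: the restriction to `J` is a bijection onto `B`).
So `|𝒢| ≥ κ (1 - k^2/n - C n^(-δ)) n^m/m! ≥ (1-ε)/(4r)^(m-1) C(n,m)` for `n ≥ K`.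
-/

namespace Pool.Agent.H21.QT

open Finset Pool.Agent.H21.TX

private theorem ms_shat {r k : ℕ} (c : ℕ → Fin r) (a : Fin k → ℕ) (i : Fin r) (E J : Finset (Fin k))
    (hJ : J ⊆ E) (h : Rea c (fun j => (a j : ℤ)) i E) : Shat c i (J.image a) := by
  classical
  intro F hF
  have h1 := h (J.filter (fun j => a j ∈ F)) ((filter_subset _ _).trans hJ)
  refine h1.mono ?_
  intro N hN x hx
  rw [mem_image] at hx
  obtain ⟨j, hj, rfl⟩ := hx
  have h2 := hN j
  rw [mem_filter] at h2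
  have h3 : ((N : ℤ) + (a j : ℤ)).toNat = N + a j := by omega
  unfold PC at h2
  rw [h3] at h2
  rw [h2]
  exact ⟨fun h => h.2, fun h => ⟨hj, h⟩⟩

/-- number of the tuples that map `J` bijectively onto `B` -/
private theorem ms_count {k : ℕ} (H B : Finset ℕ) (J : Finset (Fin k)) (S : Finset (Fin k → ℕ))
    (hS : ∀ a ∈ S, Function.Injective a ∧ (∀ j, a j ∈ H) ∧ J.image a = B) (m : ℕ) (hJ : J.card = m)
    (hB : B.card = m) : S.card ≤ m.factorial * H.card ^ (k - m) := by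
  classical
  have hcard : Fintype.card ((J ↪ B) × ((Jᶜ : Finset (Fin k)) → H)) = m.factorial * H.card ^ (k - m) := by
    rw [Fintype.card_prod, Fintype.card_embedding_eq, Fintype.card_fun, Fintype.card_coe, Fintype.card_coe,
      Fintype.card_coe, Fintype.card_coe, hJ, hB, Nat.descFactorial_self, card_compl, Fintype.card_fin, hJ]
  rw [← hcard, ← Fintype.card_coe S]
  apply Fintype.card_le_of_injective (fun a : S =>
    ((⟨fun j => ⟨a.1 j, by
        have := (hS a.1 a.2).2.2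
        rw [← this]
        exact mem_image_of_mem _ j.2⟩, fun x y hxy => by
        have h1 : a.1 x = a.1 y := congrArg Subtype.val hxy
        exact Subtype.ext ((hS a.1 a.2).1 h1)⟩ : J ↪ B),
      (fun j : (Jᶜ : Finset (Fin k)) => (⟨a.1 j, (hS a.1 a.2).2.1 j⟩ : H))))
  intro a b hab
  apply Subtype.ext
  funext j
  rw [Prod.mk.injEq] at hab
  by_cases hj : j ∈ J
  · have h1 := congrArg (fun e : J ↪ B => ((e ⟨j, hj⟩ : B) : ℕ)) hab.1
    exact h1
  · have h1 := congrFun hab.2 ⟨j, mem_compl.2 hj⟩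
    exact congrArg Subtype.val h1

private theorem ms_noninj {k : ℕ} (H : Finset ℕ) [DecidablePred fun a : Fin k → ℕ => ¬ Function.Injective a] :
    ((Fintype.piFinset (fun _ : Fin k => H)).filter (fun a => ¬ Function.Injective a)).card ≤
      k ^ 2 * H.card ^ (k - 1) := by
  classical
  have h1 := noninj (fun _ : Fin k => H.image (Nat.cast : ℕ → ℤ)) (n := H.card)
    (fun _ => card_image_le)
  refine le_trans ?_ h1
  apply card_le_card_of_injOn (fun a => fun j => ((a j : ℕ) : ℤ))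
  · intro a ha
    have ha' := mem_filter.1 (mem_coe.1 ha)
    apply mem_coe.2
    rw [mem_filter]
    constructor
    · rw [Fintype.mem_piFinset]
      intro j
      exact mem_image_of_mem _ ((Fintype.mem_piFinset.1 ha'.1) j)
    · intro hinj
      apply ha'.2
      intro x y hxy
      apply hinj
      simp only [hxy]
  · intro a _ b _ hab
    funext j
    have := congrFun hab j
    simp only at this
    exact_mod_cast this

private theorem ms_param (r m : ℕ) (hr : 1 ≤ r) (hm : 1 ≤ m) (ε : ℝ) (hε : 0 < ε) (hε1 : ε < 1) :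
    ∃ (k : ℕ) (η : ℝ), 1 ≤ k ∧ 0 < η ∧ η < 1 / 4 ∧ 0 < (1 / 4 - η) / r ∧ (1 / 4 - η) / r ≤ 1 ∧
      (m : ℝ) ≤ (1 / 4 - η) / r * k ∧
      (1 - ε / 4) / (4 * (r : ℝ)) ^ (m - 1) ≤
        ((1 / 4 - η) / r) ^ (m - 1) * (1 - m / ((1 / 4 - η) / r * k)) ^ m := by
  have hrR : (1 : ℝ) ≤ r := by exact_mod_cast hr
  have hmR : (1 : ℝ) ≤ m := by exact_mod_cast hm
  have hr0 : (0 : ℝ) < r := by linarith
  have hm0 : (0 : ℝ) < m := by linarith
  obtain ⟨η, hη⟩ : ∃ η : ℝ, η = ε / (32 * m) := ⟨_, rfl⟩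
  have hη0 : 0 < η := by rw [hη]; positivity
  have hηm : η * (32 * m) = ε := by
    rw [hη]
    field_simp
  have hη1 : η ≤ 1 / 32 := by
    have : η * 32 ≤ η * (32 * m) := by
      have : (32 : ℝ) ≤ 32 * m := by linarith
      gcongr
    linarith
  obtain ⟨k, hk⟩ : ∃ k : ℕ, k = ⌈64 * (r : ℝ) * m ^ 2 / ε⌉₊ := ⟨_, rfl⟩
  have hkR : 64 * (r : ℝ) * m ^ 2 / ε ≤ k := by
    rw [hk]
    exact Nat.le_ceil _
  have hkpos : (0 : ℝ) < k := lt_of_lt_of_le (by positivity) hkR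
  obtain ⟨lam, hlam⟩ : ∃ lam : ℝ, lam = (1 / 4 - η) / r := ⟨_, rfl⟩
  have hlam8 : 1 / (8 * r) ≤ lam := by
    rw [hlam, div_le_div_iff₀ (by positivity) hr0]
    nlinarith
  have hlam0 : 0 < lam := lt_of_lt_of_le (by positivity) hlam8
  have hlam1 : lam ≤ 1 := by
    rw [hlam, div_le_iff₀ hr0]
    linarith
  have hlk : 8 * (m : ℝ) ^ 2 / ε ≤ lam * k := by
    calc 8 * (m : ℝ) ^ 2 / ε = 1 / (8 * r) * (64 * (r : ℝ) * m ^ 2 / ε) := by
          field_simp
          norm_num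
      _ ≤ lam * k := by gcongr
  have hlk0 : 0 < lam * k := by positivity
  have hmm : (m : ℝ) / (lam * k) ≤ ε / (8 * m) := by
    rw [div_le_div_iff₀ hlk0 (by positivity)]
    rw [div_le_iff₀ hε] at hlk
    nlinarith
  have hm8 : (m : ℝ) ≤ lam * k := by
    refine le_trans ?_ hlk
    rw [le_div_iff₀ hε]
    nlinarith
  refine ⟨k, η, ?_, hη0, by linarith, ?_, ?_, ?_, ?_⟩
  · have : 0 < k := by exact_mod_cast hkpos
    omega
  · rw [← hlam]; exact hlam0
  · rw [← hlam]; exact hlam1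
  · rw [← hlam]; exact hm8
  · rw [← hlam]
    have e1 : lam ^ (m - 1) = (1 - 4 * η) ^ (m - 1) / (4 * (r : ℝ)) ^ (m - 1) := by
      rw [← div_pow]
      congr 1
      rw [hlam]
      field_simp
    have e2 : 1 - ε / 8 ≤ (1 - 4 * η) ^ (m - 1) := by
      have h1 := one_add_mul_le_pow (show (-2 : ℝ) ≤ -(4 * η) by linarith) (m - 1)
      have h2 : (((m - 1 : ℕ) : ℝ)) = m - 1 := by
        rw [Nat.cast_sub hm]
        norm_num
      rw [h2] at h1
      have h3 : (1 : ℝ) + -(4 * η) = 1 - 4 * η := by ring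
      rw [h3] at h1
      have h4 : ((m : ℝ) - 1) * (4 * η) ≤ ε / 8 := by nlinarith
      linarith
    have e3 : 1 - ε / 8 ≤ (1 - (m : ℝ) / (lam * k)) ^ m := by
      have h0 : (m : ℝ) / (lam * k) ≤ 1 := by
        rw [div_le_one hlk0]
        exact hm8
      have h1 := one_add_mul_le_pow (show (-2 : ℝ) ≤ -((m : ℝ) / (lam * k)) by linarith) m
      have h3 : (1 : ℝ) + -((m : ℝ) / (lam * k)) = 1 - (m : ℝ) / (lam * k) := by ring
      rw [h3] at h1
      have h4 : (m : ℝ) * ((m : ℝ) / (lam * k)) ≤ ε / 8 := by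
        calc (m : ℝ) * ((m : ℝ) / (lam * k)) ≤ m * (ε / (8 * m)) := by gcongr
          _ = ε / 8 := by field_simp
      linarith
    rw [e1, div_mul_eq_mul_div]
    gcongr
    calc 1 - ε / 4 ≤ (1 - ε / 8) * (1 - ε / 8) := by nlinarith
      _ ≤ _ := by
        apply mul_le_mul e2 e3 (by linarith)
        exact le_trans (by linarith) e2

private theorem ms_lim (k : ℕ) (C δ ε : ℝ) (hδ : 0 < δ) (hε : 0 < ε) : ∃ K : ℕ, 1 ≤ K ∧ ∀ n : ℕ, K ≤ n →
    C * (n : ℝ) ^ (-δ) + (k : ℝ) ^ 2 / n ≤ ε := by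
  have h1 : Filter.Tendsto (fun x : ℝ => C * x ^ (-δ) + (k : ℝ) ^ 2 / x) Filter.atTop (nhds (C * 0 + 0)) := by
    apply Filter.Tendsto.add
    · exact (tendsto_rpow_neg_atTop hδ).const_mul C
    · exact Filter.Tendsto.const_div_atTop Filter.tendsto_id _
  have h2 := h1.comp (tendsto_natCast_atTop_atTop (R := ℝ))
  have h3 : ∀ᶠ n : ℕ in Filter.atTop, C * (n : ℝ) ^ (-δ) + (k : ℝ) ^ 2 / n < ε :=
    h2.eventually_lt_const (by simpa using hε)
  obtain ⟨K, hK⟩ := Filter.eventually_atTop.1 h3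
  exact ⟨max K 1, le_max_right _ _, fun n hn => (hK n (le_trans (le_max_left _ _) hn)).le⟩

open Classical in
theorem many_shattered (r m : ℕ) (hm : 1 ≤ m) (ε : ℝ) (hε : 0 < ε) : ∃ K : ℕ, ∀ H : Finset ℕ,
    (∀ p : ℕ, p.Prime → ∃ a : ℕ, ∀ h ∈ H, ¬ p ∣ a + h) → K ≤ H.card → ∀ c : ℕ → Fin r,
    (1 - ε) / (4 * (r : ℝ)) ^ (m - 1) * (H.card.choose m : ℝ) ≤
      (((powersetCard m H).filter (fun B => ∃ i, Shat c i B)).card : ℝ) := by
  rcases Nat.eq_zero_or_pos r with hr | hr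
  · subst hr
    exact ⟨0, fun H _ _ c => (c 0).elim0⟩
  rcases le_or_gt 1 ε with hε1 | hε1
  · refine ⟨0, fun H _ _ c => ?_⟩
    have h1 : (1 - ε) / (4 * (r : ℝ)) ^ (m - 1) ≤ 0 :=
      div_nonpos_of_nonpos_of_nonneg (by linarith) (by positivity)
    have h2 : (0 : ℝ) ≤ (H.card.choose m : ℝ) := Nat.cast_nonneg _
    have h3 : (0 : ℝ) ≤ (((powersetCard m H).filter (fun B => ∃ i, Shat c i B)).card : ℝ) :=
      Nat.cast_nonneg _
    nlinarith
  obtain ⟨k, η, hk, hη0, hη1, hlam0, hlam1, hmk, hkap⟩ := ms_param r m hr hm ε hε hε1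
  obtain ⟨lam, hlam⟩ : ∃ lam : ℝ, lam = (1 / 4 - η) / r := ⟨_, rfl⟩
  rw [← hlam] at hlam0 hlam1 hmk hkap
  obtain ⟨κ, hκ⟩ : ∃ κ : ℝ, κ = lam ^ (m - 1) * (1 - m / (lam * k)) ^ m := ⟨_, rfl⟩
  rw [← hκ] at hkap
  obtain ⟨δ, C, hδ, -, hC, hq⟩ := quarter_nat r k hk η hη0
  obtain ⟨K, hK1, hK⟩ := ms_lim k C δ (ε / 4) hδ (by linarith)
  refine ⟨K, fun H hH hHK c => ?_⟩
  have hmkN : m ≤ k := by
    have h1 : (m : ℝ) ≤ k := by
      have h0 : (0 : ℝ) ≤ k := Nat.cast_nonneg k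
      nlinarith
    exact_mod_cast h1
  have hn1 : 1 ≤ H.card := hK1.trans hHK
  set n := H.card with hn
  have hnR : (1 : ℝ) ≤ n := by exact_mod_cast hn1
  have hn0 : (0 : ℝ) < n := by linarith
  set 𝒢 := (powersetCard m H).filter (fun B => ∃ i, Shat c i B) with h𝒢
  set Ω := Fintype.piFinset (fun _ : Fin k => H) with hΩ
  have hΩc : Ω.card = n ^ k := by
    rw [hΩ, Fintype.card_piFinset]
    simp [hn]
  set Bad1 := Ω.filter (fun a => ¬ Quarter η c (fun j => (a j : ℤ))) with hBad1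
  set Bad2 := Ω.filter (fun a => ¬ Function.Injective a) with hBad2
  set Gd := Ω.filter (fun a => Quarter η c (fun j => (a j : ℤ)) ∧ Function.Injective a) with hGd
  have hb1 : (Bad1.card : ℝ) ≤ C * (n : ℝ) ^ ((k : ℝ) - δ) := hq c H hH hn1
  have hb2 : Bad2.card ≤ k ^ 2 * n ^ (k - 1) := ms_noninj H
  have hsplit : Ω.card ≤ Gd.card + (Bad1.card + Bad2.card) := by
    have h1 : Ω ⊆ Gd ∪ (Bad1 ∪ Bad2) := by
      intro a ha
      rw [mem_union, mem_union, hGd, hBad1, hBad2, mem_filter, mem_filter, mem_filter]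
      by_cases h1 : Quarter η c (fun j => (a j : ℤ))
      · by_cases h2 : Function.Injective a
        · exact Or.inl ⟨ha, h1, h2⟩
        · exact Or.inr (Or.inr ⟨ha, h2⟩)
      · exact Or.inr (Or.inl ⟨ha, h1⟩)
    exact (card_le_card h1).trans ((card_union_le _ _).trans (Nat.add_le_add_left (card_union_le _ _) _))
  -- lower bound for the number of good `J` for one good tuple
  have hlow : ∀ a ∈ Gd, κ * (k.choose m : ℝ) ≤
      (((powersetCard m (univ : Finset (Fin k))).filter (fun J => J.image a ∈ 𝒢)).card : ℝ) := by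
    intro a ha
    rw [hGd, mem_filter] at ha
    obtain ⟨haΩ, ⟨w, hw0, hw1, hw2, hw3⟩, hinj⟩ := ha
    have h1 := fam_count r k m hm lam hlam0 w hw0 hw1 (by rw [hlam]; exact hw2)
      (univ.filter (fun J => J.image a ∈ 𝒢)) (by
        intro i E hE J hJE hJm
        rw [mem_filter]
        refine ⟨mem_univ _, ?_⟩
        rw [h𝒢, mem_filter, mem_powersetCard]
        refine ⟨⟨?_, ?_⟩, i, ms_shat c a i E J hJE (hw3 i E hE)⟩
        · intro x hx
          rw [mem_image] at hx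
          obtain ⟨j, _, rfl⟩ := hx
          exact (Fintype.mem_piFinset.1 haΩ) j
        · rw [card_image_of_injective _ hinj, hJm]) hmk
    rw [← hκ] at h1
    refine h1.trans ?_
    have h2 : (univ.filter (fun J => J.image a ∈ 𝒢)).filter (fun J => J.card = m) ⊆
        (powersetCard m (univ : Finset (Fin k))).filter (fun J => J.image a ∈ 𝒢) := by
      intro J hJ
      rw [mem_filter, mem_filter] at hJ
      rw [mem_filter, mem_powersetCard]
      exact ⟨⟨subset_univ _, hJ.2⟩, hJ.1.2⟩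
    exact_mod_cast card_le_card h2
  -- upper bound
  have hup : ∑ a ∈ Gd, ((powersetCard m (univ : Finset (Fin k))).filter (fun J => J.image a ∈ 𝒢)).card ≤
      k.choose m * (𝒢.card * (m.factorial * n ^ (k - m))) := by
    calc ∑ a ∈ Gd, ((powersetCard m (univ : Finset (Fin k))).filter (fun J => J.image a ∈ 𝒢)).card
        = ∑ a ∈ Gd, ∑ J ∈ powersetCard m (univ : Finset (Fin k)), (if J.image a ∈ 𝒢 then 1 else 0) := by
          apply sum_congr rfl
          intro a _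
          rw [card_filter]
      _ = ∑ J ∈ powersetCard m (univ : Finset (Fin k)), ∑ a ∈ Gd, (if J.image a ∈ 𝒢 then 1 else 0) := sum_comm
      _ ≤ ∑ J ∈ powersetCard m (univ : Finset (Fin k)), 𝒢.card * (m.factorial * n ^ (k - m)) := by
          apply sum_le_sum
          intro J hJ
          rw [mem_powersetCard] at hJ
          rw [← card_filter]
          have h1 : Gd.filter (fun a => J.image a ∈ 𝒢) ⊆ 𝒢.biUnion (fun B => Gd.filter (fun a => J.image a = B)) := by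
            intro a ha
            rw [mem_filter] at ha
            rw [mem_biUnion]
            exact ⟨J.image a, ha.2, mem_filter.2 ⟨ha.1, rfl⟩⟩
          refine (card_le_card h1).trans (card_biUnion_le_card_mul _ _ _ ?_)
          intro B hB
          rw [h𝒢, mem_filter, mem_powersetCard] at hB
          refine ms_count H B J _ ?_ m hJ.2 hB.1.2
          intro a ha
          rw [mem_filter, hGd, mem_filter] at ha
          exact ⟨ha.1.2.2, fun j => (Fintype.mem_piFinset.1 ha.1.1) j, ha.2⟩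
      _ = _ := by
          rw [sum_const, card_powersetCard, card_univ, Fintype.card_fin, smul_eq_mul]
  -- real numbers
  have hκ0 : 0 ≤ κ := le_trans (div_nonneg (by linarith) (by positivity)) hkap
  have hkm0 : (0 : ℝ) < (k.choose m : ℝ) := by exact_mod_cast Nat.choose_pos hmkN
  have hmain : (Gd.card : ℝ) * (κ * (k.choose m : ℝ)) ≤
      (k.choose m : ℝ) * ((𝒢.card : ℝ) * ((m.factorial : ℝ) * (n : ℝ) ^ (k - m))) := by
    calc (Gd.card : ℝ) * (κ * (k.choose m : ℝ)) = ∑ a ∈ Gd, κ * (k.choose m : ℝ) := by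
          rw [sum_const, nsmul_eq_mul]
      _ ≤ ∑ a ∈ Gd, (((powersetCard m (univ : Finset (Fin k))).filter (fun J => J.image a ∈ 𝒢)).card : ℝ) :=
          sum_le_sum hlow
      _ ≤ _ := by exact_mod_cast hup
  have hmain2 : (Gd.card : ℝ) * κ ≤ (𝒢.card : ℝ) * ((m.factorial : ℝ) * (n : ℝ) ^ (k - m)) := by
    have h1 : (Gd.card : ℝ) * κ * (k.choose m : ℝ) ≤
        (𝒢.card : ℝ) * ((m.factorial : ℝ) * (n : ℝ) ^ (k - m)) * (k.choose m : ℝ) := by
      linarith
    exact le_of_mul_le_mul_right h1 hkm0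
  have hnk : (0 : ℝ) < (n : ℝ) ^ k := by positivity
  have hnm : (0 : ℝ) < (n : ℝ) ^ m := by positivity
  have hpow1 : (n : ℝ) ^ ((k : ℝ) - δ) = (n : ℝ) ^ k * (n : ℝ) ^ (-δ) := by
    rw [sub_eq_add_neg, Real.rpow_add hn0, Real.rpow_natCast]
  have hpow2 : (n : ℝ) ^ (k - 1) = (n : ℝ) ^ k / n := by
    rw [eq_div_iff hn0.ne', ← pow_succ]
    congr 1
    omega
  have hpow3 : (n : ℝ) ^ (k - m) = (n : ℝ) ^ k / (n : ℝ) ^ m := by
    rw [eq_div_iff hnm.ne', ← pow_add]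
    congr 1
    omega
  have hGdlow : (1 - ε / 4) * (n : ℝ) ^ k ≤ (Gd.card : ℝ) := by
    have h1 : ((n ^ k : ℕ) : ℝ) ≤ (Gd.card : ℝ) + ((Bad1.card : ℝ) + (Bad2.card : ℝ)) := by
      rw [← hΩc]
      exact_mod_cast hsplit
    have h2 : (Bad2.card : ℝ) ≤ (k : ℝ) ^ 2 * (n : ℝ) ^ (k - 1) := by exact_mod_cast hb2
    rw [hpow1] at hb1
    rw [hpow2] at h2
    have h3 := hK n hHK
    have h4 : C * ((n : ℝ) ^ k * (n : ℝ) ^ (-δ)) + (k : ℝ) ^ 2 * ((n : ℝ) ^ k / n) =
        (C * (n : ℝ) ^ (-δ) + (k : ℝ) ^ 2 / n) * (n : ℝ) ^ k := by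
      field_simp
    have h5 : (C * (n : ℝ) ^ (-δ) + (k : ℝ) ^ 2 / n) * (n : ℝ) ^ k ≤ ε / 4 * (n : ℝ) ^ k := by
      gcongr
    push_cast at h1
    linarith
  have hfac : (0 : ℝ) < (m.factorial : ℝ) := by exact_mod_cast m.factorial_pos
  have h6 : (1 - ε / 4) * κ * (n : ℝ) ^ m / (m.factorial : ℝ) ≤ (𝒢.card : ℝ) := by
    rw [div_le_iff₀ hfac]
    have h7 : (1 - ε / 4) * (n : ℝ) ^ k * κ ≤ (𝒢.card : ℝ) * ((m.factorial : ℝ) * ((n : ℝ) ^ k / (n : ℝ) ^ m)) := by
      rw [← hpow3]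
      exact le_trans (mul_le_mul_of_nonneg_right hGdlow hκ0) hmain2
    have h8 : (𝒢.card : ℝ) * ((m.factorial : ℝ) * ((n : ℝ) ^ k / (n : ℝ) ^ m)) =
        ((𝒢.card : ℝ) * (m.factorial : ℝ)) * (n : ℝ) ^ k / (n : ℝ) ^ m := by ring
    rw [h8, le_div_iff₀ hnm] at h7
    have h9 : ((1 - ε / 4) * κ * (n : ℝ) ^ m) * (n : ℝ) ^ k ≤ ((𝒢.card : ℝ) * (m.factorial : ℝ)) * (n : ℝ) ^ k := by
      linarith
    exact le_of_mul_le_mul_right h9 hnk
  have h10 : ((n.choose m : ℕ) : ℝ) ≤ (n : ℝ) ^ m / (m.factorial : ℝ) := Nat.choose_le_pow_div m n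
  have h11 : (1 - ε) / (4 * (r : ℝ)) ^ (m - 1) ≤ (1 - ε / 4) * κ := by
    have h12 : (0 : ℝ) < (4 * (r : ℝ)) ^ (m - 1) := by
      have : (0 : ℝ) < r := by exact_mod_cast hr
      positivity
    calc (1 - ε) / (4 * (r : ℝ)) ^ (m - 1) ≤ ((1 - ε / 4) * (1 - ε / 4)) / (4 * (r : ℝ)) ^ (m - 1) := by
          gcongr
          nlinarith
      _ = (1 - ε / 4) * ((1 - ε / 4) / (4 * (r : ℝ)) ^ (m - 1)) := by ring
      _ ≤ _ := mul_le_mul_of_nonneg_left hkap (by linarith)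
  calc (1 - ε) / (4 * (r : ℝ)) ^ (m - 1) * ((n.choose m : ℕ) : ℝ) ≤
      ((1 - ε / 4) * κ) * ((n : ℝ) ^ m / (m.factorial : ℝ)) := by
        apply mul_le_mul h11 h10 (Nat.cast_nonneg _)
        exact mul_nonneg (by linarith) hκ0
    _ = (1 - ε / 4) * κ * (n : ℝ) ^ m / (m.factorial : ℝ) := by ring
    _ ≤ _ := h6

end Pool.Agent.H21.QT
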