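import Pool.Agent.H21.QT.Qr

/-!
[H21 QT QN]  Corollaries of `quarter`.

* `quarter_nat`: `A j = H.image (Nat.cast)` (`Nat.castEmbedding`), `a ↦ (fun j => (a j : ℤ))` is injective, the tuples are admissible
  (`p ∤ a + h` in `ℕ` gives it in `ℤ`).
* `quarter_large`: sum the covering inequality over `j`: `∑_i ∑_E w i E |E| ≥ k (1/4-η)/r`, so some `(i, E)` with `w i E > 0` has
  `|E| ≥ k (1/4 - η)/r` (otherwise the sum is `<`, if it is positive; if `(1/4-η)/r ≤ 0` use any pair with `w > 0`, or if all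
  `w = 0` ... assume `η < 1/4`).
-/

namespace Pool.Agent.H21.QT

open Finset

open Classical in
theorem quarter_nat (r k : ℕ) (hk : 1 ≤ k) (η : ℝ) (hη : 0 < η) :
    ∃ δ C : ℝ, 0 < δ ∧ δ ≤ 1 ∧ 0 ≤ C ∧
    ∀ (c : ℕ → Fin r) (H : Finset ℕ), (∀ p : ℕ, p.Prime → ∃ a : ℕ, ∀ h ∈ H, ¬ p ∣ a + h) →
      1 ≤ H.card →
      (((Fintype.piFinset (fun _ : Fin k => H)).filter
        (fun a => ¬ Quarter η c (fun j => (a j : ℤ)))).card : ℝ) ≤
        C * (H.card : ℝ) ^ ((k : ℝ) - δ) := by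
  obtain ⟨δ, C, hδ, hδ1, hC, h⟩ := quarter r k hk η hη
  refine ⟨δ, C, hδ, hδ1, hC, ?_⟩
  intro c H hH hcard
  have h1 := h c H.card (fun _ => H.image (fun n : ℕ => (n : ℤ))) hcard
    (fun _ => Finset.card_image_le)
  refine le_trans ?_ h1
  norm_cast
  apply Finset.card_le_card_of_injOn (fun (a : Fin k → ℕ) (j : Fin k) => (a j : ℤ))
  · intro a ha
    rw [Finset.mem_coe, Finset.mem_filter, Fintype.mem_piFinset] at ha
    rw [Finset.mem_coe, Finset.mem_filter, Fintype.mem_piFinset]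
    refine ⟨fun j => Finset.mem_image_of_mem _ (ha.1 j), ?_, ha.2⟩
    intro p hp
    obtain ⟨b, hb⟩ := hH p hp
    refine ⟨(b : ℤ), fun j hj => hb (a j) (ha.1 j) ?_⟩
    have h2 : (p : ℤ) ∣ ((b + a j : ℕ) : ℤ) := by
      push_cast
      exact hj
    exact_mod_cast h2
  · intro a _ b _ hab
    funext j
    have h2 := congrFun hab j
    simp only at h2
    exact_mod_cast h2

theorem quarter_large {r k : ℕ} (hr : 1 ≤ r) (η : ℝ) (hη : η < 1 / 4) (hk : 1 ≤ k)
    (c : ℕ → Fin r) (a : Fin k → ℤ) (h : Quarter η c a) :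
    ∃ (i : Fin r) (E : Finset (Fin k)), k * ((1 / 4 - η) / r) ≤ (E.card : ℝ) ∧ Rea c a i E := by
  classical
  obtain ⟨w, hw0, hw1, hcov, hrea⟩ := h
  set L : ℝ := k * ((1 / 4 - η) / r) with hL
  have hr' : (0 : ℝ) < r := by exact_mod_cast hr
  have hk' : (0 : ℝ) < k := by exact_mod_cast hk
  have hL0 : 0 < L := by
    rw [hL]
    have : 0 < 1 / 4 - η := by linarith
    positivity
  by_contra hcon
  push Not at hcon
  have hsmall : ∀ i E, 0 < w i E → (E.card : ℝ) < L := by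
    intro i E hwE
    by_contra h2
    exact hcon i E (not_lt.1 h2) (hrea i E hwE)
  -- double counting
  have hdc : ∑ j : Fin k, ∑ i, ∑ E ∈ univ.filter (fun E => j ∈ E), w i E =
      ∑ i, ∑ E, w i E * (E.card : ℝ) := by
    rw [Finset.sum_comm]
    refine Finset.sum_congr rfl fun i _ => ?_
    simp only [Finset.sum_filter]
    rw [Finset.sum_comm]
    refine Finset.sum_congr rfl fun E _ => ?_
    rw [← Finset.sum_filter, Finset.sum_const, nsmul_eq_mul, mul_comm]
    congr 2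
    rw [Finset.filter_mem_eq_inter, Finset.univ_inter]
  have h3 : L ≤ ∑ i, ∑ E, w i E * (E.card : ℝ) := by
    rw [← hdc]
    calc L = ∑ _j : Fin k, (1 / 4 - η) / r := by
          rw [Finset.sum_const, Finset.card_univ, Fintype.card_fin, nsmul_eq_mul]
      _ ≤ _ := Finset.sum_le_sum fun j _ => hcov j
  have hterm : ∀ i E, w i E * (E.card : ℝ) ≤ w i E * L := by
    intro i E
    rcases (hw0 i E).eq_or_lt with h0 | h0
    · rw [← h0]; simp
    · exact mul_le_mul_of_nonneg_left (hsmall i E h0).le h0.le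
  have h4 : ∑ i, ∑ E, w i E * L ≤ L := by
    simp only [← Finset.sum_mul]
    nlinarith
  by_cases hex : ∃ i E, 0 < w i E
  · obtain ⟨i₀, E₀, h0⟩ := hex
    have h5 : ∑ i, ∑ E, w i E * (E.card : ℝ) < ∑ i, ∑ E, w i E * L := by
      refine Finset.sum_lt_sum (fun i _ => Finset.sum_le_sum fun E _ => hterm i E)
        ⟨i₀, Finset.mem_univ _, ?_⟩
      exact Finset.sum_lt_sum (fun E _ => hterm i₀ E) ⟨E₀, Finset.mem_univ _,
        mul_lt_mul_of_pos_left (hsmall i₀ E₀ h0) h0⟩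
    linarith
  · push Not at hex
    have h5 : ∑ i, ∑ E, w i E * (E.card : ℝ) = 0 := by
      refine Finset.sum_eq_zero fun i _ => Finset.sum_eq_zero fun E _ => ?_
      rw [le_antisymm (hex i E) (hw0 i E), zero_mul]
    linarith

end Pool.Agent.H21.QT
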