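import Pool.Agent.H21.QT.Hb
import Pool.Agent.H21.QT.Bq

/-!
[H21 QT QR]  For almost all admissible `k`-tuples the realised sets cover every index with weight `(1/4 - η)/r`.

Proof.
* `quarter`: `l = l₀` of `blk_quarter k η`, `s = 2^l`, `hom_box k s q` with `q = 2^(r 2^k)`,
  `κ = Finset (Fin r × Finset (Fin k))` and `col a = {(i, E') | {N | ∀ j, PC c i N (a j) ↔ j ∈ E'}.Infinite}` (`univ.filter`),
  `Bad a = ¬ Quarter η c a`.  Let `V` be a homogeneous box of bad tuples.  The set `Z` of all `(a, i, E')`,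
  `a ∈ piFinset V`, for which `{N | ∀ j, PC c i N (a j) ↔ j ∈ E'}` is finite is finite, so there is `N0` larger than all
  elements of these sets.  `blk_quarter` with `D = 0` and this `N0` gives `T`, `μ`; let `T'` be the set of the `N ∈ T` for which no block is
  full (`∀ j', ∃ x ∈ V j', ¬ prime`).  For `N ∈ T'` let `E i N = {j | ∃ x ∈ V j, PC c i N x}`.  If `E' ⊆ E i N` choose
  `a ∈ piFinset V` with `PC c i N (a j)` for `j ∈ E'` and `N + a j` not prime for `j ∉ E'`: the pattern of `(a, i)` at `N > N0` is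
  `E'`, so `(i, E')` is infinite for `a`, hence for every `a' ∈ piFinset V` (homogeneous).  So every `a' ∈ piFinset V` has
  `Rea c a' i (E i N)` for all `N ∈ T'`, `i`.  Put `w i E = (1/r) ∑_{N ∈ T', E i N = E} μ N`: `∑ w ≤ 1`
  (`∑_E ∑_{N : E i N = E} = ∑_N`), and if `N + x`, `x ∈ V j`, is prime then `j ∈ E i N` for `i` = its colour, so
  `∑_i ∑_{E ∋ j} w i E ≥ (1/r) μ(T', V j contains a prime) ≥ (1/4-η)/r`.  Hence `a'` is `Quarter`, contradiction (`V j` are not
  empty, so `piFinset V` is not).  (`r ≥ 1` because of `c 0 : Fin r`.)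
-/

namespace Pool.Agent.H21.QT

open Finset

open Classical in
theorem quarter (r k : ℕ) (hk : 1 ≤ k) (η : ℝ) (hη : 0 < η) : ∃ δ C : ℝ, 0 < δ ∧ δ ≤ 1 ∧ 0 ≤ C ∧
    ∀ (c : ℕ → Fin r) (n : ℕ) (A : Fin k → Finset ℤ), 1 ≤ n → (∀ j, (A j).card ≤ n) →
      (((Fintype.piFinset A).filter (fun a => AdT a ∧ ¬ Quarter η c a)).card : ℝ) ≤
        C * (n : ℝ) ^ ((k : ℝ) - δ) := by
  obtain ⟨l, hl'⟩ := blk_quarter k hk η hη
  have hl := hl' l le_rfl
  obtain ⟨δ, C, hδ, hδ1, hC, H⟩ := hom_box k (2 ^ l) (2 ^ (r * 2 ^ k)) hk Nat.one_le_two_pow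
  refine ⟨δ, C, hδ, hδ1, hC, ?_⟩
  intro c n A hn hA
  have hr : 0 < r := Fin.pos (c 0)
  have hr' : (0 : ℝ) < r := by exact_mod_cast hr
  let P : (Fin k → ℤ) → Fin r → Finset (Fin k) → Set ℕ :=
    fun a i E' => {N : ℕ | ∀ j, PC c i N (a j) ↔ j ∈ E'}
  let col : (Fin k → ℤ) → Finset (Fin r × Finset (Fin k)) :=
    fun a => univ.filter (fun p => (P a p.1 p.2).Infinite)
  have hcardq : Fintype.card (Finset (Fin r × Finset (Fin k))) ≤ 2 ^ (r * 2 ^ k) := by
    rw [Fintype.card_finset, Fintype.card_prod, Fintype.card_finset, Fintype.card_fin,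
      Fintype.card_fin]
  suffices hmain : ∀ V : Fin k → Finset ℤ, (∀ j j', j ≠ j' → Disjoint (V j) (V j')) →
      (∀ j, (V j).card = 2 ^ l) → AdB V → (∀ a ∈ Fintype.piFinset V, ¬ Quarter η c a) →
      (∀ a ∈ Fintype.piFinset V, ∀ a' ∈ Fintype.piFinset V, col a = col a') → False by
    have h0 := H (Finset (Fin r × Finset (Fin k))) inferInstance hcardq col
      (fun a => ¬ Quarter η c a) hmain n A hn hA
    convert h0
  intro V hdis hcard hadm hbad hcol
  have hmem : ∀ a ∈ Fintype.piFinset V, ∀ a' ∈ Fintype.piFinset V, ∀ i E',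
      (P a i E').Infinite → (P a' i E').Infinite := by
    intro a ha a' ha' i E' h
    have h1 : (i, E') ∈ col a := by
      simp only [col, mem_filter, mem_univ, true_and]
      exact h
    rw [hcol a ha a' ha'] at h1
    simp only [col, mem_filter, mem_univ, true_and] at h1
    exact h1
  have hfin : (⋃ a ∈ Fintype.piFinset V, ⋃ i : Fin r, ⋃ E' : Finset (Fin k),
      (if (P a i E').Infinite then ∅ else P a i E')).Finite := by
    refine Set.Finite.biUnion (Fintype.piFinset V).finite_toSet ?_
    intro a _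
    refine Set.finite_iUnion fun i => Set.finite_iUnion fun E' => ?_
    split_ifs with h
    · exact Set.finite_empty
    · exact Set.not_infinite.mp h
  obtain ⟨N0, hN0⟩ := hfin.bddAbove
  have hN0' : ∀ a ∈ Fintype.piFinset V, ∀ i E' N, N0 < N → N ∈ P a i E' →
      (P a i E').Infinite := by
    intro a ha i E' N hN hNP
    by_contra hcon
    have h1 : N ≤ N0 := by
      apply hN0
      simp only [Set.mem_iUnion]
      refine ⟨a, ha, i, E', ?_⟩
      rw [if_neg hcon]
      exact hNP
    omega
  obtain ⟨T, μ, hT0, hμ0, hμ1, -, hμ4⟩ := hl V hdis hcard hadm 0 N0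
  let T' : Finset ℕ := T.filter (fun N : ℕ => ∀ j', ∃ x ∈ V j', ¬ ((N : ℤ) + x).toNat.Prime)
  let E : Fin r → ℕ → Finset (Fin k) := fun i N => univ.filter (fun j => ∃ x ∈ V j, PC c i N x)
  have key : ∀ N ∈ T', ∀ i, ∀ a' ∈ Fintype.piFinset V, Rea c a' i (E i N) := by
    intro N hN i a' ha' E' hE'
    have hN1 := mem_filter.mp hN
    have hch : ∀ j, ∃ x ∈ V j, (PC c i N x ↔ j ∈ E') := by
      intro j
      by_cases hj : j ∈ E'
      · have := hE' hj
        simp only [E, mem_filter, mem_univ, true_and] at this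
        obtain ⟨x, hx, hx'⟩ := this
        exact ⟨x, hx, by tauto⟩
      · obtain ⟨x, hx, hx'⟩ := hN1.2 j
        refine ⟨x, hx, ?_⟩
        constructor
        · intro h
          exact absurd h.1 hx'
        · intro h
          exact absurd h hj
    choose a ha ha2 using hch
    have ha3 : a ∈ Fintype.piFinset V := Fintype.mem_piFinset.mpr ha
    exact hmem a ha3 a' ha' i E' (hN0' a ha3 i E' N (hT0 N hN1.1) ha2)
  have hne : ∀ j, ∃ x, x ∈ V j := by
    intro j
    have : 0 < (V j).card := by
      rw [hcard]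
      positivity
    exact Finset.card_pos.mp this
  choose a' ha' using hne
  have ha'' : a' ∈ Fintype.piFinset V := Fintype.mem_piFinset.mpr ha'
  apply hbad a' ha''
  refine ⟨fun i F => (1 / r) * ∑ N ∈ T'.filter (fun N => E i N = F), μ N, ?_, ?_, ?_, ?_⟩
  · intro i F
    exact mul_nonneg (by positivity) (sum_nonneg fun N _ => hμ0 N)
  · have h1 : ∀ i : Fin r, ∑ F, (1 / (r : ℝ)) * ∑ N ∈ T'.filter (fun N => E i N = F), μ N ≤
        1 / r := by
      intro i
      rw [← mul_sum, sum_fiberwise]
      have h2 : ∑ N ∈ T', μ N ≤ 1 := by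
        rw [← hμ1]
        exact sum_le_sum_of_subset_of_nonneg (filter_subset _ _) fun N _ _ => hμ0 N
      have h3 : (0 : ℝ) ≤ 1 / r := by positivity
      calc (1 / (r : ℝ)) * ∑ N ∈ T', μ N ≤ (1 / (r : ℝ)) * 1 := mul_le_mul_of_nonneg_left h2 h3
        _ = 1 / r := by ring
    calc ∑ i : Fin r, ∑ F, (1 / (r : ℝ)) * ∑ N ∈ T'.filter (fun N => E i N = F), μ N
        ≤ ∑ _i : Fin r, (1 / (r : ℝ)) := sum_le_sum fun i _ => h1 i
      _ = 1 := by
        rw [sum_const, card_univ, Fintype.card_fin, nsmul_eq_mul]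
        field_simp
  · intro j
    have h1 : ∀ i : Fin r, ∑ F ∈ univ.filter (fun F => j ∈ F),
        (1 / (r : ℝ)) * ∑ N ∈ T'.filter (fun N => E i N = F), μ N =
        (1 / (r : ℝ)) * ∑ N ∈ T', if j ∈ E i N then μ N else 0 := by
      intro i
      rw [← mul_sum]
      congr 1
      rw [← sum_fiberwise (s := T') (g := fun N => E i N), sum_filter]
      refine sum_congr rfl fun F _ => ?_
      split_ifs with h
      · refine sum_congr rfl fun N hN => ?_
        rw [(mem_filter.mp hN).2, if_pos h]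
      · symm
        refine sum_eq_zero fun N hN => ?_
        rw [(mem_filter.mp hN).2, if_neg h]
    rw [sum_congr rfl fun i _ => h1 i, ← mul_sum, sum_comm]
    have h2 : 1 / 4 - η ≤ ∑ N ∈ T', ∑ i : Fin r, if j ∈ E i N then μ N else 0 := by
      refine (hμ4 j).trans ?_
      have h3 : T.filter (fun N : ℕ => (∃ x ∈ V j, ((N : ℤ) + x).toNat.Prime) ∧
          ∀ j', ∃ x ∈ V j', ¬ ((N : ℤ) + x).toNat.Prime) =
          T'.filter (fun N : ℕ => ∃ x ∈ V j, ((N : ℤ) + x).toNat.Prime) := by
        ext N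
        simp only [T', mem_filter]
        tauto
      rw [h3, sum_filter]
      refine sum_le_sum fun N _ => ?_
      split_ifs with h
      · obtain ⟨x, hx, hx'⟩ := h
        have h4 : j ∈ E (c ((N : ℤ) + x).toNat) N := by
          simp only [E, mem_filter, mem_univ, true_and]
          exact ⟨x, hx, hx', rfl⟩
        calc μ N = if j ∈ E (c ((N : ℤ) + x).toNat) N then μ N else 0 := by rw [if_pos h4]
          _ ≤ _ := single_le_sum (f := fun i : Fin r => if j ∈ E i N then μ N else 0)
            (fun i _ => by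
              split_ifs
              · exact hμ0 N
              · exact le_rfl) (mem_univ _)
      · exact sum_nonneg fun i _ => by
          split_ifs
          · exact hμ0 N
          · exact le_rfl
    calc (1 / 4 - η) / r = (1 / (r : ℝ)) * (1 / 4 - η) := by ring
      _ ≤ _ := mul_le_mul_of_nonneg_left h2 (by positivity)
  · intro i F hpos
    have h1 : ∃ N ∈ T'.filter (fun N => E i N = F), True := by
      by_contra hcon
      push Not at hcon
      have h2 : T'.filter (fun N => E i N = F) = ∅ := by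
        ext N
        constructor
        · intro h
          exact absurd trivial (by
            have := hcon N h
            tauto)
        · intro h
          exact absurd h (notMem_empty _)
      dsimp only at hpos
      rw [h2, sum_empty, mul_zero] at hpos
      exact lt_irrefl _ hpos
    obtain ⟨N, hN, -⟩ := h1
    obtain ⟨hN1, hN2⟩ := mem_filter.mp hN
    rw [← hN2]
    exact key N hN1 i a' ha''

end Pool.Agent.H21.QT
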