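import Mathlib

/-!
[H21 QT TU]  Supersaturation for five independent vertices (Turan).

Proof.
* `turan5`: the complement of the graph `G` on `Fin k` has no `K_5`, so by Turan's theorem
  (`SimpleGraph.CliqueFree.card_edgeFinset_le` or `SimpleGraph.card_edgeFinset_turanGraph_le`,
  `Mathlib/Combinatorics/SimpleGraph/Extremal/Turan.lean`) it has at most `(1 - 1/4) k^2/2` edges, and `G` has at least
  `k(k-1)/2 - 3k^2/8 = k^2/8 - k/2` edges.  Stated with a symmetric relation `Q` on `Fin k`.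
-/

namespace Pool.Agent.H21.QT

open Finset

open Classical in
theorem turan5 (k : ℕ) (Q : Fin k → Fin k → Prop) (hQ : ∀ x y, Q x y → Q y x)
    (h5 : ∀ f : Fin 5 → Fin k, Function.Injective f → ∃ i j, i ≠ j ∧ Q (f i) (f j)) :
    (k : ℝ) ^ 2 / 8 - k / 2 ≤
      (((powersetCard 2 (univ : Finset (Fin k))).filter
        (fun B => ∃ x ∈ B, ∃ y ∈ B, x ≠ y ∧ Q x y)).card : ℝ) := by
  let G : SimpleGraph (Fin k) :=
    { Adj := fun x y => x ≠ y ∧ ¬ Q x y
      symm := ⟨fun x y h => ⟨h.1.symm, fun h' => h.2 (hQ y x h')⟩⟩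
      loopless := ⟨fun x h => h.1 rfl⟩ }
  have hcf : G.CliqueFree (4 + 1) := by
    intro s hs
    have hc : s.card = 5 := hs.card_eq
    let e : Fin 5 ≃ s := (s.equivFinOfCardEq hc).symm
    obtain ⟨i, j, hij, hq⟩ := h5 (fun i => (e i : Fin k)) (fun a b hab => e.injective (Subtype.ext hab))
    have hne : (e i : Fin k) ≠ e j := fun h => hij (e.injective (Subtype.ext h))
    have := hs.isClique (e i).2 (e j).2 hne
    exact this.2 hq
  have h1 := hcf.card_edgeFinset_le
  simp only [Fintype.card_fin] at h1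
  rw [← SimpleGraph.card_edgeFinset_turanGraph] at h1
  have h2 := SimpleGraph.mul_card_edgeFinset_turanGraph_le (n := k) (r := 4)
  have h3 : 8 * G.edgeFinset.card ≤ 3 * k ^ 2 := by omega
  set F := (powersetCard 2 (univ : Finset (Fin k))).filter
        (fun B => ∃ x ∈ B, ∃ y ∈ B, x ≠ y ∧ Q x y) with hF
  have h4 : powersetCard 2 (univ : Finset (Fin k)) ⊆ F ∪ G.edgeFinset.image (fun e => e.toFinset) := by
    intro B hB
    rw [mem_union]
    by_cases hBF : B ∈ F
    · exact Or.inl hBF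
    · right
      rw [hF, mem_filter] at hBF
      rw [mem_powersetCard, card_eq_two] at hB
      obtain ⟨-, x, y, hxy, rfl⟩ := hB
      rw [mem_image]
      refine ⟨s(x, y), ?_, ?_⟩
      · rw [SimpleGraph.mem_edgeFinset, SimpleGraph.mem_edgeSet]
        refine ⟨hxy, fun hq => hBF ⟨?_, x, by simp, y, by simp, hxy, hq⟩⟩
        rw [mem_powersetCard]
        exact ⟨subset_univ _, card_pair hxy⟩
      · ext z
        simp
  have h5' := (card_le_card h4).trans ((card_union_le _ _).trans (Nat.add_le_add_left card_image_le _))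
  rw [card_powersetCard, card_univ, Fintype.card_fin] at h5'
  have h6 : ((k.choose 2 : ℕ) : ℝ) = (k : ℝ) * (k - 1) / 2 := Nat.cast_choose_two ℝ k
  have h7 : ((k.choose 2 : ℕ) : ℝ) ≤ (F.card : ℝ) + G.edgeFinset.card := by exact_mod_cast h5'
  have h8 : 8 * (G.edgeFinset.card : ℝ) ≤ 3 * (k : ℝ) ^ 2 := by exact_mod_cast h3
  rw [h6] at h7
  nlinarith

end Pool.Agent.H21.QT
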